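import Pool.Agent.H7LP.Lift

/-!
# Most gadget strings are good
-/

set_option linter.unusedSectionVars false
set_option linter.unusedDecidableInType false

namespace Pool.Agent.H7LP

open Finset

variable {ι V : Type} [Fintype ι] [DecidableEq ι] [Fintype V] [DecidableEq V]

open Classical in
/-- the number of `y` with a property, as a real number -/
noncomputable def cnt (p : (ι → V) → Prop) : ℝ := ((Finset.univ.filter p).card : ℝ)

theorem cnt_eq (p : (ι → V) → Prop) [DecidablePred p] :
    cnt p = ((Finset.univ.filter p).card : ℝ) := by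
  unfold cnt; congr

theorem cnt_nonneg (p : (ι → V) → Prop) : 0 ≤ cnt p := Nat.cast_nonneg _

theorem cnt_mono {p q : (ι → V) → Prop} (h : ∀ y, p y → q y) : cnt p ≤ cnt q := by
  classical
  rw [cnt_eq, cnt_eq]
  exact_mod_cast Finset.card_le_card (Finset.monotone_filter_right _ fun y _ => h y)

theorem cnt_or (p q : (ι → V) → Prop) : cnt (fun y => p y ∨ q y) ≤ cnt p + cnt q := by
  classical
  rw [cnt_eq, cnt_eq, cnt_eq, Finset.filter_or]
  exact_mod_cast Finset.card_union_le _ _

theorem cnt_exists {κ : Type} (S : Finset κ) (p : κ → (ι → V) → Prop) :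
    cnt (fun y => ∃ k ∈ S, p k y) ≤ ∑ k ∈ S, cnt (p k) := by
  classical
  simp only [cnt_eq]
  have : (Finset.univ.filter fun y => ∃ k ∈ S, p k y) ⊆
      S.biUnion fun k => Finset.univ.filter (p k) := by
    intro y hy
    simp only [Finset.mem_filter, Finset.mem_univ, true_and] at hy
    obtain ⟨k, hk, hy⟩ := hy
    simp only [Finset.mem_biUnion, Finset.mem_filter, Finset.mem_univ, true_and]
    exact ⟨k, hk, hy⟩
  have h2 := (Finset.card_le_card this).trans Finset.card_biUnion_le
  exact_mod_cast h2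

theorem cnt_false {p : (ι → V) → Prop} (h : ∀ y, ¬ p y) : cnt p = 0 := by
  classical
  rw [cnt_eq, Finset.filter_false_of_mem fun y _ => h y]
  simp

theorem cnt_le_total (p : (ι → V) → Prop) : cnt p ≤ (Fintype.card (ι → V) : ℝ) := by
  classical
  rw [cnt_eq]
  exact_mod_cast Finset.card_le_univ _

/-- mix two strings -/
def mix (J : Finset ι) (p q : ι → V) : ι → V := fun j => if j ∈ J then p j else q j

theorem decouple (J : Finset ι) (P : (ι → V) → Prop) (Q : (ι → V) → (ι → V) → Prop)
    (hP : ∀ y y' : ι → V, (∀ j ∈ J, y j = y' j) → P y → P y')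
    (hQ : ∀ y₁ y₁' y₂ y₂' : ι → V, (∀ j ∈ J, y₁ j = y₁' j) → (∀ j ∉ J, y₂ j = y₂' j) →
      Q y₁ y₂ → Q y₁' y₂') {B : ℝ}
    (hB : ∀ y₁, P y₁ → cnt (Q y₁) ≤ B) :
    cnt (fun y => P y ∧ Q y y) * (Fintype.card (ι → V) : ℝ) ≤ cnt P * B := by
  classical
  have h1 : (Finset.univ.filter fun y => P y ∧ Q y y).card * Fintype.card (ι → V) ≤
      ((Finset.univ.filter P).sigma fun y₁ => Finset.univ.filter (Q y₁)).card := by
    rw [← Finset.card_univ, ← Finset.card_product]
    -- pairs `(p, q)` with `P p ∧ Q p p`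
    refine Finset.card_le_card_of_injOn
      (fun z => (⟨mix J z.1 z.2, mix J z.2 z.1⟩ : (_ : ι → V) × (ι → V))) ?_ ?_
    · rintro ⟨p, q⟩ hpq
      simp only [Finset.coe_product, Set.mem_prod, Finset.mem_coe, Finset.mem_filter,
        Finset.mem_univ, true_and, and_true] at hpq
      simp only [Finset.coe_sigma, Set.mem_sigma_iff, Finset.mem_coe, Finset.mem_filter,
        Finset.mem_univ, true_and]
      refine ⟨hP p _ (fun j hj => by simp [mix, hj]) hpq.1,
        hQ p _ p _ (fun j hj => by simp [mix, hj]) (fun j hj => by simp [mix, hj]) hpq.2⟩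
    · rintro ⟨p, q⟩ - ⟨p', q'⟩ - h
      simp only [Sigma.mk.injEq, heq_eq_eq] at h
      obtain ⟨h1, h2⟩ := h
      ext j
      · have e1 := congrFun h1 j
        have e2 := congrFun h2 j
        by_cases hj : j ∈ J
        · simpa [mix, hj] using e1
        · simpa [mix, hj] using e2
      · have e1 := congrFun h1 j
        have e2 := congrFun h2 j
        by_cases hj : j ∈ J
        · simpa [mix, hj] using e2
        · simpa [mix, hj] using e1
  have h2 : (((Finset.univ.filter P).sigma fun y₁ => Finset.univ.filter (Q y₁)).card : ℝ) ≤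
      cnt P * B := by
    rw [Finset.card_sigma, cnt_eq]
    push_cast
    calc ∑ y₁ ∈ Finset.univ.filter P, ((Finset.univ.filter (Q y₁)).card : ℝ)
        ≤ ∑ y₁ ∈ Finset.univ.filter P, B := by
          refine Finset.sum_le_sum fun y₁ hy => ?_
          have := hB y₁ (Finset.mem_filter.mp hy).2
          rwa [cnt_eq] at this
      _ = ((Finset.univ.filter P).card : ℝ) * B := by
          rw [Finset.sum_const, nsmul_eq_mul]
  refine le_trans ?_ h2
  rw [cnt_eq, ← Nat.cast_mul]
  exact Nat.cast_le.mpr h1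

/-! ### Second moment -/

variable {c : V → V → Bool}

/-- orthogonality of the rows of the gadget -/
def Orth (c : V → V → Bool) : Prop :=
  ∀ a a' : V, ∑ y, sgn (c y a) * sgn (c y a') = if a = a' then (Fintype.card V : ℝ) else 0

theorem sum_uu_mul (hc : Orth c) (J : Finset ι) (A A' : ι → V) :
    ∑ y : ι → V, uu c y J A * uu c y J A' =
      if ∀ j ∈ J, A' j = A j then (Fintype.card (ι → V) : ℝ) else 0 := by
  classical
  have h1 : ∀ y : ι → V, uu c y J A * uu c y J A' =
      ∏ j, (if j ∈ J then sgn (c (y j) (A j)) * sgn (c (y j) (A' j)) else 1) := by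
    intro y
    rw [Finset.prod_ite_mem, Finset.univ_inter, uu, uu, Finset.prod_mul_distrib]
  simp only [h1]
  have h2 := Finset.prod_univ_sum (fun _ : ι => (Finset.univ : Finset V))
    (fun j v => if j ∈ J then sgn (c v (A j)) * sgn (c v (A' j)) else (1 : ℝ))
  rw [Fintype.piFinset_univ] at h2
  rw [← h2]
  by_cases h : ∀ j ∈ J, A' j = A j
  · rw [if_pos h, Fintype.card_fun]
    push_cast
    rw [← Finset.card_univ (α := ι), ← Finset.prod_const]
    refine Finset.prod_congr rfl fun j _ => ?_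
    by_cases hj : j ∈ J
    · simp only [if_pos hj, h j hj]
      rw [hc, if_pos rfl]
    · simp [hj]
  · rw [if_neg h]
    push Not at h
    obtain ⟨j, hj, hne⟩ := h
    refine Finset.prod_eq_zero (Finset.mem_univ j) ?_
    simp only [if_pos hj]
    rw [hc, if_neg (fun h => hne h.symm)]

/-- `g` is dense on the free blocks `R` -/
def Dense (W : ℝ) (g : (ι → V) → ℝ) (R : Finset ι) : Prop :=
  ∀ J ⊆ R, J.Nonempty → ∀ a : ι → V, mass (pin J a g) * W ^ J.card ≤ mass g

/-- bound for the masses of subcubes -/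
def Cap (W : ℝ) (g : (ι → V) → ℝ) (R : Finset ι) (cc : ℝ) : Prop :=
  ∀ J ⊆ R, ∀ a : ι → V, mass (pin J a g) * W ^ (2 * J.card) ≤ cc

theorem sum_sq_le (hc : Orth c) {W : ℝ} {g : (ι → V) → ℝ} {R : Finset ι}
    (hg : ∀ A, 0 ≤ g A) (hD : Dense W g R) {J : Finset ι} (hJ : J ⊆ R) (hne : J.Nonempty) :
    (∑ y : ι → V, (∑ A, g A * uu c y J A) ^ 2) * W ^ J.card ≤
      (mass g) ^ 2 * Fintype.card (ι → V) := by
  have h1 : ∑ y : ι → V, (∑ A, g A * uu c y J A) ^ 2 =
      ∑ A, g A * (mass (pin J A g) * Fintype.card (ι → V)) := by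
    simp only [sq, Finset.sum_mul_sum]
    rw [Finset.sum_comm]
    refine Finset.sum_congr rfl fun A _ => ?_
    rw [Finset.sum_comm, mass, Finset.sum_mul, Finset.mul_sum]
    refine Finset.sum_congr rfl fun A' _ => ?_
    have : ∀ y : ι → V, g A * uu c y J A * (g A' * uu c y J A') =
        (g A * g A') * (uu c y J A * uu c y J A') := fun y => by ring
    simp only [this]
    rw [← Finset.mul_sum, sum_uu_mul hc, pin]
    split_ifs <;> ring
  rw [h1, Finset.sum_mul]
  calc ∑ A, g A * (mass (pin J A g) * Fintype.card (ι → V)) * W ^ J.card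
      = ∑ A, g A * (mass (pin J A g) * W ^ J.card) * Fintype.card (ι → V) :=
        Finset.sum_congr rfl fun A _ => by ring
    _ ≤ ∑ A, g A * mass g * Fintype.card (ι → V) := by
        refine Finset.sum_le_sum fun A _ => ?_
        refine mul_le_mul_of_nonneg_right ?_ (Nat.cast_nonneg _)
        exact mul_le_mul_of_nonneg_left (hD J hJ hne A) (hg A)
    _ = (mass g) ^ 2 * Fintype.card (ι → V) := by
        rw [← Finset.sum_mul, ← Finset.sum_mul]
        unfold mass
        ring

/-- few gadget strings `y` correlate on `J` -/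
theorem cnt_bad_le (hc : Orth c) {W γ : ℝ} (hW : 0 < W) (hγ : 0 < γ) {g : (ι → V) → ℝ}
    {R : Finset ι} (hg : ∀ A, 0 ≤ g A) (hpos : 0 < mass g) (hD : Dense W g R) {J : Finset ι}
    (hJ : J ⊆ R) (hne : J.Nonempty) :
    cnt (fun y => γ ^ J.card * mass g < |∑ A, g A * uu c y J A|) ≤
      (1 / (W * γ ^ 2)) ^ J.card * Fintype.card (ι → V) := by
  classical
  have h1 := sum_sq_le hc hg hD hJ hne
  have h2 : cnt (fun y => γ ^ J.card * mass g < |∑ A, g A * uu c y J A|) *
      (γ ^ J.card * mass g) ^ 2 ≤ ∑ y : ι → V, (∑ A, g A * uu c y J A) ^ 2 := by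
    rw [cnt_eq, ← nsmul_eq_mul, ← Finset.sum_const]
    refine le_trans (Finset.sum_le_sum (g := fun y => (∑ A, g A * uu c y J A) ^ 2)
      fun y hy => ?_) (Finset.sum_le_sum_of_subset_of_nonneg (Finset.filter_subset _ _)
        fun y _ _ => sq_nonneg _)
    have h3 := (Finset.mem_filter.mp hy).2
    rw [← sq_abs (∑ A, g A * uu c y J A)]
    exact pow_le_pow_left₀ (by positivity) h3.le 2
  have h3 : 0 < (γ ^ J.card * mass g) ^ 2 := by positivity
  have h4 : cnt (fun y => γ ^ J.card * mass g < |∑ A, g A * uu c y J A|) *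
      ((γ ^ J.card * mass g) ^ 2 * W ^ J.card) ≤ (mass g) ^ 2 * Fintype.card (ι → V) := by
    calc _ = cnt (fun y => γ ^ J.card * mass g < |∑ A, g A * uu c y J A|) *
          (γ ^ J.card * mass g) ^ 2 * W ^ J.card := by ring
      _ ≤ _ := (mul_le_mul_of_nonneg_right h2 (by positivity)).trans h1
  rw [← le_div_iff₀ (by positivity)] at h4
  refine h4.trans (le_of_eq ?_)
  rw [div_pow, one_pow, mul_pow]
  field_simp
  ring

end Pool.Agent.H7LP
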