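import Pool.Agent.H87.PMCSP.PolyDefs
import Pool.Agent.H7LP.Lift2

/-!
# Circuits for tables of linear forms
-/

set_option linter.unusedSectionVars false
set_option linter.unusedDecidableInType false

namespace Pool.Agent.H7LP

open Finset
open Pool.Agent.H87.PMCSP (Circuit gop)

/-! ### Substitution and composition -/

/-- renaming (with negations) of the wires -/
def subst : {m n : ℕ} → Circuit m → (Fin m → Fin n × Bool) → Circuit n
  | _, _, .out w neg, ρ => .out (ρ w).1 (xor (ρ w).2 neg)
  | _, _, .gate conj a na b nb rest, ρ =>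
      .gate conj (ρ a).1 (xor (ρ a).2 na) (ρ b).1 (xor (ρ b).2 nb)
        (subst rest (Fin.snoc (α := fun _ => Fin (_ + 1) × Bool)
          (fun i => ((ρ i).1.castSucc, (ρ i).2)) (Fin.last _, false)))

theorem subst_size : ∀ {m n : ℕ} (c : Circuit m) (ρ : Fin m → Fin n × Bool),
    (subst c ρ).size = c.size
  | _, _, .out w neg, ρ => rfl
  | _, _, .gate conj a na b nb rest, ρ => by
      simp only [subst, Circuit.size]
      rw [subst_size rest]

theorem subst_eval : ∀ {m n : ℕ} (c : Circuit m) (ρ : Fin m → Fin n × Bool) (x : Fin n → Bool),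
    (subst c ρ).eval x = c.eval fun i => xor (x (ρ i).1) (ρ i).2
  | _, _, .out w neg, ρ, x => by
      simp only [subst, Circuit.eval]
      cases x (ρ w).1 <;> cases (ρ w).2 <;> cases neg <;> rfl
  | _, _, .gate conj a na b nb rest, ρ, x => by
      simp only [subst, Circuit.eval]
      rw [subst_eval rest]
      congr 1
      funext i
      refine Fin.lastCases ?_ (fun i => ?_) i
      · simp
      · simp

/-- composition: the output of the first circuit becomes the last wire of the second -/
def bind : {n : ℕ} → Circuit n → Circuit (n + 1) → Circuit n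
  | _, .out w neg, c => subst c (Fin.snoc (α := fun _ => Fin _ × Bool) (fun i => (i, false))
      (w, neg))
  | _, .gate conj a na b nb rest, c => .gate conj a na b nb (bind rest
      (subst c (Fin.snoc (α := fun _ => Fin (_ + 2) × Bool)
        (fun i => (i.castSucc.castSucc, false)) (Fin.last _, false))))

theorem bind_size : ∀ {n : ℕ} (c : Circuit n) (c' : Circuit (n + 1)),
    (bind c c').size = c.size + c'.size
  | _, .out w neg, c' => by simp only [bind, subst_size, Circuit.size, zero_add]
  | _, .gate conj a na b nb rest, c' => by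
      simp only [bind, Circuit.size]
      rw [bind_size rest, subst_size]
      omega

theorem bind_eval : ∀ {n : ℕ} (c : Circuit n) (c' : Circuit (n + 1)) (x : Fin n → Bool),
    (bind c c').eval x = c'.eval (Fin.snoc (α := fun _ => Bool) x (c.eval x))
  | _, .out w neg, c', x => by
      simp only [bind, subst_eval, Circuit.eval]
      congr 1
      funext i
      refine Fin.lastCases ?_ (fun i => ?_) i
      · simp
      · simp
  | _, .gate conj a na b nb rest, c', x => by
      simp only [bind, Circuit.eval]
      rw [bind_eval rest, subst_eval]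
      congr 1
      funext i
      refine Fin.lastCases ?_ (fun i => ?_) i
      · simp
      · simp

/-! ### Computations from given functions -/

variable {Z : Type}

/-- if the functions in `L` are available on wires, then `f` can be computed with at most `s`
further gates -/
def CanF (L : Set (Z → Bool)) (s : ℕ) (f : Z → Bool) : Prop :=
  ∀ (N : ℕ) (W : Fin N → Z → Bool), (∀ g ∈ L, ∃ i, W i = g) →
    ∃ c : Circuit N, c.size ≤ s ∧ ∀ z, c.eval (fun i => W i z) = f z

variable {L L' : Set (Z → Bool)} {s s' : ℕ} {f g : Z → Bool}

theorem CanF.congr (h : CanF L s f) (hfg : ∀ z, f z = g z) : CanF L s g := by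
  intro N W hW
  obtain ⟨c, h1, h2⟩ := h N W hW
  exact ⟨c, h1, fun z => (h2 z).trans (hfg z)⟩

theorem CanF.mono (h : CanF L s f) (hs : s ≤ s') : CanF L s' f := by
  intro N W hW
  obtain ⟨c, h1, h2⟩ := h N W hW
  exact ⟨c, h1.trans hs, h2⟩

theorem CanF.mono_set (h : CanF L s f) (hL : L ⊆ L') : CanF L' s f :=
  fun N W hW => h N W fun g hg => hW g (hL hg)

theorem CanF.avail (h : f ∈ L) : CanF L 0 f := by
  intro N W hW
  obtain ⟨i, hi⟩ := hW f h
  exact ⟨.out i false, le_rfl, fun z => by simp [Circuit.eval, hi]⟩

theorem CanF.comp (h : CanF L s g) (h' : CanF (insert g L) s' f) : CanF L (s + s') f := by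
  intro N W hW
  obtain ⟨c, h1, h2⟩ := h N W hW
  obtain ⟨c', h1', h2'⟩ := h' (N + 1) (Fin.snoc (α := fun _ => Z → Bool) W g) (by
    intro g' hg'
    rcases hg' with rfl | hg'
    · exact ⟨Fin.last _, by simp⟩
    · obtain ⟨i, hi⟩ := hW g' hg'
      exact ⟨i.castSucc, by simp [hi]⟩)
  refine ⟨bind c c', by rw [bind_size]; omega, fun z => ?_⟩
  rw [bind_eval, h2, ← h2' z]
  congr 1
  funext i
  refine Fin.lastCases ?_ (fun i => ?_) i
  · simp
  · simp

theorem CanF.gate (conj na nb : Bool) (hf : f ∈ L) (hg : g ∈ L) :
    CanF L 1 (fun z => gop conj (xor (f z) na) (xor (g z) nb)) := by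
  intro N W hW
  obtain ⟨i, hi⟩ := hW f hf
  obtain ⟨j, hj⟩ := hW g hg
  refine ⟨.gate conj i na j nb (.out (Fin.last N) false), le_rfl, fun z => ?_⟩
  simp [Circuit.eval, hi, hj]

theorem CanF.gop' (conj na nb : Bool) (hf : CanF L s f) (hg : CanF L s' g) :
    CanF L (s + s' + 1) (fun z => gop conj (xor (f z) na) (xor (g z) nb)) := by
  have h1 := hf.comp ((hg.mono_set (Set.subset_insert f L)).comp
    (CanF.gate (f := f) (g := g) conj na nb (Set.mem_insert_of_mem _ (Set.mem_insert _ _))
      (Set.mem_insert _ _)))
  exact h1.mono (by omega)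

theorem CanF.xor' (hf : CanF L s f) (hg : CanF L s' g) :
    CanF L (s + s' + 3) (fun z => xor (f z) (g z)) := by
  have hfm : f ∈ insert g (insert f L) := Set.mem_insert_of_mem _ (Set.mem_insert _ _)
  have hgm : g ∈ insert g (insert f L) := Set.mem_insert _ _
  have h1 := CanF.gop' true false false
    (CanF.gop' false false false (CanF.avail hfm) (CanF.avail hgm))
    (CanF.gop' false true true (CanF.avail hfm) (CanF.avail hgm))
  have h2 := hf.comp ((hg.mono_set (Set.subset_insert f L)).comp h1)
  refine (h2.mono (by omega : _ ≤ s + s' + 3)).congr fun z => ?_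
  simp only [gop, Bool.bne_false]
  cases f z <;> cases g z <;> rfl

theorem CanF.mux {w : Z → Bool} (hw : w ∈ L) (hf : CanF L s f) (hg : CanF L s' g) :
    CanF L (s + s' + 3) (fun z => bif w z then f z else g z) := by
  have h1 := CanF.gop' false false false (CanF.gop' true false false (CanF.avail hw) hf)
    (CanF.gop' true true false (CanF.avail hw) hg)
  refine (h1.mono (by omega : _ ≤ s + s' + 3)).congr fun z => ?_
  simp only [gop, Bool.bne_false, Bool.bne_true]
  cases w z <;> cases f z <;> cases g z <;> rfl

theorem CanF.false' {w : Z → Bool} (hw : w ∈ L) : CanF L 1 (fun _ : Z => false) := by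
  refine (CanF.gate true false true hw hw).congr fun z => ?_
  simp only [gop, Bool.bne_false, Bool.bne_true]
  cases w z <;> rfl

/-- computing many functions first -/
theorem CanF.family {α : Type} [DecidableEq α] (S : Finset α) (G : α → Z → Bool)
    (hG : ∀ i ∈ S, CanF L s (G i)) (h : CanF (L ∪ {g | ∃ i ∈ S, g = G i}) s' f) :
    CanF L (S.card * s + s') f := by
  induction S using Finset.induction_on generalizing L with
  | empty =>
    refine (h.mono_set ?_).mono (by simp)
    intro g hg
    rcases hg with hg | ⟨i, hi, -⟩
    · exact hg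
    · simp at hi
  | insert i S hi ih =>
    rw [Finset.card_insert_of_notMem hi]
    have h1 := ih (L := insert (G i) L)
      (fun j hj => (hG j (by simp [hj])).mono_set (Set.subset_insert _ _)) (h.mono_set (by
        intro g hg
        rcases hg with hg | ⟨j, hj, rfl⟩
        · exact Or.inl (Set.mem_insert_of_mem _ hg)
        · rcases Finset.mem_insert.mp hj with rfl | hj
          · exact Or.inl (Set.mem_insert _ _)
          · exact Or.inr ⟨j, hj, rfl⟩))
    exact ((hG i (by simp)).comp h1).mono (le_of_eq (by ring))

/-! ### Parities -/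

/-- the parity of `f` on `S` -/
def parity {α : Type} (S : Finset α) (f : α → Bool) : Bool :=
  decide (Odd (S.filter fun i => f i = true).card)

theorem parity_empty {α : Type} (f : α → Bool) : parity ∅ f = false := by
  simp [parity]

theorem parity_insert {α : Type} [DecidableEq α] {S : Finset α} {i : α} (hi : i ∉ S)
    (f : α → Bool) : parity (insert i S) f = xor (parity S f) (f i) := by
  unfold parity
  rw [Finset.filter_insert]
  split_ifs with h
  · rw [Finset.card_insert_of_notMem (fun h' => hi (Finset.mem_filter.mp h').1), h]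
    simp only [Nat.odd_add_one, decide_not, Bool.bne_true]
  · simp only [h]
    simp

theorem sgn_xor (a b : Bool) : sgn (xor a b) = sgn a * sgn b := by
  cases a <;> cases b <;> simp [sgn]

theorem sgn_parity {α : Type} [DecidableEq α] (S : Finset α) (f : α → Bool) :
    sgn (parity S f) = ∏ i ∈ S, sgn (f i) := by
  induction S using Finset.induction_on with
  | empty => simp [parity_empty, sgn]
  | insert i S hi ih =>
    rw [parity_insert hi, sgn_xor, ih, Finset.prod_insert hi, mul_comm]

theorem sgn_injective : Function.Injective sgn := by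
  intro a b h
  cases a <;> cases b <;> simp [sgn] at h ⊢ <;> norm_num at h

theorem CanF.parity' {α : Type} [DecidableEq α] {w : Z → Bool} (hw : w ∈ L) (S : Finset α)
    (F : α → Z → Bool) (hF : ∀ i ∈ S, CanF L s (F i)) :
    CanF L (S.card * (s + 3) + 1) (fun z => parity S fun i => F i z) := by
  induction S using Finset.induction_on with
  | empty => exact ((CanF.false' hw).mono (by omega)).congr fun z => by rw [parity_empty]
  | insert i S hi ih =>
    have h1 := (ih fun j hj => hF j (by simp [hj])).xor' (hF i (by simp))
    rw [Finset.card_insert_of_notMem hi]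
    exact (h1.mono (le_of_eq (by ring))).congr fun z => by rw [parity_insert hi]

/-- all parities of some available functions -/
theorem CanF.allParities {h : ℕ} {w : Z → Bool} (hw : w ∈ L) (v : Fin h → Z → Bool)
    (hv : ∀ l, v l ∈ L)
    (hf : CanF (L ∪ {g | ∃ S : Finset (Fin h), g = fun z => parity S fun l => v l z}) s f) :
    CanF L (3 * 2 ^ h + s) f := by
  classical
  -- stages: parities of subsets of the first `j` functions
  have key : ∀ j : ℕ, j ≤ h → ∀ s f,
      CanF (L ∪ {g | ∃ S : Finset (Fin h), (∀ l ∈ S, l.1 < j) ∧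
        g = fun z => parity S fun l => v l z}) s f → CanF L (3 * (2 ^ j - 1) + 1 + s) f := by
    intro j
    induction j with
    | zero =>
      intro _ s f hf
      have h1 : CanF (insert (fun _ : Z => false) L) s f := by
        refine hf.mono_set ?_
        intro g hg
        rcases hg with hg | ⟨S, hS, rfl⟩
        · exact Set.mem_insert_of_mem _ hg
        · have : S = ∅ := by
            rw [Finset.eq_empty_iff_forall_notMem]
            intro l hl
            exact absurd (hS l hl) (Nat.not_lt_zero _)
          rw [this]
          left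
          funext z
          exact parity_empty _
      exact ((CanF.false' hw).comp h1).mono (by omega)
    | succ j ih =>
      intro hj s f hf
      have hjh : j < h := by omega
      obtain ⟨𝒮, h𝒮⟩ : ∃ 𝒮 : Finset (Finset (Fin h)), 𝒮 =
        (Finset.univ.filter fun l : Fin h => l.1 < j).powerset := ⟨_, rfl⟩
      have hcard : 𝒮.card = 2 ^ j := by
        rw [h𝒮, Finset.card_powerset]
        congr 1
        have : (Finset.univ.filter fun l : Fin h => l.1 < j) =
            (Finset.univ : Finset (Fin j)).image fun l => ⟨l.1, by omega⟩ := by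
          ext l
          simp only [Finset.mem_filter, Finset.mem_univ, true_and, Finset.mem_image]
          constructor
          · intro hl
            exact ⟨⟨l.1, hl⟩, rfl⟩
          · rintro ⟨l', rfl⟩
            exact l'.2
        rw [this, Finset.card_image_of_injective, Finset.card_univ, Fintype.card_fin]
        intro x y hxy
        simpa [Fin.ext_iff] using hxy
      have hmem𝒮 : ∀ S, S ∈ 𝒮 ↔ ∀ l ∈ S, l.1 < j := by
        intro S
        rw [h𝒮, Finset.mem_powerset]
        constructor
        · intro hS l hl
          exact (Finset.mem_filter.mp (hS hl)).2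
        · intro hS l hl
          exact Finset.mem_filter.mpr ⟨Finset.mem_univ _, hS l hl⟩
      have hstep := CanF.family (L := L ∪ {g | ∃ S : Finset (Fin h), (∀ l ∈ S, l.1 < j) ∧
          g = fun z => parity S fun l => v l z}) (s := 3) 𝒮
        (fun S z => parity (insert ⟨j, hjh⟩ S) fun l => v l z) (by
          intro S hS
          have hS' := (hmem𝒮 S).mp hS
          have hnot : (⟨j, hjh⟩ : Fin h) ∉ S := fun hmem => by
            have := hS' _ hmem
            simp at this
          have h1 : CanF (L ∪ {g | ∃ S : Finset (Fin h), (∀ l ∈ S, l.1 < j) ∧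
              g = fun z => parity S fun l => v l z}) (0 + 0 + 3)
              (fun z => xor (parity S fun l => v l z) (v ⟨j, hjh⟩ z)) :=
            CanF.xor' (CanF.avail (Or.inr ⟨S, hS', rfl⟩)) (CanF.avail (Or.inl (hv _)))
          exact h1.congr fun z => by rw [parity_insert hnot]) (hf.mono_set (by
          intro g hg
          rcases hg with hg | ⟨S, hS, rfl⟩
          · exact Or.inl (Or.inl hg)
          · by_cases hmem : (⟨j, hjh⟩ : Fin h) ∈ S
            · refine Or.inr ⟨S.erase ⟨j, hjh⟩, ?_, ?_⟩
              · rw [hmem𝒮]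
                intro l hl
                have h1 := hS l (Finset.mem_of_mem_erase hl)
                have h2 := Finset.ne_of_mem_erase hl
                have h3 : l.1 ≠ j := fun h4 => h2 (Fin.ext h4)
                omega
              · simp only [Finset.insert_erase hmem]
            · refine Or.inl (Or.inr ⟨S, ?_, rfl⟩)
              intro l hl
              have h1 := hS l hl
              have h3 : l.1 ≠ j := fun h4 => hmem (by
                have : l = ⟨j, hjh⟩ := Fin.ext h4
                rwa [← this])
              omega))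
      refine (ih (by omega) _ _ hstep).mono ?_
      rw [hcard]
      have : 1 ≤ 2 ^ j := Nat.one_le_two_pow
      rw [pow_succ]
      omega
  refine (key h le_rfl s f (hf.mono_set ?_)).mono ?_
  · intro g hg
    rcases hg with hg | ⟨S, rfl⟩
    · exact Or.inl hg
    · exact Or.inr ⟨S, fun l _ => l.2, rfl⟩
  · have : 1 ≤ 2 ^ h := Nat.one_le_two_pow
    omega

/-- selection by `t` address bits -/
theorem CanF.select : ∀ (t r : ℕ) (_ : r + 3 = 2 ^ t * (s + 3)) (w : Fin t → Z → Bool)
    (_ : ∀ l, w l ∈ L) (F : (Fin t → Bool) → Z → Bool) (_ : ∀ u, CanF L s (F u)),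
    CanF L r (fun z => F (fun l => w l z) z)
  | 0, r, hr, w, hw, F, hF => by
      refine ((hF fun l => l.elim0).mono (by omega)).congr fun z => ?_
      congr 1
      funext l
      exact l.elim0
  | t + 1, r, hr, w, hw, F, hF => by
      obtain ⟨r', hr'⟩ : ∃ r', r' + 3 = 2 ^ t * (s + 3) := by
        have : 0 < 2 ^ t := by positivity
        refine ⟨2 ^ t * (s + 3) - 3, Nat.sub_add_cancel ?_⟩
        nlinarith
      have h1 := CanF.select t r' hr' (fun l => w l.castSucc) (fun l => hw _)
        (fun u => F (Fin.snoc (α := fun _ => Bool) u true)) (fun u => hF _)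
      have h0 := CanF.select t r' hr' (fun l => w l.castSucc) (fun l => hw _)
        (fun u => F (Fin.snoc (α := fun _ => Bool) u false)) (fun u => hF _)
      refine ((CanF.mux (hw (Fin.last t)) h1 h0).mono ?_).congr fun z => ?_
      · rw [pow_succ, mul_right_comm] at hr
        omega
      · have h2 : (fun l => w l z) = Fin.snoc (α := fun _ => Bool)
            (fun l : Fin t => w l.castSucc z) (w (Fin.last t) z) := by
          funext l
          refine Fin.lastCases ?_ (fun l => ?_) l
          · simp
          · simp
        rw [h2]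
        cases h3 : w (Fin.last t) z <;> rfl

/-! ### Inner products -/

variable {β : Type} [Fintype β] [DecidableEq β]

/-- inner product modulo `2` -/
def ip (y a : β → Bool) : Bool := parity Finset.univ fun l => y l && a l

theorem ip_eq (y a : β → Bool) :
    ip y a = parity (Finset.univ.filter fun l => a l = true) y := by
  unfold ip parity
  congr 3
  ext l
  simp only [Finset.mem_filter, Finset.mem_univ, true_and, Bool.and_eq_true]
  exact and_comm

theorem ip_chunks {M h : ℕ} (y a : Fin M × Fin h → Bool) :
    ip y a = parity (Finset.univ : Finset (Fin M)) fun i =>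
      parity (Finset.univ.filter fun l => a (i, l) = true) fun l => y (i, l) := by
  apply sgn_injective
  rw [ip, sgn_parity, sgn_parity, Fintype.prod_prod_type]
  refine Finset.prod_congr rfl fun i _ => ?_
  rw [sgn_parity, Finset.prod_filter]
  refine Finset.prod_congr rfl fun l _ => ?_
  cases y (i, l) <;> cases a (i, l) <;> simp [sgn]

/-! ### Tables -/

variable {k a n : ℕ}

/-- the function of a table: the parity of the inner products of the selected entries with the
given vectors -/
def tabFn (pos : Fin k × (Fin a ⊕ β) → Fin n) (A : Fin k → (Fin a → Bool) → β → Bool)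
    (x : Fin n → Bool) : Bool :=
  parity (Finset.univ : Finset (Fin k)) fun i =>
    ip (fun l => x (pos (i, Sum.inr l))) (A i fun l => x (pos (i, Sum.inl l)))

theorem exists_tabFn_circuit {M h : ℕ} (w : Fin n) (hh : h ≤ a)
    (pos : Fin k × (Fin a ⊕ (Fin M × Fin h)) → Fin n)
    (A : Fin k → (Fin a → Bool) → Fin M × Fin h → Bool) :
    ∃ c : Circuit n, c.size ≤ k * (2 ^ a * (6 * M + 4)) + 1 ∧ ∀ x, c.eval x = tabFn pos A x := by
  -- the inputs
  let L : Set ((Fin n → Bool) → Bool) := {g | ∃ i : Fin n, g = fun x => x i}
  have hL : ∀ i : Fin n, (fun x : Fin n → Bool => x i) ∈ L := fun i => ⟨i, rfl⟩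
  -- one column
  have hcol : ∀ i : Fin k, CanF L (2 ^ a * (6 * M + 4) - 3) (fun x =>
      ip (fun l => x (pos (i, Sum.inr l))) (A i fun l => x (pos (i, Sum.inl l)))) := by
    intro i
    -- chunk parities, chunk by chunk
    have hchunks : ∀ j : ℕ, j ≤ M → ∀ s (f : (Fin n → Bool) → Bool),
        CanF (L ∪ {g | ∃ (m : Fin M) (S : Finset (Fin h)), m.1 < j ∧
          g = fun x => parity S fun l => x (pos (i, Sum.inr (m, l)))}) s f →
        CanF L (j * (3 * 2 ^ h) + s) f := by
      intro j
      induction j with
      | zero =>
        intro _ s f hf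
        refine (hf.mono_set ?_).mono (by omega)
        intro g hg
        rcases hg with hg | ⟨m, S, hm, -⟩
        · exact hg
        · exact absurd hm (Nat.not_lt_zero _)
      | succ j ih =>
        intro hj s f hf
        have h1 := CanF.allParities (L := L ∪ {g | ∃ (m : Fin M) (S : Finset (Fin h)),
            m.1 < j ∧ g = fun x => parity S fun l => x (pos (i, Sum.inr (m, l)))})
          (w := fun x => x w) (Or.inl (hL w))
          (fun l x => x (pos (i, Sum.inr (⟨j, by omega⟩, l)))) (fun l => Or.inl (hL _))
          (hf.mono_set (by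
            intro g hg
            rcases hg with hg | ⟨m, S, hm, rfl⟩
            · exact Or.inl (Or.inl hg)
            · by_cases hmj : m.1 = j
              · refine Or.inr ⟨S, ?_⟩
                have : m = ⟨j, by omega⟩ := Fin.ext hmj
                rw [this]
              · exact Or.inl (Or.inr ⟨m, S, by omega, rfl⟩)))
        exact (ih (by omega) _ _ h1).mono (le_of_eq (by ring))
    obtain ⟨L', hL'⟩ : ∃ L' : Set ((Fin n → Bool) → Bool), L' =
        L ∪ {g | ∃ (m : Fin M) (S : Finset (Fin h)), m.1 < M ∧
          g = fun x => parity S fun l => x (pos (i, Sum.inr (m, l)))} := ⟨_, rfl⟩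
    obtain ⟨r, hr⟩ : ∃ r, r + 3 = 2 ^ a * ((M * 3 + 1) + 3) := by
      have : 0 < 2 ^ a := by positivity
      refine ⟨2 ^ a * ((M * 3 + 1) + 3) - 3, Nat.sub_add_cancel ?_⟩
      nlinarith
    have hlin : ∀ u : Fin a → Bool, CanF L' (M * 3 + 1) (fun x =>
        ip (fun l => x (pos (i, Sum.inr l))) (A i u)) := by
      intro u
      have h1 := CanF.parity' (L := L') (s := 0) (w := fun x => x w)
        (by rw [hL']; exact Or.inl (hL w)) (Finset.univ : Finset (Fin M))
        (fun m x => parity (Finset.univ.filter fun l => A i u (m, l) = true)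
          fun l => x (pos (i, Sum.inr (m, l))))
        (fun m _ => CanF.avail (by rw [hL']; exact Or.inr ⟨m, _, m.2, rfl⟩))
      rw [Finset.card_univ, Fintype.card_fin] at h1
      exact h1.congr fun x => by rw [ip_chunks]
    have hsel := CanF.select a r hr (fun l (x : Fin n → Bool) => x (pos (i, Sum.inl l)))
      (fun l => by rw [hL']; exact Or.inl (hL _))
      (fun u x => ip (fun l => x (pos (i, Sum.inr l))) (A i u)) hlin
    rw [hL'] at hsel
    refine (hchunks M le_rfl _ _ hsel).mono ?_
    have h1 : 2 ^ h ≤ 2 ^ a := Nat.pow_le_pow_right (by norm_num) hh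
    have h2 : M * (3 * 2 ^ h) ≤ M * (3 * 2 ^ a) := by gcongr
    have h3 : 2 ^ a * (6 * M + 4) = M * (3 * 2 ^ a) + 2 ^ a * ((M * 3 + 1) + 3) := by ring
    omega
  have hall := CanF.parity' (L := L) (w := fun x => x w) (hL w) (Finset.univ : Finset (Fin k)) _
    (fun i _ => hcol i)
  rw [Finset.card_univ, Fintype.card_fin] at hall
  have h3 : 2 ^ a * (6 * M + 4) - 3 + 3 = 2 ^ a * (6 * M + 4) := by
    have : 0 < 2 ^ a := by positivity
    apply Nat.sub_add_cancel
    nlinarith
  rw [h3] at hall
  obtain ⟨c, h1, h2⟩ := hall n (fun i x => x i) (by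
    rintro g ⟨i, rfl⟩
    exact ⟨i, rfl⟩)
  exact ⟨c, h1, h2⟩

/-- the input with the given address and vector in each column -/
noncomputable def point (pos : Fin k × (Fin a ⊕ β) → Fin n) (u : Fin k → Fin a → Bool)
    (y : Fin k → β → Bool) : Fin n → Bool := by
  classical
  exact fun q => if h : ∃ p, pos p = q then
    match h.choose with
    | (i, Sum.inl l) => u i l
    | (i, Sum.inr l) => y i l
  else false

theorem point_inl {pos : Fin k × (Fin a ⊕ β) → Fin n} (hpos : Function.Injective pos)
    (u : Fin k → Fin a → Bool) (y : Fin k → β → Bool) (i : Fin k) (l : Fin a) :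
    point pos u y (pos (i, Sum.inl l)) = u i l := by
  have h : ∃ p, pos p = pos (i, Sum.inl l) := ⟨_, rfl⟩
  have h1 : h.choose = (i, Sum.inl l) := hpos h.choose_spec
  unfold point
  simp only [dif_pos h]
  rw [h1]

theorem point_inr {pos : Fin k × (Fin a ⊕ β) → Fin n} (hpos : Function.Injective pos)
    (u : Fin k → Fin a → Bool) (y : Fin k → β → Bool) (i : Fin k) (l : β) :
    point pos u y (pos (i, Sum.inr l)) = y i l := by
  have h : ∃ p, pos p = pos (i, Sum.inr l) := ⟨_, rfl⟩
  have h1 : h.choose = (i, Sum.inr l) := hpos h.choose_spec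
  unfold point
  simp only [dif_pos h]
  rw [h1]

theorem point_out {pos : Fin k × (Fin a ⊕ β) → Fin n} (u : Fin k → Fin a → Bool)
    (y : Fin k → β → Bool) {q : Fin n} (hq : ¬ ∃ p, pos p = q) : point pos u y q = false := by
  unfold point
  rw [dif_neg hq]

theorem tabFn_point {pos : Fin k × (Fin a ⊕ β) → Fin n} (hpos : Function.Injective pos)
    (A : Fin k → (Fin a → Bool) → β → Bool) (u : Fin k → Fin a → Bool)
    (y : Fin k → β → Bool) :
    tabFn pos A (point pos u y) = parity Finset.univ fun i => ip (y i) (A i (u i)) := by
  unfold tabFn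
  simp only [point_inl hpos, point_inr hpos]

/-! ### The gadget -/

theorem sum_bool_orth (a a' : Bool) :
    ∑ t : Bool, sgn (t && a) * sgn (t && a') = if a = a' then 2 else 0 := by
  cases a <;> cases a' <;> norm_num [sgn]

theorem orth_ip : Orth (ip (β := β)) := by
  intro a a'
  have h1 : ∀ y : β → Bool, sgn (ip y a) * sgn (ip y a') =
      ∏ l, sgn (y l && a l) * sgn (y l && a' l) := by
    intro y
    rw [ip, ip, sgn_parity, sgn_parity, Finset.prod_mul_distrib]
  simp only [h1]
  have h2 := Finset.prod_univ_sum (fun _ : β => (Finset.univ : Finset Bool))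
    (fun l t => sgn (t && a l) * sgn (t && a' l))
  rw [Fintype.piFinset_univ] at h2
  rw [← h2]
  simp only [sum_bool_orth]
  by_cases h : a = a'
  · rw [if_pos h, h]
    simp
  · rw [if_neg h]
    obtain ⟨l, hl⟩ := Function.ne_iff.mp h
    exact Finset.prod_eq_zero (Finset.mem_univ l) (if_neg hl)

theorem ip_comm (y a : β → Bool) : ip y a = ip a y := by
  unfold ip
  congr 1
  funext l
  exact Bool.and_comm _ _

theorem sum_ip_zero {y : β → Bool} (hy : y ≠ fun _ => false) :
    ∑ a, sgn (ip y a) = 0 := by
  have h := orth_ip y (fun _ => false)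
  rw [if_neg hy] at h
  rw [← h]
  refine Finset.sum_congr rfl fun a _ => ?_
  rw [ip_comm y a]
  have : ip a (fun _ => false) = false := by
    unfold ip parity
    simp
  rw [this]
  simp [sgn]

end Pool.Agent.H7LP
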