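import Pool.Agent.H7LP.Leaf

/-!
# Random constraints have large boundaries
-/

set_option linter.unusedSectionVars false
set_option linter.unusedDecidableInType false

namespace Pool.Agent.H7LP

open Finset
open scoped symmDiff

variable {X : Type} [Fintype X] [DecidableEq X] {m : ℕ}

/-- the values that are taken an odd number of times -/
def odds (f : X → Fin m) (Y : Finset X) : Finset (Fin m) :=
  Finset.univ.filter fun j => Odd (Y.filter fun x => f x = j).card

theorem odds_card_le (f : X → Fin m) (Y : Finset X) : (odds f Y).card ≤ Y.card := by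
  have h1 : odds f Y ⊆ Y.image f := by
    intro j hj
    rw [odds, Finset.mem_filter] at hj
    obtain ⟨x, hx⟩ := Finset.card_pos.mp hj.2.pos
    rw [Finset.mem_filter] at hx
    rw [Finset.mem_image]
    exact ⟨x, hx.1, hx.2⟩
  exact (Finset.card_le_card h1).trans Finset.card_image_le

theorem odds_insert (f : X → Fin m) (Y : Finset X) {x : X} (hx : x ∉ Y) (j : Fin m) :
    odds (Function.update f x j) (insert x Y) = odds f Y ∆ {j} := by
  ext i
  simp only [odds, Finset.mem_filter, Finset.mem_univ, true_and, Finset.mem_symmDiff,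
    Finset.mem_singleton]
  have h1 : (Y.filter fun x' => Function.update f x j x' = i) = Y.filter fun x' => f x' = i := by
    refine Finset.filter_congr fun x' hx' => ?_
    rw [Function.update_of_ne]
    rintro rfl
    exact hx hx'
  rw [Finset.filter_insert, Function.update_self]
  by_cases h : j = i
  · rw [if_pos h, Finset.card_insert_of_notMem, h1]
    · simp only [Nat.odd_add_one, h, not_true_eq_false, and_false, false_or, true_and]
    · intro h2
      exact hx (Finset.mem_filter.mp h2).1
  · rw [if_neg h, h1]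
    simp only [show ¬ i = j from fun h' => h h'.symm, not_false_eq_true, and_true, false_and,
      or_false]

theorem sum_pow_symmDiff {τ : ℝ} (hτ0 : 0 < τ) {o : Finset (Fin m)}
    (ho : (o.card : ℝ) ≤ τ ^ 2 * m) :
    ∑ j : Fin m, τ ^ (o ∆ {j}).card ≤ τ ^ o.card * (2 * τ * m) := by
  have h1 : ∀ j : Fin m, τ ^ (o ∆ {j}).card ≤
      τ ^ o.card * ((if j ∈ o then 1 / τ else 0) + τ) := by
    intro j
    by_cases hj : j ∈ o
    · have h2 : o ∆ {j} = o.erase j := by
        ext i
        simp only [Finset.mem_symmDiff, Finset.mem_singleton, Finset.mem_erase]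
        constructor
        · rintro (⟨h, h'⟩ | ⟨h, h'⟩)
          · exact ⟨h', h⟩
          · exact absurd (h ▸ hj) h'
        · rintro ⟨h, h'⟩
          exact Or.inl ⟨h', h⟩
      rw [h2, Finset.card_erase_of_mem hj, if_pos hj]
      have h3 : 1 ≤ o.card := Finset.card_pos.mpr ⟨j, hj⟩
      have h4 : τ ^ o.card = τ ^ (o.card - 1) * τ := by
        rw [← pow_succ]; congr 1; omega
      have h5 : τ ^ (o.card - 1) = τ ^ o.card * (1 / τ) := by
        rw [h4]; field_simp
      rw [h5]
      refine mul_le_mul_of_nonneg_left ?_ (by positivity)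
      linarith
    · have h2 : o ∆ {j} = insert j o := by
        ext i
        simp only [Finset.mem_symmDiff, Finset.mem_singleton, Finset.mem_insert]
        constructor
        · rintro (⟨h, h'⟩ | ⟨h, h'⟩)
          · exact Or.inr h
          · exact Or.inl h
        · rintro (h | h)
          · exact Or.inr ⟨h, h ▸ hj⟩
          · exact Or.inl ⟨h, fun h' => hj (h' ▸ h)⟩
      rw [h2, Finset.card_insert_of_notMem hj, if_neg hj, zero_add, pow_succ]
  refine (Finset.sum_le_sum fun j _ => h1 j).trans ?_
  rw [← Finset.mul_sum]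
  refine mul_le_mul_of_nonneg_left ?_ (by positivity)
  rw [Finset.sum_add_distrib, Finset.sum_ite_mem, Finset.univ_inter, Finset.sum_const,
    Finset.sum_const, nsmul_eq_mul, nsmul_eq_mul, Finset.card_univ, Fintype.card_fin]
  have h2 : (o.card : ℝ) * (1 / τ) ≤ τ ^ 2 * m * (1 / τ) :=
    mul_le_mul_of_nonneg_right ho (by positivity)
  have h3 : τ ^ 2 * m * (1 / τ) = τ * m := by field_simp
  linarith

theorem sum_resample (x : X) (F : (X → Fin m) → Fin m → ℝ)
    (hF : ∀ f j j', F (Function.update f x j') j = F f j) :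
    ∑ f : X → Fin m, ∑ j, F f j = m * ∑ f : X → Fin m, F f (f x) := by
  have h1 : ∑ p : (X → Fin m) × Fin m, F p.1 p.2 =
      ∑ p : (X → Fin m) × Fin m, F p.1 (p.1 x) := by
    let φ : (X → Fin m) × Fin m → (X → Fin m) × Fin m :=
      fun p => (Function.update p.1 x p.2, p.1 x)
    have hφ : ∀ p, φ (φ p) = p := by
      rintro ⟨f, j⟩
      simp [φ]
    refine Finset.sum_nbij' φ φ (fun _ _ => Finset.mem_univ _) (fun _ _ => Finset.mem_univ _)
      (fun p _ => hφ p) (fun p _ => hφ p) ?_
    rintro ⟨f, j⟩ _
    simp only [φ, Function.update_self]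
    rw [hF]
  rw [Fintype.sum_prod_type, Fintype.sum_prod_type] at h1
  rw [h1]
  simp only [Finset.sum_const, Finset.card_univ, Fintype.card_fin, nsmul_eq_mul]
  rw [← Finset.mul_sum]

theorem sum_pow_odds {τ : ℝ} (hτ0 : 0 < τ) (hm : 0 < m) (Y : Finset X)
    (hY : (Y.card : ℝ) ≤ τ ^ 2 * m) :
    ∑ f : X → Fin m, τ ^ (odds f Y).card ≤ (2 * τ) ^ Y.card * (m : ℝ) ^ Fintype.card X := by
  induction Y using Finset.induction_on with
  | empty =>
    simp [odds]
  | insert x Y hx ih =>
    rw [Finset.card_insert_of_notMem hx] at hY ⊢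
    push_cast at hY
    have ih' := ih (by linarith)
    have hloc : ∀ (f : X → Fin m) (j : Fin m), odds (Function.update f x j) Y = odds f Y := by
      intro f j
      ext i
      simp only [odds, Finset.mem_filter, Finset.mem_univ, true_and]
      have : (Y.filter fun x' => Function.update f x j x' = i) = Y.filter fun x' => f x' = i := by
        refine Finset.filter_congr fun x' hx' => ?_
        rw [Function.update_of_ne]
        rintro rfl
        exact hx hx'
      rw [this]
    have h1 := sum_resample x (fun f j => τ ^ (odds f Y ∆ {j}).card) (by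
      intro f j j'
      rw [hloc])
    have h2 : ∀ f : X → Fin m, odds f (insert x Y) = odds f Y ∆ {f x} := by
      intro f
      have := odds_insert f Y hx (f x)
      rwa [Function.update_eq_self] at this
    have hm' : (0 : ℝ) < m := by exact_mod_cast hm
    have h3 : ∑ f : X → Fin m, ∑ j, τ ^ (odds f Y ∆ {j}).card ≤
        (∑ f : X → Fin m, τ ^ (odds f Y).card) * (2 * τ * m) := by
      rw [Finset.sum_mul]
      refine Finset.sum_le_sum fun f _ => sum_pow_symmDiff hτ0 ?_
      have := odds_card_le f Y
      have : ((odds f Y).card : ℝ) ≤ Y.card := by exact_mod_cast this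
      linarith
    rw [h1] at h3
    simp only [h2]
    have h4 : (m : ℝ) * ∑ f : X → Fin m, τ ^ (odds f Y ∆ {f x}).card ≤
        m * ((2 * τ) * ∑ f : X → Fin m, τ ^ (odds f Y).card) := by
      refine h3.trans (le_of_eq ?_)
      ring
    have h5 := le_of_mul_le_mul_left h4 hm'
    refine h5.trans ?_
    calc (2 * τ) * ∑ f : X → Fin m, τ ^ (odds f Y).card
        ≤ (2 * τ) * ((2 * τ) ^ Y.card * (m : ℝ) ^ Fintype.card X) :=
          mul_le_mul_of_nonneg_left ih' (by positivity)
      _ = _ := by rw [pow_succ]; ring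

/-- the constraints given by `k` functions -/
def cons {k : ℕ} (G : Fin k → X → Fin m) (x : X) : Finset (Fin k × Fin m) :=
  Finset.univ.filter fun p => G p.1 x = p.2

theorem card_bd_cons {k : ℕ} (G : Fin k → X → Fin m) (Y : Finset X) :
    (bd (cons G) Y).card = ∑ i, (odds (G i) Y).card := by
  have h : bd (cons G) Y = (Finset.univ : Finset (Fin k)).biUnion
      fun i => (odds (G i) Y).image fun j => (i, j) := by
    ext ⟨i, j⟩
    simp only [bd, cons, odds, Finset.mem_filter, Finset.mem_univ, true_and,
      Finset.mem_biUnion, Finset.mem_image, Prod.mk.injEq]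
    constructor
    · intro h
      exact ⟨i, j, h, rfl, rfl⟩
    · rintro ⟨i', j', h, rfl, rfl⟩
      exact h
  rw [h, Finset.card_biUnion]
  · refine Finset.sum_congr rfl fun i _ => ?_
    rw [Finset.card_image_of_injective]
    intro j j' hj
    simpa using hj
  · intro i _ i' _ hne
    simp only [Function.onFun]
    rw [Finset.disjoint_left]
    rintro ⟨a, b⟩ h1 h2
    rw [Finset.mem_image] at h1 h2
    obtain ⟨_, _, h1⟩ := h1
    obtain ⟨_, _, h2⟩ := h2
    simp only [Prod.mk.injEq] at h1 h2
    exact hne (h1.1.trans h2.1.symm)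

/-- **Existence of constraints with large boundaries.** -/
theorem exists_expander {k e M : ℕ} (hm : 0 < m) {τ : ℝ} (hτ0 : 0 < τ) (hτ1 : τ ≤ 1)
    (hM : (M : ℝ) ≤ τ ^ 2 * m)
    (hz : (Fintype.card X : ℝ) * ((2 * τ) ^ k / τ ^ e) ≤ 1 / 2) :
    ∃ G : Fin k → X → Fin m, ∀ Y : Finset X, Y.card ≤ M →
      e * Y.card ≤ (bd (cons G) Y).card := by
  classical
  by_contra hcon
  push Not at hcon
  obtain ⟨ρ, hρ⟩ : ∃ ρ, ρ = (2 * τ) ^ k / τ ^ e := ⟨_, rfl⟩
  have hρ0 : 0 < ρ := by rw [hρ]; positivity
  rw [← hρ] at hz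
  obtain ⟨N, hN⟩ : ∃ N : ℝ, N = ((m : ℝ) ^ Fintype.card X) ^ k := ⟨_, rfl⟩
  have hm' : (0 : ℝ) < m := by exact_mod_cast hm
  have hN0 : 0 < N := by rw [hN]; positivity
  -- bad functions for `Y`
  have hbad : ∀ Y : Finset X, Y.card ≤ M →
      ((Finset.univ.filter fun G : Fin k → X → Fin m =>
        (bd (cons G) Y).card < e * Y.card).card : ℝ) ≤ ρ ^ Y.card * N := by
    intro Y hY
    have h1 : ∑ G : Fin k → X → Fin m, τ ^ (bd (cons G) Y).card ≤
        ((2 * τ) ^ Y.card * (m : ℝ) ^ Fintype.card X) ^ k := by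
      have h2 : ∀ G : Fin k → X → Fin m, τ ^ (bd (cons G) Y).card =
          ∏ i, τ ^ (odds (G i) Y).card := by
        intro G
        rw [card_bd_cons, Finset.prod_pow_eq_pow_sum]
      simp only [h2]
      have h3 := Finset.prod_univ_sum (fun _ : Fin k => (Finset.univ : Finset (X → Fin m)))
        (fun _ f => τ ^ (odds f Y).card)
      rw [Fintype.piFinset_univ] at h3
      rw [← h3, Finset.prod_const, Finset.card_univ, Fintype.card_fin]
      refine pow_le_pow_left₀ (Finset.sum_nonneg fun f _ => by positivity) ?_ k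
      refine sum_pow_odds hτ0 hm Y ?_
      have : (Y.card : ℝ) ≤ M := by exact_mod_cast hY
      linarith
    have h2 : ((Finset.univ.filter fun G : Fin k → X → Fin m =>
        (bd (cons G) Y).card < e * Y.card).card : ℝ) * τ ^ (e * Y.card) ≤
        ∑ G : Fin k → X → Fin m, τ ^ (bd (cons G) Y).card := by
      rw [← nsmul_eq_mul, ← Finset.sum_const]
      refine le_trans (Finset.sum_le_sum (g := fun G => τ ^ (bd (cons G) Y).card)
        fun G hG => ?_) (Finset.sum_le_sum_of_subset_of_nonneg (Finset.filter_subset _ _)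
          fun G _ _ => by positivity)
      have h3 := (Finset.mem_filter.mp hG).2
      exact pow_le_pow_of_le_one hτ0.le hτ1 h3.le
    have h3 := h2.trans h1
    rw [← le_div_iff₀ (by positivity)] at h3
    refine h3.trans (le_of_eq ?_)
    rw [hρ, hN, div_pow, mul_pow, ← pow_mul, ← pow_mul, ← pow_mul, ← pow_mul,
      mul_comm Y.card k]
    ring
  -- union bound
  have hcover : (Finset.univ : Finset (Fin k → X → Fin m)) ⊆
      ((Finset.univ : Finset (Finset X)).filter fun Y => Y ≠ ∅ ∧ Y.card ≤ M).biUnion
        fun Y => Finset.univ.filter fun G => (bd (cons G) Y).card < e * Y.card := by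
    intro G _
    obtain ⟨Y, hY, hlt⟩ := hcon G
    rw [Finset.mem_biUnion]
    refine ⟨Y, ?_, ?_⟩
    · rw [Finset.mem_filter]
      refine ⟨Finset.mem_univ _, ?_, hY⟩
      rintro rfl
      simp at hlt
    · rw [Finset.mem_filter]
      exact ⟨Finset.mem_univ _, hlt⟩
  have h1 := (Finset.card_le_card hcover).trans Finset.card_biUnion_le
  have h2 : N ≤ ∑ Y ∈ (Finset.univ : Finset (Finset X)).filter
      (fun Y => Y ≠ ∅ ∧ Y.card ≤ M), ρ ^ Y.card * N := by
    have h3 : (((Finset.univ : Finset (Fin k → X → Fin m)).card : ℕ) : ℝ) = N := by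
      rw [Finset.card_univ, hN]
      simp
    have h1' : (((Finset.univ : Finset (Fin k → X → Fin m)).card : ℕ) : ℝ) ≤
        ∑ Y ∈ (Finset.univ : Finset (Finset X)).filter (fun Y => Y ≠ ∅ ∧ Y.card ≤ M),
          ((Finset.univ.filter fun G : Fin k → X → Fin m =>
            (bd (cons G) Y).card < e * Y.card).card : ℝ) := by
      exact_mod_cast h1
    rw [h3] at h1'
    refine h1'.trans (Finset.sum_le_sum fun Y hY => ?_)
    exact hbad Y (Finset.mem_filter.mp hY).2.2
  rw [← Finset.sum_mul] at h2
  have h3 : ∑ Y ∈ (Finset.univ : Finset (Finset X)).filter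
      (fun Y => Y ≠ ∅ ∧ Y.card ≤ M), ρ ^ Y.card < 1 := by
    have h4 : ∑ Y ∈ (Finset.univ : Finset (Finset X)).filter
        (fun Y => Y ≠ ∅ ∧ Y.card ≤ M), ρ ^ Y.card ≤
        ∑ Y ∈ (Finset.univ : Finset X).powerset.erase ∅, ρ ^ Y.card := by
      refine Finset.sum_le_sum_of_subset_of_nonneg ?_ fun Y _ _ => by positivity
      intro Y hY
      rw [Finset.mem_filter] at hY
      rw [Finset.mem_erase]
      exact ⟨hY.2.1, by simp⟩
    have h5 := Finset.sum_pow_mul_eq_add_pow ρ 1 (Finset.univ : Finset X)
    simp only [one_pow, mul_one] at h5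
    have h6 := Finset.add_sum_erase (Finset.univ : Finset X).powerset (fun J => ρ ^ J.card)
      (Finset.empty_mem_powerset _)
    simp only [Finset.card_empty, pow_zero] at h6
    have h7 : (ρ + 1) ^ (Finset.univ : Finset X).card < 2 := by
      rw [Finset.card_univ]
      calc (ρ + 1) ^ Fintype.card X ≤ (Real.exp ρ) ^ Fintype.card X :=
            pow_le_pow_left₀ (by positivity) (Real.add_one_le_exp ρ) _
        _ = Real.exp (Fintype.card X * ρ) := by rw [← Real.exp_nat_mul]
        _ ≤ Real.exp (1 / 2) := Real.exp_le_exp.mpr hz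
        _ < 2 := by
            have h8 : Real.exp (1 / 2) * Real.exp (1 / 2) < 2 * 2 := by
              rw [← Real.exp_add]
              norm_num
              linarith [Real.exp_one_lt_d9]
            by_contra hge
            push Not at hge
            have := mul_le_mul hge hge (by norm_num) (by positivity)
            linarith
    linarith
  have h4 : (∑ Y ∈ (Finset.univ : Finset (Finset X)).filter
      (fun Y => Y ≠ ∅ ∧ Y.card ≤ M), ρ ^ Y.card) * N < 1 * N :=
    mul_lt_mul_of_pos_right h3 hN0
  linarith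

end Pool.Agent.H7LP
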