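import Pool.Agent.H7LP.Circ

/-!
# Random tables are hard
-/

namespace Pool.Agent.H7LP

open Finset
open Pool.Agent.H87.PMCSP (Circuit gop)

/-- the functions of the circuits with at most `s` gates -/
def fset : (s n : ℕ) → Finset ((Fin n → Bool) → Bool)
  | 0, n => (Finset.univ : Finset (Fin n × Bool)).image fun p x => xor (x p.1) p.2
  | s + 1, n => ((Finset.univ : Finset (Fin n × Bool)).image fun p x => xor (x p.1) p.2) ∪
      ((Finset.univ : Finset (Bool × (Fin n × Bool) × (Fin n × Bool))) ×ˢ fset s (n + 1)).image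
        fun q x => q.2 (Fin.snoc (α := fun _ => Bool) x
          (gop q.1.1 (xor (x q.1.2.1.1) q.1.2.1.2) (xor (x q.1.2.2.1) q.1.2.2.2)))

theorem mem_fset : ∀ {n : ℕ} (s : ℕ) (c : Circuit n), c.size ≤ s → c.eval ∈ fset s n
  | n, 0, .out w neg, _ => by
      simp only [fset, Finset.mem_image, Finset.mem_univ, true_and]
      exact ⟨(w, neg), rfl⟩
  | n, s + 1, .out w neg, _ => by
      simp only [fset, Finset.mem_union, Finset.mem_image, Finset.mem_univ, true_and]
      exact Or.inl ⟨(w, neg), rfl⟩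
  | n, 0, .gate conj a na b nb rest, h => by
      simp [Circuit.size] at h
  | n, s + 1, .gate conj a na b nb rest, h => by
      simp only [Circuit.size, Nat.add_le_add_iff_right] at h
      have ih := mem_fset s rest h
      simp only [fset, Finset.mem_union, Finset.mem_image, Finset.mem_univ, true_and,
        Finset.mem_product]
      exact Or.inr ⟨((conj, (a, na), (b, nb)), rest.eval), ih, rfl⟩

theorem card_fset_le : ∀ (s n : ℕ), (fset s n).card ≤ (4 * (n + s)) ^ (2 * (s + 1))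
  | 0, n => by
      have h1 : (fset 0 n).card ≤ n * 2 := by
        unfold fset
        refine Finset.card_image_le.trans ?_
        simp
      refine h1.trans ?_
      simp only [add_zero, zero_add, mul_one]
      rcases Nat.eq_zero_or_pos n with rfl | h
      · simp
      · nlinarith
  | s + 1, n => by
      have ih := card_fset_le s (n + 1)
      have h1 : (fset (s + 1) n).card ≤ n * 2 + 2 * ((n * 2) * (n * 2)) * (fset s (n + 1)).card := by
        rw [fset]
        refine (Finset.card_union_le _ _).trans (add_le_add ?_ ?_)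
        · refine Finset.card_image_le.trans ?_
          simp
        · refine Finset.card_image_le.trans ?_
          rw [Finset.card_product]
          simp
      obtain ⟨Q, hQ⟩ : ∃ Q, Q = 4 * (n + (s + 1)) := ⟨_, rfl⟩
      have h2 : 4 * (n + 1 + s) = Q := by omega
      rw [h2] at ih
      rw [← hQ]
      have h3 : 1 ≤ Q ^ (2 * (s + 1)) := Nat.one_le_pow _ _ (by omega)
      have h4 : n * 2 + 2 * ((n * 2) * (n * 2)) ≤ Q ^ 2 := by
        rw [hQ]
        nlinarith
      calc (fset (s + 1) n).card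
          ≤ n * 2 + 2 * ((n * 2) * (n * 2)) * (fset s (n + 1)).card := h1
        _ ≤ n * 2 * Q ^ (2 * (s + 1)) + 2 * ((n * 2) * (n * 2)) * Q ^ (2 * (s + 1)) := by
            exact Nat.add_le_add (Nat.le_mul_of_pos_right _ h3) (Nat.mul_le_mul_left _ ih)
        _ = (n * 2 + 2 * ((n * 2) * (n * 2))) * Q ^ (2 * (s + 1)) := by ring
        _ ≤ Q ^ 2 * Q ^ (2 * (s + 1)) := by gcongr
        _ = Q ^ (2 * (s + 1 + 1)) := by rw [← pow_add]; congr 1; ring

theorem sum_exp_agree {z : ℕ} (f : Fin z → Bool) (lam : ℝ) :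
    ∑ T : Fin z → Bool, Real.exp (lam * ∑ x, sgn (xor (f x) (T x))) =
      (2 * Real.cosh lam) ^ z := by
  have h1 : ∀ T : Fin z → Bool, Real.exp (lam * ∑ x, sgn (xor (f x) (T x))) =
      ∏ x, Real.exp (lam * sgn (xor (f x) (T x))) := by
    intro T
    rw [Finset.mul_sum, Real.exp_sum]
  simp only [h1]
  have h2 := Finset.prod_univ_sum (fun _ : Fin z => (Finset.univ : Finset Bool))
    (fun x t => Real.exp (lam * sgn (xor (f x) t)))
  rw [Fintype.piFinset_univ] at h2
  rw [← h2]
  have h3 : ∀ x, ∑ t : Bool, Real.exp (lam * sgn (xor (f x) t)) = 2 * Real.cosh lam := by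
    intro x
    rw [Real.cosh_eq, Fintype.sum_bool]
    cases f x <;> simp [sgn] <;> ring
  simp only [h3]
  simp

/-- the number of places where two functions agree -/
def agr {z : ℕ} (f T : Fin z → Bool) : ℕ := (Finset.univ.filter fun x => f x = T x).card

theorem sum_sgn_agree {z : ℕ} (f T : Fin z → Bool) :
    ∑ x, sgn (xor (f x) (T x)) = 2 * (agr f T : ℝ) - z := by
  have h1 : ∀ x, sgn (xor (f x) (T x)) = 2 * (if f x = T x then 1 else 0) - 1 := by
    intro x
    cases f x <;> cases T x <;> norm_num [sgn]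
  simp only [h1, Finset.sum_sub_distrib, ← Finset.mul_sum, Finset.sum_boole]
  simp [agr]

theorem card_agree_le {z : ℕ} (f : Fin z → Bool) {δ : ℝ} (hδ : 0 < δ) :
    ((Finset.univ.filter fun T : Fin z → Bool => (1 / 2 + δ) * z < agr f T).card : ℝ) ≤
      2 ^ z * Real.exp (-(2 * δ ^ 2 * z)) := by
  have h1 : ((Finset.univ.filter fun T : Fin z → Bool => (1 / 2 + δ) * z < agr f T).card : ℝ) *
      Real.exp (4 * δ ^ 2 * z) ≤
      ∑ T : Fin z → Bool, Real.exp (2 * δ * ∑ x, sgn (xor (f x) (T x))) := by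
    rw [← nsmul_eq_mul, ← Finset.sum_const]
    refine le_trans (Finset.sum_le_sum
      (g := fun T : Fin z → Bool => Real.exp (2 * δ * ∑ x, sgn (xor (f x) (T x))))
      fun T hT => ?_) (Finset.sum_le_sum_of_subset_of_nonneg (Finset.filter_subset _ _)
        fun T _ _ => (Real.exp_pos _).le)
    have h2 := (Finset.mem_filter.mp hT).2
    rw [Real.exp_le_exp, sum_sgn_agree]
    nlinarith
  rw [sum_exp_agree] at h1
  have h2 : (2 * Real.cosh (2 * δ)) ^ z ≤ 2 ^ z * Real.exp (2 * δ ^ 2 * z) := by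
    rw [mul_pow]
    refine mul_le_mul_of_nonneg_left ?_ (by positivity)
    calc Real.cosh (2 * δ) ^ z ≤ (Real.exp ((2 * δ) ^ 2 / 2)) ^ z :=
          pow_le_pow_left₀ (Real.cosh_pos _).le (Real.cosh_le_exp_half_sq _) _
      _ = Real.exp (2 * δ ^ 2 * z) := by
          rw [← Real.exp_nat_mul]; congr 1; ring
  have h3 := h1.trans h2
  rw [← le_div_iff₀ (Real.exp_pos _)] at h3
  refine h3.trans (le_of_eq ?_)
  rw [mul_div_assoc, ← Real.exp_sub]
  congr 2
  ring

theorem exists_hard {n S z : ℕ} (p : Fin z → Fin n → Bool) {δ : ℝ} (hδ : 0 < δ)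
    (h : ((4 * (n + S) : ℕ) : ℝ) ^ (2 * (S + 1)) * Real.exp (-(2 * δ ^ 2 * z)) < 1) :
    ∃ T : Fin z → Bool, ∀ c : Circuit n, c.size ≤ S →
      (agr (fun x => c.eval (p x)) T : ℝ) ≤ (1 / 2 + δ) * z := by
  classical
  by_contra hcon
  push Not at hcon
  have hcover : (Finset.univ : Finset (Fin z → Bool)) ⊆ (fset S n).biUnion fun f =>
      Finset.univ.filter fun T : Fin z → Bool => (1 / 2 + δ) * z < agr (fun x => f (p x)) T := by
    intro T _
    obtain ⟨c, hc, hlt⟩ := hcon T
    rw [Finset.mem_biUnion]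
    refine ⟨c.eval, mem_fset S c hc, ?_⟩
    rw [Finset.mem_filter]
    exact ⟨Finset.mem_univ _, hlt⟩
  have h1 := (Finset.card_le_card hcover).trans Finset.card_biUnion_le
  have h1' : (((Finset.univ : Finset (Fin z → Bool)).card : ℕ) : ℝ) ≤
      ∑ f ∈ fset S n, ((Finset.univ.filter fun T : Fin z → Bool =>
        (1 / 2 + δ) * z < agr (fun x => f (p x)) T).card : ℝ) := by
    exact_mod_cast h1
  have h2 := h1'.trans (Finset.sum_le_sum fun f _ => card_agree_le (fun x => f (p x)) hδ)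
  rw [Finset.sum_const, nsmul_eq_mul] at h2
  have h3 : (((Finset.univ : Finset (Fin z → Bool)).card : ℕ) : ℝ) = 2 ^ z := by
    simp
  rw [h3] at h2
  have h4 : ((fset S n).card : ℝ) ≤ ((4 * (n + S) : ℕ) : ℝ) ^ (2 * (S + 1)) := by
    exact_mod_cast card_fset_le S n
  have h5 : ((fset S n).card : ℝ) * (2 ^ z * Real.exp (-(2 * δ ^ 2 * z))) ≤
      2 ^ z * (((4 * (n + S) : ℕ) : ℝ) ^ (2 * (S + 1)) * Real.exp (-(2 * δ ^ 2 * z))) := by
    calc _ = ((fset S n).card : ℝ) * (2 ^ z * Real.exp (-(2 * δ ^ 2 * z))) := rfl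
      _ ≤ ((4 * (n + S) : ℕ) : ℝ) ^ (2 * (S + 1)) * (2 ^ z * Real.exp (-(2 * δ ^ 2 * z))) :=
        mul_le_mul_of_nonneg_right h4 (by positivity)
      _ = _ := by ring
  have h6 : (2 : ℝ) ^ z * (((4 * (n + S) : ℕ) : ℝ) ^ (2 * (S + 1)) *
      Real.exp (-(2 * δ ^ 2 * z))) < 2 ^ z * 1 :=
    mul_lt_mul_of_pos_left h (by positivity)
  linarith

/-- the same for points with small support -/
theorem exists_hard_supp {n S z m : ℕ} (p : Fin z → Fin n → Bool) (Q : Finset (Fin n))
    (hQ : Q.card ≤ m) (hp : ∀ x, ∀ q ∉ Q, p x q = false) {δ : ℝ} (hδ : 0 < δ)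
    (h : ((4 * ((m + 1) + S) : ℕ) : ℝ) ^ (2 * (S + 1)) * Real.exp (-(2 * δ ^ 2 * z)) < 1) :
    ∃ T : Fin z → Bool, ∀ c : Circuit n, c.size ≤ S →
      (agr (fun x => c.eval (p x)) T : ℝ) ≤ (1 / 2 + δ) * z := by
  classical
  obtain ⟨e⟩ : Nonempty (Q ↪ Fin m) := by
    rw [Function.Embedding.nonempty_iff_card_le]
    simpa using hQ
  let ρ : Fin n → Fin (m + 1) × Bool := fun q =>
    if hq : q ∈ Q then ((e ⟨q, hq⟩).castSucc, false) else (Fin.last m, false)
  let p' : Fin z → Fin (m + 1) → Bool := fun x =>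
    Fin.snoc (α := fun _ => Bool) (fun i => if h : ∃ q, e q = i then p x h.choose.1 else false)
      false
  have hev : ∀ (c : Circuit n) (x : Fin z), (subst c ρ).eval (p' x) = c.eval (p x) := by
    intro c x
    rw [subst_eval]
    congr 1
    funext q
    by_cases hq : q ∈ Q
    · have h1 : ∃ q', e q' = e ⟨q, hq⟩ := ⟨_, rfl⟩
      have h2 : h1.choose = ⟨q, hq⟩ := e.injective h1.choose_spec
      simp only [ρ, dif_pos hq, p', Fin.snoc_castSucc, dif_pos h1, h2, Bool.bne_false]
    · simp only [ρ, dif_neg hq, p', Fin.snoc_last, Bool.bne_false]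
      exact (hp x q hq).symm
  obtain ⟨T, hT⟩ := exists_hard p' hδ h
  refine ⟨T, fun c hc => ?_⟩
  have h1 := hT (subst c ρ) (by rw [subst_size]; exact hc)
  simp only [hev] at h1
  exact h1

end Pool.Agent.H7LP
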