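import Pool.Agent.H7LP.Lift3
import Pool.Agent.H7LP.Expand
import Pool.Agent.H7LP.Hard

/-!
# The lower bound in terms of the parameters
-/

set_option linter.unusedSectionVars false
set_option linter.unusedDecidableInType false

namespace Pool.Agent.H7LP

open Finset
open scoped symmDiff
open Pool.Agent.H87.PMCSP (Circuit gop truthTable circuitPolytope HasExtension)

/-- The slacks of an extended formulation at some points, and the signed combinations of the
points that stay in the set. -/
theorem exists_slack {κ : Type} [Fintype κ] {K : Set (κ → ℝ)} {r : ℕ} (hext : HasExtension K r)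
    {Ω : Type} [Fintype Ω] (v : Ω → κ → ℝ) (hv : ∀ A, v A ∈ K) :
    ∃ sl : Fin r → Ω → ℝ, (∀ i A, 0 ≤ sl i A) ∧ ∀ wt : Ω → ℝ, ∑ A, wt A = 1 →
      (∀ i, 0 ≤ ∑ A, wt A * sl i A) → (fun x => ∑ A, wt A * v A x) ∈ K := by
  obtain ⟨d, q, A, B, b, C, D, e, h⟩ := hext
  choose y hy1 hy2 using fun w => (h (v w)).mp (hv w)
  refine ⟨fun i w => b i - (∑ x, A i x * v w x + ∑ j, B i j * y w j), fun i w => by
    have := hy1 w i; linarith, fun wt hwt hpos => ?_⟩
  rw [h]
  have key : ∀ (a : κ → ℝ) (c : Fin d → ℝ),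
      ∑ x, a x * (∑ w, wt w * v w x) + ∑ j, c j * (∑ w, wt w * y w j) =
        ∑ w, wt w * (∑ x, a x * v w x + ∑ j, c j * y w j) := by
    intro a c
    simp only [mul_add, Finset.sum_add_distrib, Finset.mul_sum]
    congr 1
    · rw [Finset.sum_comm]
      exact Finset.sum_congr rfl fun w _ => Finset.sum_congr rfl fun x _ => by ring
    · rw [Finset.sum_comm]
      exact Finset.sum_congr rfl fun w _ => Finset.sum_congr rfl fun x _ => by ring
  refine ⟨fun j => ∑ w, wt w * y w j, fun i => ?_, fun i => ?_⟩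
  · rw [key]
    have h1 := hpos i
    simp only [mul_sub, Finset.sum_sub_distrib, ← Finset.sum_mul, hwt, one_mul] at h1
    linarith
  · rw [key]
    simp only [hy2, ← Finset.sum_mul, hwt, one_mul]

theorem uu_cons {k m : ℕ} {V X : Type} [Fintype X] [DecidableEq X] (G : Fin k → X → Fin m)
    (c : V → V → Bool) (y A : Fin k × Fin m → V) (x : X) :
    uu c y (cons G x) A = ∏ i, sgn (c (y (i, G i x)) (A (i, G i x))) := by
  have h : cons G x = (Finset.univ : Finset (Fin k)).image fun i => (i, G i x) := by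
    ext ⟨i, j⟩
    simp only [cons, Finset.mem_filter, Finset.mem_univ, true_and, Finset.mem_image,
      Prod.mk.injEq]
    constructor
    · intro h
      exact ⟨i, rfl, h⟩
    · rintro ⟨i', rfl, h⟩
      exact h
  rw [uu, h, Finset.prod_image]
  intro i _ j _ hij
  simpa using (congrArg Prod.fst hij)

theorem one_sub_truthTable {n : ℕ} (c : Circuit n) (x : Fin n → Bool) :
    1 - 2 * truthTable c x = sgn (c.eval x) := by
  unfold truthTable sgn
  split_ifs <;> norm_num

theorem sum_ge_of_ge {Ω : Type} [Fintype Ω] {f : Ω → ℝ} {b : ℝ} (h : ∀ A, b ≤ f A) :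
    (Fintype.card Ω : ℝ) * b ≤ ∑ A, f A := by
  have := Finset.sum_le_sum (fun A (_ : A ∈ (Finset.univ : Finset Ω)) => h A)
  rwa [Finset.sum_const, Finset.card_univ, nsmul_eq_mul] at this

variable {k a w n z e δ s r : ℕ} {β : Type} [Fintype β] [DecidableEq β]

theorem core (hβ : Fintype.card β = 2 * w) (G : Fin k → Fin z → Fin (2 ^ a)) (he : 0 < e) (hδ : 0 < δ)
    (hexp : ∀ Y : Finset (Fin z), Y.card ≤ 16 * δ → e * Y.card ≤ (bd (cons G) Y).card)
    (hn : k * (a + 2 * w) ≤ n)
    (hs : ∀ (pos : Fin k × (Fin a ⊕ β) → Fin n) (A : Fin k → (Fin a → Bool) → β → Bool),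
      ∃ c : Circuit n, c.size ≤ s ∧ ∀ x, c.eval x = tabFn pos A x) (hz : 0 < z)
    {γ b L η B : ℝ} (hB : ((small (Fin z) (8 * δ)).card : ℝ) ≤ B)
    (hη0 : 0 < η) (hη1 : η ≤ 1) (hγ0 : 0 < γ) (hγ1 : γ ≤ 1)
    (hγD : (1 + γ) ^ (k * 2 ^ a) ≤ 2) (htail : B * γ ^ (2 * (e * δ)) ≤ η / 8)
    (hb0 : 0 < b) (hb1 : b ≤ 1) (hL1 : 1 ≤ L)
    (hLκ : 2 + ((e * δ : ℕ) : ℝ) * Real.log (2 ^ w) ≤ L)
    (hsum : L ^ 2 * ((1 + 4 * (1 / (2 ^ w * γ ^ 2)) / b) ^ (k * 2 ^ a) - 1) ≤ 1)
    (hmain : 32 * B ^ 2 * (r + 1) / η ^ 2 * L * (4 * L) ^ (e * δ) ≤ (2 ^ w) ^ (e * δ))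
    (hunion : r * (L ^ 2 * b ^ (e * δ) * (32 * B ^ 2 * (r + 1) / η ^ 2)) +
      (k * 2 ^ a) / 2 ^ (2 * w) < 1)
    {K : Set ((Fin n → Bool) → ℝ)} (hK : circuitPolytope n s ⊆ K) (hext : HasExtension K r)
    (hsound : ∀ (p : Fin z → Fin n → Bool) (Q : Finset (Fin n)), Function.Injective p →
      Q.card ≤ k * (a + 2 * w) → (∀ x, ∀ q ∉ Q, p x q = false) → ∃ T : Fin z → Bool,
      ∀ v ∈ K, ∑ x, sgn (T x) * (1 - 2 * v (p x)) ≤ (1 - 2 * η) * z) : False := by
  classical
  -- positions
  obtain ⟨pos⟩ : Nonempty (Fin k × (Fin a ⊕ β) ↪ Fin n) := by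
    rw [Function.Embedding.nonempty_iff_card_le]
    simpa [hβ] using hn
  obtain ⟨E⟩ : Nonempty (Fin (2 ^ a) ≃ (Fin a → Bool)) := by
    rw [← Fintype.card_eq]; simp
  -- the circuits
  have hcirc : ∀ A : Fin k × Fin (2 ^ a) → (β → Bool), ∃ c : Circuit n,
      c.size ≤ s ∧ ∀ x, c.eval x = tabFn pos (fun i u => A (i, E.symm u)) x := by
    intro A
    exact hs pos (fun i u => A (i, E.symm u))
  choose cA hcA1 hcA2 using hcirc
  obtain ⟨sl, hsl0, hslw⟩ := exists_slack hext (fun A => truthTable (cA A)) (fun A =>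
    hK (subset_convexHull ℝ _ ⟨cA A, hcA1 A, rfl⟩))
  obtain ⟨N, hN⟩ : ∃ N : ℝ, N = (Fintype.card (Fin k × Fin (2 ^ a) → (β → Bool)) : ℝ) :=
    ⟨_, rfl⟩
  have hN0 : 0 < N := by
    rw [hN]; exact_mod_cast Fintype.card_pos
  have hcardι : Fintype.card (Fin k × Fin (2 ^ a)) = k * 2 ^ a := by simp
  have hcardV : (Fintype.card (β → Bool) : ℝ) = 2 ^ (2 * w) := by simp [hβ]
  have hB1 : 1 ≤ B := by
    refine le_trans ?_ hB
    have : (∅ : Finset (Fin z)) ∈ small (Fin z) (8 * δ) := by simp [small]
    exact_mod_cast Finset.card_pos.mpr ⟨_, this⟩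
  have hB0 : 0 < B := by linarith
  -- the constants
  obtain ⟨Λ, hΛ⟩ : ∃ Λ : ℝ, Λ = 4 * B * (r + 1) / η := ⟨_, rfl⟩
  obtain ⟨ε, hε⟩ : ∃ ε : ℝ, ε = η / (8 * B) := ⟨_, rfl⟩
  have hr0 : (0 : ℝ) ≤ r := Nat.cast_nonneg r
  have hΛ0 : 0 < Λ := by rw [hΛ]; positivity
  have hε0 : 0 < ε := by rw [hε]; positivity
  have hΛε : Λ / ε = 32 * B ^ 2 * (r + 1) / η ^ 2 := by
    rw [hΛ, hε]; field_simp; ring
  have hgp := gp_all (ι := Fin k × Fin (2 ^ a)) (orth_ip (β := β)) (γ := γ) (β := b) (L := L)
    (κ₀ := e * δ) (one_le_pow₀ (by norm_num) : (1 : ℝ) ≤ 2 ^ w) hγ0 hb0 hb1 hL1 hLκ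
    (by rw [hcardι]; exact hsum) (e * δ) (e * δ) le_rfl
  -- the light slacks
  let light : Fin r → Prop := fun i => ∀ A, sl i A * N ≤ Λ * mass (sl i)
  have hbad : ∀ i, light i → 0 < mass (sl i) →
      cnt (fun y => ¬ Good ip γ y (sl i) Finset.univ (e * δ) (e * δ) (ε * mass (sl i))) ≤
        L ^ 2 * b ^ (e * δ) * (Λ / ε) * N := by
    intro i hi hm
    have h1 := hgp (sl i) Finset.univ (Λ * mass (sl i)) (ε * mass (sl i)) (hsl0 i)
      (by positivity) (by
        intro J _ a'
        have hcardpin : ((Finset.univ.filter fun A : Fin k × Fin (2 ^ a) →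
            (β → Bool) => ∀ j ∈ J, A j = a' j).card : ℝ) *
            (2 ^ w) ^ (2 * J.card) ≤ N := by
          have hinj : (Finset.univ.filter fun A : Fin k × Fin (2 ^ a) →
              (β → Bool) => ∀ j ∈ J, A j = a' j).card *
              Fintype.card (J → (β → Bool)) ≤
              Fintype.card (Fin k × Fin (2 ^ a) → (β → Bool)) := by
            rw [← Finset.card_univ, ← Finset.card_product, ← Finset.card_univ]
            refine Finset.card_le_card_of_injOn
              (fun q j => if h : j ∈ J then q.2 ⟨j, h⟩ else q.1 j) (fun _ _ => by simp) ?_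
            rintro ⟨A, u⟩ hA ⟨A', u'⟩ hA' h
            simp only [Finset.coe_product, Set.mem_prod, Finset.mem_coe, Finset.mem_filter,
              Finset.mem_univ, true_and, and_true] at hA hA'
            have h2 : ∀ j, (if h : j ∈ J then u ⟨j, h⟩ else A j) =
                if h : j ∈ J then u' ⟨j, h⟩ else A' j := fun j => congrFun h j
            ext j : 2
            · by_cases hj : j ∈ J
              · change A j = A' j
                rw [hA j hj, hA' j hj]
              · have := h2 j
                simpa [hj] using this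
            · have := h2 j.1
              simpa [j.2] using this
          have h2 : (Fintype.card (J → (β → Bool)) : ℝ) =
              (2 ^ w) ^ (2 * J.card) := by
            simp only [Fintype.card_fun, Fintype.card_bool, hβ, Fintype.card_coe]
            push_cast
            rw [← pow_mul, ← pow_mul]
            congr 1
            ring
          rw [hN, ← h2]
          exact_mod_cast hinj
        have hmp : mass (pin J a' (sl i)) * N ≤ ((Finset.univ.filter fun A :
            Fin k × Fin (2 ^ a) → (β → Bool) => ∀ j ∈ J, A j = a' j).card : ℝ) *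
            (Λ * mass (sl i)) := by
          unfold mass pin
          rw [← Finset.sum_filter, Finset.sum_mul, ← nsmul_eq_mul, ← Finset.sum_const]
          exact Finset.sum_le_sum fun A _ => hi A
        have h3 : (mass (pin J a' (sl i)) * (2 ^ w) ^ (2 * J.card)) * N ≤
            (Λ * mass (sl i)) * N := by
          calc _ = mass (pin J a' (sl i)) * N * (2 ^ w) ^ (2 * J.card) := by ring
            _ ≤ ((Finset.univ.filter fun A : Fin k × Fin (2 ^ a) →
                (β → Bool) => ∀ j ∈ J, A j = a' j).card : ℝ) *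
                (Λ * mass (sl i)) * (2 ^ w) ^ (2 * J.card) :=
              mul_le_mul_of_nonneg_right hmp (by positivity)
            _ = ((Finset.univ.filter fun A : Fin k × Fin (2 ^ a) →
                (β → Bool) => ∀ j ∈ J, A j = a' j).card : ℝ) *
                (2 ^ w) ^ (2 * J.card) * (Λ * mass (sl i)) := by ring
            _ ≤ N * (Λ * mass (sl i)) := mul_le_mul_of_nonneg_right hcardpin (by positivity)
            _ = _ := by ring
        exact le_of_mul_le_mul_right h3 hN0) (by
        calc Λ * mass (sl i) * L * (4 * L) ^ (e * δ)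
            = (Λ / ε * L * (4 * L) ^ (e * δ)) * (ε * mass (sl i)) := by field_simp
          _ ≤ (2 ^ w) ^ (e * δ) * (ε * mass (sl i)) := by
              rw [hΛε]
              exact mul_le_mul_of_nonneg_right hmain (by positivity))
    rw [← hN] at h1
    refine h1.trans (le_of_eq ?_)
    have : Λ * mass (sl i) / (ε * mass (sl i)) = Λ / ε := by field_simp
    rw [this]
  -- strings with a zero block
  have hzero : cnt (fun y : Fin k × Fin (2 ^ a) → (β → Bool) =>
      ∃ j ∈ (Finset.univ : Finset (Fin k × Fin (2 ^ a))), y j = fun _ => false) ≤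
      (k * 2 ^ a) / 2 ^ (2 * w) * N := by
    refine (cnt_exists _ _).trans ?_
    have h1 : ∀ j ∈ (Finset.univ : Finset (Fin k × Fin (2 ^ a))),
        cnt (fun y : Fin k × Fin (2 ^ a) → (β → Bool) => y j = fun _ => false) ≤
          N / 2 ^ (2 * w) := by
      intro j _
      rw [le_div_iff₀ (by positivity), ← hcardV, cnt_eq, hN, ← Nat.cast_mul]
      refine Nat.cast_le.mpr ?_
      rw [← Finset.card_univ (α := β → Bool), ← Finset.card_product]
      refine Finset.card_le_card_of_injOn
        (fun q => Function.update q.1 j q.2) (fun _ _ => by simp) ?_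
      rintro ⟨A, u⟩ hA ⟨A', u'⟩ hA' h
      simp only [Finset.coe_product, Set.mem_prod, Finset.mem_coe, Finset.mem_filter,
        Finset.mem_univ, true_and, and_true] at hA hA'
      simp only at h
      ext i : 2
      · by_cases hi : i = j
        · change A i = A' i
          rw [hi, hA, hA']
        · have := congrFun h i
          rwa [Function.update_of_ne hi, Function.update_of_ne hi] at this
      · have := congrFun h j
        rw [Function.update_self, Function.update_self] at this
        rw [this]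
    refine (Finset.sum_le_sum h1).trans (le_of_eq ?_)
    rw [Finset.sum_const, Finset.card_univ, hcardι, nsmul_eq_mul]
    push_cast
    ring
  -- a good string
  obtain ⟨y, hy1, hy2⟩ : ∃ y : Fin k × Fin (2 ^ a) → (β → Bool),
      (∀ i, light i → 0 < mass (sl i) →
        Good ip γ y (sl i) Finset.univ (e * δ) (e * δ) (ε * mass (sl i))) ∧
      ∀ j, y j ≠ fun _ => false := by
    by_contra hcon
    push Not at hcon
    have h1 : N ≤ cnt (fun y : Fin k × Fin (2 ^ a) → (β → Bool) =>
        (∃ i ∈ (Finset.univ : Finset (Fin r)), light i ∧ 0 < mass (sl i) ∧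
          ¬ Good ip γ y (sl i) Finset.univ (e * δ) (e * δ) (ε * mass (sl i))) ∨
        ∃ j ∈ (Finset.univ : Finset (Fin k × Fin (2 ^ a))), y j = fun _ => false) := by
      rw [cnt_eq, Finset.filter_true_of_mem, hN, Finset.card_univ]
      intro y _
      by_cases hy : ∀ i, light i → 0 < mass (sl i) →
          Good ip γ y (sl i) Finset.univ (e * δ) (e * δ) (ε * mass (sl i))
      · right
        obtain ⟨j, hj⟩ := hcon y hy
        exact ⟨j, Finset.mem_univ _, hj⟩
      · left
        push Not at hy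
        obtain ⟨i, hi1, hi2, hi3⟩ := hy
        exact ⟨i, Finset.mem_univ _, hi1, hi2, hi3⟩
    have h2 : cnt (fun y : Fin k × Fin (2 ^ a) → (β → Bool) =>
        ∃ i ∈ (Finset.univ : Finset (Fin r)), light i ∧ 0 < mass (sl i) ∧
          ¬ Good ip γ y (sl i) Finset.univ (e * δ) (e * δ) (ε * mass (sl i))) ≤
        r * (L ^ 2 * b ^ (e * δ) * (Λ / ε) * N) := by
      refine (cnt_exists _ _).trans ?_
      have h3 : ∀ i ∈ (Finset.univ : Finset (Fin r)), cnt (fun y : Fin k × Fin (2 ^ a) →
          (β → Bool) => light i ∧ 0 < mass (sl i) ∧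
          ¬ Good ip γ y (sl i) Finset.univ (e * δ) (e * δ) (ε * mass (sl i))) ≤
          L ^ 2 * b ^ (e * δ) * (Λ / ε) * N := by
        intro i _
        by_cases hi : light i ∧ 0 < mass (sl i)
        · exact (cnt_mono fun y hy => hy.2.2).trans (hbad i hi.1 hi.2)
        · rw [cnt_false]
          · positivity
          · rintro y ⟨h4, h5, -⟩
            exact hi ⟨h4, h5⟩
      refine (Finset.sum_le_sum h3).trans (le_of_eq ?_)
      rw [Finset.sum_const, Finset.card_univ, Fintype.card_fin, nsmul_eq_mul]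
    have h3 := h1.trans ((cnt_or _ _).trans (add_le_add h2 hzero))
    have h4 : (r * (L ^ 2 * b ^ (e * δ) * (32 * B ^ 2 * (r + 1) / η ^ 2)) +
        (k * 2 ^ a) / 2 ^ (2 * w)) * N < 1 * N := mul_lt_mul_of_pos_right hunion hN0
    rw [hΛε] at h3
    linarith
  have hchar : ∀ j, ∑ a', sgn (ip (y j) a') = 0 := fun j => sum_ip_zero (hy2 j)
  -- the points
  obtain ⟨pt, hpt⟩ : ∃ pt : Fin z → Fin n → Bool,
      pt = fun x => point pos (fun i => E (G i x)) (fun i => y (i, G i x)) := ⟨_, rfl⟩
  have hval : ∀ A x, 1 - 2 * truthTable (cA A) (pt x) = uu ip y (cons G x) A := by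
    intro A x
    rw [one_sub_truthTable, hcA2, hpt, uu_cons]
    simp only
    rw [tabFn_point pos.injective, sgn_parity]
    simp only [Equiv.symm_apply_apply]
  have hinj : Function.Injective pt := by
    intro x x' hxx
    have h1 : ∀ i, G i x = G i x' := by
      intro i
      apply E.injective
      funext l
      have := congrFun hxx (pos (i, Sum.inl l))
      rw [hpt] at this
      simp only at this
      rwa [point_inl pos.injective, point_inl pos.injective] at this
    by_contra hne
    have h2 : bd (cons G) ({x} ∆ {x'}) = ∅ := by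
      rw [bd_symmDiff, bd_singleton, bd_singleton]
      have : cons G x = cons G x' := by
        ext p
        simp only [cons, Finset.mem_filter, Finset.mem_univ, true_and, h1]
      rw [this]
      exact symmDiff_self _
    have h3 : (({x} : Finset (Fin z)) ∆ {x'}).card ≤ 16 * δ := by
      have := card_symmDiff_le ({x} : Finset (Fin z)) {x'}
      simp only [Finset.card_singleton] at this
      omega
    have h4 := hexp _ h3
    rw [h2, Finset.card_empty] at h4
    have h5 : 0 < (({x} : Finset (Fin z)) ∆ {x'}).card := by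
      rw [Finset.card_pos, Finset.symmDiff_nonempty]
      intro h6
      exact hne (Finset.singleton_injective h6)
    have := Nat.mul_pos he h5
    omega
  obtain ⟨T, hT⟩ := hsound pt ((Finset.univ : Finset (Fin k × (Fin a ⊕ β))).image pos) hinj
    (Finset.card_image_le.trans (by simp [hβ])) (by
      intro x q hq
      rw [hpt]
      refine point_out _ _ ?_
      rintro ⟨p, hp⟩
      exact hq (Finset.mem_image.mpr ⟨p, Finset.mem_univ _, hp⟩))
  obtain ⟨D, hD⟩ : ∃ D, D = pd ip (cons G) T (8 * δ) y := ⟨_, rfl⟩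
  have hD1 : ∑ A, D A = N := by
    rw [hD, hN]
    exact sum_pd hchar he (fun Y hY => hexp Y (by omega)) T
  have hDx : ∀ x, ∑ A, D A * uu ip y (cons G x) A = sgn (T x) * N := by
    intro x
    rw [hD, hN]
    exact sum_pd_mul hchar he (by omega) (fun Y hY => hexp Y (by omega)) T x
  have hDabs : ∀ A, |D A| ≤ B := fun A => by
    rw [hD]; exact (pd_abs_le _ _ _ _ _ _).trans hB
  have htail0 : 0 ≤ B * γ ^ (2 * (e * δ)) := by positivity
  -- the light slacks are almost nonnegative
  have hlight : ∀ i, light i → -(η / 4 * mass (sl i)) ≤ ∑ A, D A * sl i A := by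
    intro i hi
    rcases (mass_nonneg (hsl0 i)).eq_or_lt' with h0 | hm
    · have h1 : ∀ A, sl i A = 0 := by
        intro A
        have := (Finset.sum_eq_zero_iff_of_nonneg (fun A _ => hsl0 i A)).mp h0 A
          (Finset.mem_univ A)
        exact this
      simp [h1, h0]
    · have h1 := Good.lower (D := D) (Nd := B) (tail := B * γ ^ (2 * (e * δ)))
        (i₀ := 2 * (e * δ)) hB0.le hDabs htail0 (by
          intro g R hg hF hR hleaf
          have h2 := leaf_lower (T := T) he hexp hγ0.le hγ1 (by rw [hcardι]; exact hγD)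
            g R hg hF hR hleaf
          rw [hD]
          refine le_trans ?_ h2
          rw [neg_le_neg_iff]
          refine mul_le_mul_of_nonneg_right ?_ (mass_nonneg hg)
          exact mul_le_mul_of_nonneg_right hB (by positivity)) (hy1 i hi hm) (hsl0 i)
        (by intro j hj; exact absurd (Finset.mem_univ j) hj) (by simp; omega)
      refine le_trans ?_ h1
      rw [neg_le_neg_iff]
      have h2 : ε * mass (sl i) * B = η / 8 * mass (sl i) := by
        rw [hε]; field_simp
      rw [h2]
      have h3 : B * γ ^ (2 * (e * δ)) * mass (sl i) ≤ η / 8 * mass (sl i) :=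
        mul_le_mul_of_nonneg_right htail hm.le
      linarith
  -- the heavy slacks
  have hheavy : ∀ i, ∃ A, light i ∨ Λ * mass (sl i) < sl i A * N := by
    intro i
    by_cases hi : light i
    · exact ⟨fun _ _ => false, Or.inl hi⟩
    · have : ¬ ∀ A, sl i A * N ≤ Λ * mass (sl i) := hi
      push Not at this
      obtain ⟨A, hA⟩ := this
      exact ⟨A, Or.inr hA⟩
  choose AA hAA using hheavy
  -- the signed combination
  obtain ⟨t, ht⟩ : ∃ t : ℝ, t = η / 4 := ⟨_, rfl⟩
  obtain ⟨τ, hτ⟩ : ∃ τ : ℝ, τ = t / (r + 1) := ⟨_, rfl⟩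
  have ht0 : 0 < t := by rw [ht]; positivity
  have hτ0 : 0 < τ := by rw [hτ]; positivity
  have hrτ : r * τ ≤ t := by
    rw [hτ, mul_div_assoc', div_le_iff₀ (by positivity)]
    nlinarith
  obtain ⟨q, hq⟩ : ∃ q : ℝ, q = 1 - t - r * τ := ⟨_, rfl⟩
  have hq0 : 0 ≤ q := by rw [hq]; linarith
  have hq1 : q ≤ 1 := by
    rw [hq]
    have : 0 ≤ r * τ := by positivity
    linarith
  let wt : (Fin k × Fin (2 ^ a) → (β → Bool)) → ℝ := fun A =>
    q * D A / N + t / N + ∑ i, if A = AA i then τ else 0
  have hwtsum : ∀ f : (Fin k × Fin (2 ^ a) → (β → Bool)) → ℝ,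
      ∑ A, wt A * f A = q / N * ∑ A, D A * f A + t / N * ∑ A, f A + τ * ∑ i, f (AA i) := by
    intro f
    simp only [wt, add_mul, Finset.sum_add_distrib, Finset.sum_mul, Finset.mul_sum, ite_mul,
      zero_mul]
    congr 1
    · congr 1
      refine Finset.sum_congr rfl fun A _ => by ring
    · rw [Finset.sum_comm]
      refine Finset.sum_congr rfl fun i _ => ?_
      rw [Finset.sum_ite_eq']
      simp
  have hwt1 : ∑ A, wt A = 1 := by
    have h1 := hwtsum (fun _ => 1)
    simp only [mul_one, hD1, Finset.sum_const, Finset.card_univ, Fintype.card_fin,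
      nsmul_eq_mul, ← hN] at h1
    rw [h1, hq]
    field_simp
    ring
  have hmem := hslw wt hwt1 (by
    intro i
    rw [hwtsum]
    have hm := mass_nonneg (hsl0 i)
    have hsum0 : 0 ≤ ∑ i', sl i (AA i') := Finset.sum_nonneg fun i' _ => hsl0 i _
    change 0 ≤ q / N * ∑ A, D A * sl i A + t / N * mass (sl i) + τ * ∑ i', sl i (AA i')
    rcases hAA i with hi | hi
    · have h1 := hlight i hi
      have h2 : q / N * -(η / 4 * mass (sl i)) ≤ q / N * ∑ A, D A * sl i A :=
        mul_le_mul_of_nonneg_left h1 (by positivity)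
      have h3 : q / N * (η / 4 * mass (sl i)) ≤ 1 / N * (η / 4 * mass (sl i)) :=
        mul_le_mul_of_nonneg_right (div_le_div_of_nonneg_right hq1 hN0.le) (by positivity)
      have h4 : 1 / N * (η / 4 * mass (sl i)) = t / N * mass (sl i) := by rw [ht]; ring
      have h5 : 0 ≤ τ * ∑ i', sl i (AA i') := mul_nonneg hτ0.le hsum0
      linarith
    · have h1 : -(B * mass (sl i)) ≤ ∑ A, D A * sl i A := by
        have h2 : |∑ A, D A * sl i A| ≤ B * mass (sl i) := by
          unfold mass
          rw [Finset.mul_sum]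
          refine (Finset.abs_sum_le_sum_abs _ _).trans (Finset.sum_le_sum fun A _ => ?_)
          rw [abs_mul, abs_of_nonneg (hsl0 i A)]
          exact mul_le_mul_of_nonneg_right (hDabs A) (hsl0 i A)
        exact (abs_le.mp h2).1
      have h2 : q / N * -(B * mass (sl i)) ≤ q / N * ∑ A, D A * sl i A :=
        mul_le_mul_of_nonneg_left h1 (by positivity)
      have h3 : q / N * (B * mass (sl i)) ≤ 1 / N * (B * mass (sl i)) :=
        mul_le_mul_of_nonneg_right (div_le_div_of_nonneg_right hq1 hN0.le) (by positivity)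
      have h4 : sl i (AA i) ≤ ∑ i', sl i (AA i') :=
        Finset.single_le_sum (f := fun i' => sl i (AA i')) (fun i' _ => hsl0 i _)
          (Finset.mem_univ i)
      have h5 : τ * sl i (AA i) ≤ τ * ∑ i', sl i (AA i') :=
        mul_le_mul_of_nonneg_left h4 hτ0.le
      have h6 : 1 / N * (B * mass (sl i)) ≤ τ * sl i (AA i) := by
        have h7 : τ * Λ = B := by
          rw [hτ, hΛ, ht]; field_simp
        have h8 : τ * (Λ * mass (sl i)) ≤ τ * (sl i (AA i) * N) :=
          mul_le_mul_of_nonneg_left hi.le hτ0.le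
        rw [← mul_assoc, h7] at h8
        rw [div_mul_eq_mul_div, one_mul, div_le_iff₀ hN0]
        linarith
      have h9 : 0 ≤ t / N * mass (sl i) := by positivity
      linarith)
  have hfin := hT _ hmem
  -- the value of the functional
  have hlin : ∑ x, sgn (T x) * (1 - 2 * ∑ A, wt A * truthTable (cA A) (pt x)) =
      ∑ A, wt A * ∑ x, sgn (T x) * uu ip y (cons G x) A := by
    have h1 : ∀ x, 1 - 2 * ∑ A, wt A * truthTable (cA A) (pt x) =
        ∑ A, wt A * uu ip y (cons G x) A := by
      intro x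
      calc 1 - 2 * ∑ A, wt A * truthTable (cA A) (pt x)
          = ∑ A, wt A - 2 * ∑ A, wt A * truthTable (cA A) (pt x) := by rw [hwt1]
        _ = ∑ A, wt A * (1 - 2 * truthTable (cA A) (pt x)) := by
            rw [Finset.mul_sum, ← Finset.sum_sub_distrib]
            exact Finset.sum_congr rfl fun A _ => by ring
        _ = ∑ A, wt A * uu ip y (cons G x) A :=
            Finset.sum_congr rfl fun A _ => by rw [hval]
    simp only [h1]
    simp only [Finset.mul_sum]
    rw [Finset.sum_comm]
    refine Finset.sum_congr rfl fun A _ => Finset.sum_congr rfl fun x _ => by ring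
  rw [hlin, hwtsum] at hfin
  have h1 : ∑ A, D A * ∑ x, sgn (T x) * uu ip y (cons G x) A = z * N := by
    simp only [Finset.mul_sum]
    rw [Finset.sum_comm]
    have h2 : ∀ x : Fin z, ∑ A, D A * (sgn (T x) * uu ip y (cons G x) A) = N := by
      intro x
      have h3 : ∀ A, D A * (sgn (T x) * uu ip y (cons G x) A) =
          sgn (T x) * (D A * uu ip y (cons G x) A) := fun A => by ring
      simp only [h3]
      rw [← Finset.mul_sum, hDx, ← mul_assoc, sgn_mul_self, one_mul]
    simp only [h2]
    simp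
  have h2 : ∀ A, -(z : ℝ) ≤ ∑ x, sgn (T x) * uu ip y (cons G x) A := by
    intro A
    have h3 : ∀ x ∈ (Finset.univ : Finset (Fin z)),
        (-1 : ℝ) ≤ sgn (T x) * uu ip y (cons G x) A := by
      intro x _
      have h4 : |sgn (T x) * uu ip y (cons G x) A| = 1 := by
        rw [abs_mul, abs_sgn, uu, abs_prod_sgn, mul_one]
      have := (abs_le.mp h4.le).1
      linarith
    have := Finset.sum_le_sum h3
    simpa using this
  have h3 : -(N * z) ≤ ∑ A, ∑ x, sgn (T x) * uu ip y (cons G x) A := by
    have h3' := sum_ge_of_ge h2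
    rw [← hN] at h3'
    linarith
  have h4 : -(r * z : ℝ) ≤ ∑ i, ∑ x, sgn (T x) * uu ip y (cons G x) (AA i) := by
    have h4' := sum_ge_of_ge (fun i => h2 (AA i))
    rw [Fintype.card_fin] at h4'
    linarith
  rw [h1] at hfin
  have hz' : (0 : ℝ) < z := by exact_mod_cast hz
  have h5 : t / N * -(N * z) ≤ t / N * ∑ A, ∑ x, sgn (T x) * uu ip y (cons G x) A :=
    mul_le_mul_of_nonneg_left h3 (by positivity)
  have h6 : τ * -(r * z : ℝ) ≤ τ * ∑ i, ∑ x, sgn (T x) * uu ip y (cons G x) (AA i) :=
    mul_le_mul_of_nonneg_left h4 hτ0.le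
  have h7 : q / N * (z * N) = q * z := by field_simp
  have h8 : t / N * -(N * z) = -(t * z) := by field_simp
  rw [h7] at hfin
  rw [h8] at h5
  have h9 : (q - t - r * τ) * z ≤ (1 - 2 * η) * z := by nlinarith
  have h10 := le_of_mul_le_mul_right h9 hz'
  rw [hq, ht] at h10
  rw [ht] at hrτ
  linarith

end Pool.Agent.H7LP
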