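import Pool.Agent.H7LP.General

/-!
# The final statements
-/

namespace Pool.Agent.H7LP

open Finset
open Pool.Agent.H87.PMCSP (Circuit gop truthTable circuitPolytope HasExtension)

variable {n : ℕ}

theorem agreement_comb (T : (Fin n → Bool) → Option Bool) {a b : ℝ} (hab : a + b = 1)
    (v w : (Fin n → Bool) → ℝ) :
    agreement T (a • v + b • w) = a * agreement T v + b * agreement T w := by
  unfold agreement
  rw [Finset.mul_sum, Finset.mul_sum, ← Finset.sum_add_distrib]
  refine Finset.sum_congr rfl fun x _ => ?_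
  have hb : b = 1 - a := by linarith
  rcases T x with _ | _ | _
  · simp
  · simp only [Pi.add_apply, Pi.smul_apply, smul_eq_mul]
    rw [hb]; ring
  · simp only [Pi.add_apply, Pi.smul_apply, smul_eq_mul]

theorem refutes_self {s : ℕ} {S η : ℝ} (hs : (s : ℝ) ≤ S) (hS : 4 ≤ S) (hη : η ≤ 1 / 4) :
    Refutes (circuitPolytope n s) S η := by
  intro T hT v hv
  have hsub : circuitPolytope n s ⊆ {v | agreement T v ≤ (1 / 2 + 1 / S) * domSize T} := by
    refine convexHull_min ?_ ?_
    · rintro v ⟨c, hc, rfl⟩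
      exact hT c (le_trans (by exact_mod_cast hc) hs)
    · intro v hv w hw a b ha hb hab
      simp only [Set.mem_ofPred_eq] at hv hw ⊢
      rw [agreement_comb T hab]
      have h1 := mul_le_mul_of_nonneg_left hv ha
      have h2 := mul_le_mul_of_nonneg_left hw hb
      calc a * agreement T v + b * agreement T w
          ≤ (a + b) * ((1 / 2 + 1 / S) * domSize T) := by linarith
        _ = _ := by rw [hab, one_mul]
  refine (hsub hv).trans (mul_le_mul_of_nonneg_right ?_ (Nat.cast_nonneg _))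
  have : 1 / S ≤ 1 / 4 := one_div_le_one_div_of_le (by norm_num) hS
  linarith

/-- the circuit polytope itself refutes all hard tables -/
theorem polytope_refutes {n s : ℕ} {θ c : ℝ} (hc : c = 1 / 10 ^ 24) (hs : (10 : ℝ) ^ 96 ≤ s)
    (hθ : 64 ≤ θ) (hθs : θ ^ 16 ≤ s)
    (hbal : Real.logb 2 s ^ 2 ≤ c * n * Real.logb 2 θ) :
    Refutes (circuitPolytope n s) (θ ^ (c * min (n / Real.logb 2 s) (Real.sqrt s)))
      ((s : ℝ) ^ (-(c * s / θ))) := by
  have hc0 : 0 < c := by rw [hc]; positivity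
  have hs0 : (0 : ℝ) < s := by linarith [show (0 : ℝ) < 10 ^ 96 by positivity]
  have hs1 : (1 : ℝ) < s := by
    refine lt_of_lt_of_le ?_ hs
    norm_num
  have hθ0 : 0 < θ := by linarith
  have hl : 0 < Real.logb 2 s := Real.logb_pos (by norm_num) hs1
  have hτ6 : 6 ≤ Real.logb 2 θ := by
    rw [Real.le_logb_iff_rpow_le (by norm_num) hθ0]
    have : (2 : ℝ) ^ (6 : ℝ) = 2 ^ (6 : ℕ) := by
      rw [← Real.rpow_natCast (2 : ℝ) 6]; norm_num
    rw [this]
    linarith
  -- `w = sqrt s`, `x = sqrt (sqrt s)`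
  obtain ⟨w, hw⟩ : ∃ w, w = Real.sqrt s := ⟨_, rfl⟩
  have hww : w * w = s := by rw [hw]; exact Real.mul_self_sqrt hs0.le
  obtain ⟨x, hx⟩ : ∃ x, x = Real.sqrt w := ⟨_, rfl⟩
  have hw0 : 0 ≤ w := by rw [hw]; exact Real.sqrt_nonneg _
  have hxx : x * x = w := by rw [hx]; exact Real.mul_self_sqrt hw0
  have hx0 : 0 ≤ x := by rw [hx]; exact Real.sqrt_nonneg _
  have hx4 : x ^ 4 = s := by rw [← hww, ← hxx]; ring
  have hx24 : (10 : ℝ) ^ 24 ≤ x := by
    by_contra hlt
    push Not at hlt
    have h1 : x ^ 4 < (10 ^ 24) ^ 4 := pow_lt_pow_left₀ hlt hx0 (by norm_num)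
    rw [hx4] at h1
    have h2 : ((10 : ℝ) ^ 24) ^ 4 = 10 ^ 96 := by norm_num
    linarith
  have hxpos : 0 < x := by linarith [show (0 : ℝ) < 10 ^ 24 by positivity]
  have hlog : Real.logb 2 s ≤ 6 * x := by
    rw [← hx4, Real.logb_pow]
    have h1 : Real.logb 2 x ≤ x * (3 / 2) := by
      rw [Real.logb, div_le_iff₀ (Real.log_pos (by norm_num))]
      have h2 := Real.log_le_sub_one_of_pos hxpos
      have h3 := Real.log_two_gt_d9
      have h4 : x * (3 / 2) * Real.log 2 ≥ x * (3 / 2) * 0.6931471803 :=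
        mul_le_mul_of_nonneg_left h3.le (by positivity)
      nlinarith
    push_cast
    linarith
  have hsS : (s : ℝ) ≤ θ ^ (c * min (n / Real.logb 2 s) (Real.sqrt s)) := by
    have h1 : Real.logb 2 s ≤ Real.logb 2 θ * (c * min (n / Real.logb 2 s) (Real.sqrt s)) := by
      rcases min_choice (n / Real.logb 2 s) (Real.sqrt s) with h2 | h2
      · rw [h2, mul_comm, mul_div_assoc', div_mul_eq_mul_div, le_div_iff₀ hl, ← sq]
        exact hbal
      · rw [h2, ← hw, ← hxx]
        have h3 : x ≤ c * (x * x) := by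
          rw [hc]
          have : x * 10 ^ 24 ≤ x * x := mul_le_mul_of_nonneg_left hx24 hx0
          linarith
        have h4 : 0 ≤ c * (x * x) := by positivity
        calc Real.logb 2 s ≤ 6 * x := hlog
          _ ≤ 6 * (c * (x * x)) := by linarith
          _ ≤ _ := mul_le_mul_of_nonneg_right hτ6 h4
    have h2 : ∀ y : ℝ, θ ^ y = (2 : ℝ) ^ (Real.logb 2 θ * y) := by
      intro y
      rw [Real.rpow_mul (by norm_num), Real.rpow_logb (by norm_num) (by norm_num) hθ0]
    rw [h2]
    calc (s : ℝ) = 2 ^ (Real.logb 2 s) := (Real.rpow_logb (by norm_num) (by norm_num) hs0).symm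
      _ ≤ _ := Real.rpow_le_rpow_of_exponent_le (by norm_num) h1
  refine refutes_self hsS ?_ ?_
  · refine le_trans ?_ hsS
    refine le_trans ?_ hs
    norm_num
  · -- the margin
    have h1 : (1 : ℝ) ≤ c * s / θ := by
      rw [le_div_iff₀ hθ0, one_mul, hc]
      have h2 : θ ^ 2 ≤ s := by
        refine le_trans ?_ hθs
        exact pow_le_pow_right₀ (by linarith) (by norm_num)
      have h3 : θ ≤ w := by
        rw [hw]
        exact Real.le_sqrt_of_sq_le h2
      have h4 : (10 : ℝ) ^ 24 * w ≤ w * w := by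
        refine mul_le_mul_of_nonneg_right ?_ hw0
        rw [← hxx]
        nlinarith
      rw [← hww]
      linarith
    rw [Real.rpow_neg hs0.le, ← one_div]
    refine one_div_le_one_div_of_le (by norm_num) ?_
    calc (4 : ℝ) ≤ (10 : ℝ) ^ 96 := by norm_num
      _ ≤ s := hs
      _ = (s : ℝ) ^ (1 : ℝ) := (Real.rpow_one _).symm
      _ ≤ _ := Real.rpow_le_rpow_of_exponent_le hs1.le h1

end Pool.Agent.H7LP
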