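import Pool.Agent.H7LP.Table

/-!
# The choice of the parameters, II
-/

namespace Pool.Agent.H7LP

open Finset
open Pool.Agent.H87.PMCSP (Circuit gop truthTable circuitPolytope HasExtension)

/-- the logarithm is small -/
theorem logb_le_sqrt {s : ℝ} (hs : (10 : ℝ) ^ 24 ≤ s) :
    10 ^ 6 * Real.logb 2 s ≤ 6 * Real.sqrt s := by
  have hs0 : 0 < s := by linarith [show (0 : ℝ) < 10 ^ 24 by positivity]
  obtain ⟨x, hx⟩ : ∃ x, x = Real.sqrt (Real.sqrt s) := ⟨_, rfl⟩
  have hx2 : x ^ 2 = Real.sqrt s := by rw [hx]; exact Real.sq_sqrt (Real.sqrt_nonneg _)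
  have hx4 : x ^ 4 = s := by
    calc x ^ 4 = (x ^ 2) ^ 2 := by ring
      _ = s := by rw [hx2]; exact Real.sq_sqrt hs0.le
  have hx0 : 0 ≤ x := by rw [hx]; exact Real.sqrt_nonneg _
  have hx6 : (10 : ℝ) ^ 6 ≤ x := by
    by_contra hlt
    push Not at hlt
    have : x ^ 4 < (10 ^ 6) ^ 4 := pow_lt_pow_left₀ hlt hx0 (by norm_num)
    rw [hx4] at this
    have h2 : ((10 : ℝ) ^ 6) ^ 4 = 10 ^ 24 := by norm_num
    linarith
  have hxpos : 0 < x := by linarith [show (0 : ℝ) < 10 ^ 6 by positivity]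
  have hlog : Real.logb 2 s ≤ 6 * x := by
    rw [← hx4, Real.logb_pow]
    have h1 : Real.logb 2 x ≤ x * (3 / 2) := by
      rw [Real.logb, div_le_iff₀ (Real.log_pos (by norm_num))]
      have h2 := Real.log_le_sub_one_of_pos hxpos
      have h3 := Real.log_two_gt_d9
      have h4 : x * (3 / 2) * Real.log 2 ≥ x * (3 / 2) * 0.6931471803 :=
        mul_le_mul_of_nonneg_left h3.le (by positivity)
      nlinarith
    push_cast
    linarith
  calc 10 ^ 6 * Real.logb 2 s ≤ 10 ^ 6 * (6 * x) := by linarith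
    _ ≤ 6 * (x * x) := by nlinarith
    _ = 6 * Real.sqrt s := by rw [← sq, hx2]

/-- **The general lower bound.** -/
theorem general {n s r : ℕ} {θ c : ℝ} (hc : c = 1 / 10 ^ 24) (hs24 : (10 : ℝ) ^ 24 ≤ s)
    (hθ : 64 ≤ θ) (hθs : θ ^ 16 ≤ s)
    (hbal : Real.logb 2 s ^ 2 ≤ c * n * Real.logb 2 θ)
    {K : Set ((Fin n → Bool) → ℝ)} (hK : circuitPolytope n s ⊆ K)
    (hR : Refutes K (θ ^ (c * min (n / Real.logb 2 s) (Real.sqrt s)))
      ((s : ℝ) ^ (-(c * s / θ))))
    (hext : HasExtension K r) : (s : ℝ) ^ (c * s / θ) ≤ r := by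
  have hc0 : 0 < c := by rw [hc]; positivity
  have hc6 : c ≤ 1 / 10 ^ 12 := by rw [hc]; norm_num
  have hθ0 : 0 < θ := by linarith
  have hs0 : (0 : ℝ) < s := by linarith [show (0 : ℝ) < 10 ^ 24 by positivity]
  obtain ⟨l, hl⟩ : ∃ l, l = Real.logb 2 s := ⟨_, rfl⟩
  obtain ⟨τ, hτ⟩ : ∃ τ, τ = Real.logb 2 θ := ⟨_, rfl⟩
  have hsl : (2 : ℝ) ^ l = s := by rw [hl]; exact Real.rpow_logb (by norm_num) (by norm_num) hs0
  have hθτ : (2 : ℝ) ^ τ = θ := by
    rw [hτ]; exact Real.rpow_logb (by norm_num) (by norm_num) hθ0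
  have hlsqrt := logb_le_sqrt hs24
  rw [← hl, ← hτ] at hbal
  rw [← hl] at hR hlsqrt
  obtain ⟨w, hw⟩ : ∃ w, w = Real.sqrt s := ⟨_, rfl⟩
  rw [← hw] at hR hlsqrt
  have hww : w * w = s := by rw [hw]; exact Real.mul_self_sqrt hs0.le
  have hw12 : (10 : ℝ) ^ 12 ≤ w := by
    rw [hw]
    apply Real.le_sqrt_of_sq_le
    linarith
  have hw0 : 0 < w := by linarith [show (0 : ℝ) < 10 ^ 12 by positivity]
  obtain ⟨mm, hmm⟩ : ∃ mm, mm = min (n / l) w := ⟨_, rfl⟩
  rw [← hmm] at hR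
  -- elementary bounds for `l` and `τ`
  have hl79 : 79 ≤ l := by
    rw [hl, Real.le_logb_iff_rpow_le (by norm_num) hs0]
    refine le_trans ?_ hs24
    have : (2 : ℝ) ^ (79 : ℝ) = 2 ^ (79 : ℕ) := by
      rw [← Real.rpow_natCast (2 : ℝ) 79]; norm_num
    rw [this]
    norm_num
  have hl0 : 0 < l := by linarith
  have hτ6 : 6 ≤ τ := by
    rw [hτ, Real.le_logb_iff_rpow_le (by norm_num) hθ0]
    have : (2 : ℝ) ^ (6 : ℝ) = 2 ^ (6 : ℕ) := by
      rw [← Real.rpow_natCast (2 : ℝ) 6]; norm_num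
    rw [this]
    linarith
  have hτl : 16 * τ ≤ l := by
    have h1 : Real.logb 2 (θ ^ 16) ≤ Real.logb 2 s :=
      Real.logb_le_logb_of_le (by norm_num) (by positivity) hθs
    rw [Real.logb_pow, ← hl, ← hτ] at h1
    push_cast at h1
    exact h1
  have hln : 10 ^ 12 * l ≤ n := by
    have h1 : l * l ≤ ((1 / 10 ^ 12 : ℝ) * n / 16) * l := by
      calc l * l = l ^ 2 := (sq l).symm
        _ ≤ c * n * τ := hbal
        _ ≤ (1 / 10 ^ 12 : ℝ) * n * (l / 16) := by
          refine mul_le_mul ?_ (by linarith) (by linarith) (by positivity)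
          exact mul_le_mul_of_nonneg_right hc6 (Nat.cast_nonneg _)
        _ = _ := by ring
    have h2 := le_of_mul_le_mul_right h1 hl0
    have h3 : (0 : ℝ) ≤ n := Nat.cast_nonneg _
    linarith
  -- the parameters
  obtain ⟨l', hl'⟩ : ∃ l', l' = Nat.log 2 s + 1 := ⟨_, rfl⟩
  have hs0' : 0 < s := by exact_mod_cast hs0
  have hl'2 : (l' : ℝ) ≤ 2 * l := by
    have h1 : 2 ^ Nat.log 2 s ≤ s := Nat.pow_log_le_self 2 hs0'.ne'
    have h2 : ((Nat.log 2 s : ℕ) : ℝ) ≤ l := by
      have h3 : (2 : ℝ) ^ ((Nat.log 2 s : ℕ) : ℝ) ≤ 2 ^ l := by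
        rw [hsl, Real.rpow_natCast]
        exact_mod_cast h1
      exact (Real.rpow_le_rpow_left_iff (by norm_num)).mp h3
    rw [hl']
    push_cast
    linarith
  obtain ⟨q, hq⟩ : ∃ q, q = Nat.sqrt s / 100 := ⟨_, rfl⟩
  have hq1 : 100 * q ≤ Nat.sqrt s := by rw [hq]; exact Nat.mul_div_le _ _
  have hq2 : w ≤ 200 * q := by
    have h1 : Nat.sqrt s < 100 * (q + 1) := by
      rw [hq]; exact Nat.lt_mul_div_succ _ (by norm_num)
    have h2 : s < (Nat.sqrt s + 1) * (Nat.sqrt s + 1) := Nat.lt_succ_sqrt s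
    have h3 : s < (100 * (q + 1) + 1) * (100 * (q + 1) + 1) :=
      h2.trans_le (Nat.mul_le_mul (by omega) (by omega))
    have h4 : w * w < (100 * (q + 1) + 1) * (100 * (q + 1) + 1) := by
      rw [hww]; exact_mod_cast h3
    have h5 : w < 100 * (q + 1) + 1 := by
      by_contra hge
      push Not at hge
      have := mul_le_mul hge hge (by positivity) hw0.le
      linarith
    linarith
  have hq3 : (100 * q : ℝ) ≤ w := by
    rw [hw]
    apply Real.le_sqrt_of_sq_le
    have h1 : Nat.sqrt s * Nat.sqrt s ≤ s := Nat.sqrt_le s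
    have h2 : (100 * q) ^ 2 ≤ s := by
      rw [sq]; exact (Nat.mul_le_mul hq1 hq1).trans h1
    exact_mod_cast h2
  obtain ⟨e, he⟩ : ∃ e, e = min (n / (772 * l')) q := ⟨_, rfl⟩
  have hl'pos : 0 < l' := by rw [hl']; omega
  have hn772 : 772 * l' ≤ n := by
    have h1 : (772 * l' : ℝ) ≤ n := by
      have : (10 : ℝ) ^ 12 * l ≥ 1544 * l := by nlinarith
      linarith
    exact_mod_cast h1
  have he1 : 1 ≤ e := by
    rw [he, le_min_iff]
    refine ⟨Nat.div_pos hn772 (by omega), ?_⟩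
    have : (1 : ℝ) ≤ q := by linarith
    exact_mod_cast this
  have heq : e ≤ q := by rw [he]; exact min_le_right _ _
  have hen : e ≤ n / (772 * l') := by rw [he]; exact min_le_left _ _
  have hew : 100 * (e : ℝ) ≤ w := by
    have : (e : ℝ) ≤ q := by exact_mod_cast heq
    linarith
  have he0 : (0 : ℝ) < e := by exact_mod_cast he1
  have hee : 10000 * (e * e) ≤ s := by
    have h1 : 10000 * ((e : ℝ) * e) ≤ s := by
      rw [← hww]
      nlinarith
    exact_mod_cast h1
  -- `e` is large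
  have hemm : mm ≤ 3088 * e := by
    have h1 : mm ≤ n / l := by rw [hmm]; exact min_le_left _ _
    have h2 : mm ≤ w := by rw [hmm]; exact min_le_right _ _
    have h3 : e = n / (772 * l') ∨ e = q := by
      rw [he]; exact min_choice _ _
    rcases h3 with h3 | h3
    · have h4 : n < 2 * (e * (772 * l')) := by
        have h5 : n < (e + 1) * (772 * l') := by
          rw [h3]
          have := Nat.lt_div_mul_add (a := n) (b := 772 * l') (by omega)
          linarith
        calc n < (e + 1) * (772 * l') := h5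
          _ ≤ (e + e) * (772 * l') := Nat.mul_le_mul_right _ (by omega)
          _ = _ := by ring
      have h5 : (n : ℝ) < 2 * (e * (772 * l')) := by exact_mod_cast h4
      refine h1.trans ?_
      rw [div_le_iff₀ hl0]
      have h6 : (e : ℝ) * l' ≤ e * (2 * l) := mul_le_mul_of_nonneg_left hl'2 he0.le
      nlinarith
    · rw [h3]
      have h5 : (0 : ℝ) ≤ q := Nat.cast_nonneg _
      linarith
  obtain ⟨a, ha⟩ : ∃ a, a = Nat.log 2 (s / (4700 * e)) := ⟨_, rfl⟩
  have hq0 : s / (4700 * e) ≠ 0 := by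
    have h1 : 4700 * e ≤ s := by nlinarith
    exact (Nat.div_pos h1 (by omega)).ne'
  have ha1 : 2 ^ a * (4700 * e) ≤ s := by
    have h1 : 2 ^ a ≤ s / (4700 * e) := by rw [ha]; exact Nat.pow_log_le_self 2 hq0
    exact (Nat.mul_le_mul_right _ h1).trans (Nat.div_mul_le_self _ _)
  have ha2 : s < 2 ^ a * (9400 * e) := by
    have h1 : s / (4700 * e) < 2 ^ (a + 1) := by
      rw [ha]; exact Nat.lt_pow_succ_log_self (by norm_num) _
    rw [Nat.div_lt_iff_lt_mul (by omega)] at h1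
    calc s < 2 ^ (a + 1) * (4700 * e) := h1
      _ = 2 ^ a * (9400 * e) := by rw [pow_succ]; ring
  have ha1' : (2 : ℝ) ^ a * (4700 * e) ≤ s := by exact_mod_cast ha1
  have ha2' : (s : ℝ) < 2 ^ a * (9400 * e) := by exact_mod_cast ha2
  have hea : e ≤ 2 ^ a := by
    have h1 : (10000 * e) * e < (9400 * 2 ^ a) * e := by
      calc (10000 * e) * e = 10000 * (e * e) := by ring
        _ ≤ s := hee
        _ < 2 ^ a * (9400 * e) := ha2
        _ = _ := by ring
    have h2 := lt_of_mul_lt_mul_right h1 (Nat.zero_le e)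
    omega
  have hal' : a ≤ l' := by
    have h1 : 2 ^ a ≤ s := by
      have : 2 ^ a * 1 ≤ 2 ^ a * (4700 * e) := Nat.mul_le_mul_left _ (by omega)
      omega
    have h2 : a ≤ Nat.log 2 s := Nat.le_log_of_pow_le (by norm_num) h1
    omega
  have hn' : 772 * (e * a) ≤ n := by
    calc 772 * (e * a) ≤ 772 * (e * l') := by gcongr
      _ = e * (772 * l') := by ring
      _ ≤ n / (772 * l') * (772 * l') := Nat.mul_le_mul_right _ hen
      _ ≤ n := Nat.div_mul_le_self _ _
  have hs' : 4 * e * (2 ^ a * (6 * 192 + 4)) + 1 ≤ s := by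
    have h1 : 1 ≤ 2 ^ a * e := Nat.mul_pos (by positivity) he1
    calc 4 * e * (2 ^ a * (6 * 192 + 4)) + 1 = 4624 * (2 ^ a * e) + 1 := by ring
      _ ≤ 4700 * (2 ^ a * e) := by omega
      _ = 2 ^ a * (4700 * e) := by ring
      _ ≤ s := ha1
  have hla : l / 2 - 7 < a := by
    -- `2^l = s < 9400 e 2^a ≤ 94 w 2^a`
    have h1 : (2 : ℝ) ^ l < 2 ^ (7 + l / 2 + a) := by
      have h2 : w = 2 ^ (l / 2) := by
        rw [hw, ← hsl, Real.sqrt_eq_rpow, ← Real.rpow_mul (by norm_num)]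
        congr 1
        ring
      rw [hsl]
      calc (s : ℝ) < 2 ^ a * (9400 * e) := ha2'
        _ ≤ 2 ^ a * (128 * w) := by
            refine mul_le_mul_of_nonneg_left ?_ (by positivity)
            linarith
        _ = 2 ^ (7 + l / 2 + a) := by
            rw [h2, Real.rpow_add (by norm_num), Real.rpow_add (by norm_num),
              Real.rpow_natCast]
            norm_num
            ring
    have h2 := (Real.rpow_lt_rpow_left_iff (by norm_num)).mp h1
    linarith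
  obtain ⟨t, ht⟩ : ∃ t, t = ⌊τ / 2⌋₊ := ⟨_, rfl⟩
  have ht1 : (t : ℝ) ≤ τ / 2 := by rw [ht]; exact Nat.floor_le (by linarith)
  have ht2 : τ / 2 < t + 1 := by rw [ht]; exact Nat.lt_floor_add_one _
  have ht3 : 3 ≤ t := by
    rw [ht]; exact Nat.le_floor (by push_cast; linarith)
  have hta : 8 * (t + 1) ≤ 3 * a := by
    have h1 : (8 * (t + 1) : ℝ) < 3 * a := by linarith
    have h2 : 8 * (t + 1) < 3 * a := by exact_mod_cast h1
    omega
  have hta' : 2 * t + 4 ≤ a := by
    have h1 : (2 * t + 4 : ℝ) < a := by linarith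
    have h2 : 2 * t + 4 < a := by exact_mod_cast h1
    omega
  have ht0 : (0 : ℝ) < t := by
    have : 0 < t := by omega
    exact_mod_cast this
  -- the number of points
  have hmm0 : 0 ≤ mm := by
    rw [hmm]
    exact le_min (by positivity) hw0.le
  have hte : τ * mm ≤ 12352 * (t * e) := by
    have h1 : τ ≤ 4 * t := by linarith
    calc τ * mm ≤ (4 * t) * (3088 * e) := mul_le_mul h1 hemm hmm0 (by positivity)
      _ = 12352 * (t * e) := by ring
  have hbig : 10 ^ 6 * l ≤ τ * mm := by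
    have h3 : mm = n / l ∨ mm = w := by rw [hmm]; exact min_choice _ _
    rcases h3 with h3 | h3
    · rw [h3, mul_div_assoc', le_div_iff₀ hl0]
      have h4 : (10 : ℝ) ^ 12 * l ^ 2 ≤ n * τ := by
        have h5 : l ^ 2 ≤ (1 / 10 ^ 12 : ℝ) * (n * τ) := by
          refine hbal.trans ?_
          rw [mul_assoc]
          exact mul_le_mul_of_nonneg_right hc6 (by positivity)
        linarith
      nlinarith
    · rw [h3]
      nlinarith
  have hte80 : 80 * l ≤ t * e := by linarith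
  obtain ⟨g, hg⟩ : ∃ g, g = t * e / 5 := ⟨_, rfl⟩
  have hg1 : 5 * g ≤ t * e := by rw [hg]; exact Nat.mul_div_le _ _
  have hg2 : t * e < 5 * g + 5 := by
    rw [hg]
    have := Nat.lt_mul_div_succ (t * e) (show 0 < 5 by norm_num)
    omega
  have hg2' : (t : ℝ) * e < 5 * g + 5 := by exact_mod_cast hg2
  have hg10 : (t : ℝ) * e / 10 ≤ g := by linarith
  have hg5 : 5 ≤ g := by
    have h1 : (5 : ℝ) ≤ g := by linarith
    exact_mod_cast h1
  have hgs : s ≤ 2 ^ g := by
    have h1 : (s : ℝ) ≤ 2 ^ g := by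
      rw [← hsl, ← Real.rpow_natCast (2 : ℝ) g]
      exact Real.rpow_le_rpow_of_exponent_le (by norm_num) (by linarith)
    exact_mod_cast h1
  have hmg : 772 * (e * a) + 1 ≤ 2 ^ g := by
    refine le_trans ?_ hgs
    refine le_trans ?_ ha1
    have h1 : a ≤ 2 ^ a := Nat.lt_two_pow_self.le
    have h2 : e * a ≤ e * 2 ^ a := Nat.mul_le_mul_left _ h1
    have h3 : 1 ≤ e * 2 ^ a := Nat.mul_pos he1 (by positivity)
    calc 772 * (e * a) + 1 ≤ 4700 * (e * 2 ^ a) := by omega
      _ = 2 ^ a * (4700 * e) := by ring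
  have hS : θ ^ (c * mm) ≤ 2 ^ g := by
    rw [← hθτ, ← Real.rpow_mul (by norm_num), ← Real.rpow_natCast (2 : ℝ) g]
    refine Real.rpow_le_rpow_of_exponent_le (by norm_num) ?_
    calc τ * (c * mm) = c * (τ * mm) := by ring
      _ ≤ (1 / 10 ^ 12 : ℝ) * (12352 * (t * e)) :=
          mul_le_mul hc6 hte (by positivity) (by positivity)
      _ ≤ t * e / 10 := by
          have : 0 < (t : ℝ) * e := by positivity
          linarith
      _ ≤ g := hg10
  -- the exponent
  obtain ⟨M, hM⟩ : ∃ M, M = 3 * (a * (e * 2 ^ (a - 2 * t - 4))) := ⟨_, rfl⟩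
  have hexp : l * (c * s / θ) ≤ M := by
    have h1 : (2 : ℝ) ^ (a - 2 * t - 4) * (16 * 4 ^ t) = 2 ^ a := by
      rw [show (16 : ℝ) = 2 ^ 4 by norm_num, show (4 : ℝ) ^ t = 2 ^ (2 * t) by
        rw [pow_mul]; norm_num, ← pow_add, ← pow_add]
      congr 1
      omega
    have h2 : (4 : ℝ) ^ t ≤ θ := by
      rw [← hθτ, show (4 : ℝ) ^ t = 2 ^ (2 * t) by rw [pow_mul]; norm_num,
        ← Real.rpow_natCast (2 : ℝ) (2 * t)]
      refine Real.rpow_le_rpow_of_exponent_le (by norm_num) ?_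
      push_cast
      linarith
    have hla4 : l ≤ 4 * a := by linarith
    rw [mul_div_assoc', div_le_iff₀ hθ0, hM]
    push_cast
    have h3 : (s : ℝ) ≤ 2 ^ a * (9400 * e) := ha2'.le
    calc l * (c * s) ≤ (4 * a) * ((1 / 10 ^ 12 : ℝ) * (2 ^ a * (9400 * e))) := by
          refine mul_le_mul hla4 ?_ (by positivity) (by positivity)
          exact mul_le_mul hc6 h3 hs0.le (by positivity)
      _ = (601600 / 10 ^ 12 : ℝ) * (a * (e * (2 ^ (a - 2 * t - 4) * 4 ^ t))) := by
          rw [← h1]; ring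
      _ ≤ 3 * (a * (e * (2 ^ (a - 2 * t - 4) * θ))) := by
          gcongr
          norm_num
      _ = _ := by ring
  by_contra hlt
  push Not at hlt
  have hsM : (s : ℝ) ^ (c * s / θ) ≤ 2 ^ M := by
    rw [← hsl, ← Real.rpow_mul (by norm_num), ← Real.rpow_natCast (2 : ℝ) M, hsl]
    exact Real.rpow_le_rpow_of_exponent_le (by norm_num) hexp
  have hrM : (r : ℝ) + 1 ≤ 2 ^ M := by
    have h1 : (r : ℝ) < 2 ^ M := hlt.trans_le hsM
    have h2 : r < 2 ^ M := by exact_mod_cast h1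
    exact_mod_cast h2
  rw [hM] at hrM
  refine core2 ht3 hta hta' he1 hea hn' hs' hK hext hrM ?_
  rw [← hM]
  refine sound_of_refutes (η' := 1 / 2 ^ M) (by positivity) hS hmg hg5 hg1 hR ?_
  rw [Real.rpow_neg hs0.le, ← one_div]
  exact one_div_le_one_div_of_le (by positivity) hsM

end Pool.Agent.H7LP
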