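import Pool.Agent.H7LP.Lift

/-!
# The pseudo-density and the leaves
-/

set_option linter.unusedSectionVars false
set_option linter.unusedDecidableInType false

namespace Pool.Agent.H7LP

open Finset
open scoped symmDiff

variable {ι V X : Type} [Fintype ι] [DecidableEq ι] [Fintype V] [DecidableEq V]
  [Fintype X] [DecidableEq X]

/-! ### Symmetric differences -/

theorem prod_symmDiff {α : Type} [DecidableEq α] {f : α → ℝ} (hf : ∀ a, f a * f a = 1)
    (S S' : Finset α) : ∏ a ∈ S ∆ S', f a = (∏ a ∈ S, f a) * ∏ a ∈ S', f a := by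
  have h1 : ∏ a ∈ S ∆ S', f a = (∏ a ∈ S \ S', f a) * ∏ a ∈ S' \ S, f a := by
    rw [Finset.symmDiff_def, Finset.prod_union]
    rw [Finset.disjoint_left]
    intro a ha ha'
    exact (Finset.mem_sdiff.mp ha').2 (Finset.mem_sdiff.mp ha).1
  have h2 : ∏ a ∈ S, f a = (∏ a ∈ S \ S', f a) * ∏ a ∈ S ∩ S', f a := by
    rw [mul_comm, ← Finset.prod_inter_mul_prod_sdiff S S']
  have h3 : ∏ a ∈ S', f a = (∏ a ∈ S' \ S, f a) * ∏ a ∈ S ∩ S', f a := by
    rw [mul_comm, Finset.inter_comm, ← Finset.prod_inter_mul_prod_sdiff S' S]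
  have h4 : (∏ a ∈ S ∩ S', f a) * ∏ a ∈ S ∩ S', f a = 1 := by
    rw [← Finset.prod_mul_distrib]
    exact Finset.prod_eq_one fun a _ => hf a
  rw [h1, h2, h3]
  linear_combination -(∏ a ∈ S \ S', f a) * (∏ a ∈ S' \ S, f a) * h4

theorem card_symmDiff_le {α : Type} [DecidableEq α] (S S' : Finset α) :
    (S ∆ S').card ≤ S.card + S'.card :=
  (Finset.card_le_card Finset.symmDiff_subset_union).trans (Finset.card_union_le _ _)

theorem odd_card_symmDiff {α : Type} [DecidableEq α] (S S' : Finset α) :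
    Odd (S ∆ S').card ↔ ¬ (Odd S.card ↔ Odd S'.card) := by
  have h1 : (S ∆ S').card = (S \ S').card + (S' \ S).card := by
    rw [Finset.symmDiff_def, Finset.card_union_of_disjoint]
    rw [Finset.disjoint_left]
    intro a ha ha'
    exact (Finset.mem_sdiff.mp ha').2 (Finset.mem_sdiff.mp ha).1
  have h2 := Finset.card_sdiff_add_card_inter S S'
  have h3 := Finset.card_sdiff_add_card_inter S' S
  rw [Finset.inter_comm] at h3
  simp only [Nat.odd_iff]
  omega

/-- the boundary of a set of constraints -/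
def bd (C : X → Finset ι) (Y : Finset X) : Finset ι :=
  Finset.univ.filter fun j => Odd (Y.filter fun x => j ∈ C x).card

theorem bd_empty (C : X → Finset ι) : bd C ∅ = ∅ := by
  simp [bd]

theorem bd_singleton (C : X → Finset ι) (x : X) : bd C {x} = C x := by
  ext j
  simp only [bd, Finset.mem_filter, Finset.mem_univ, true_and, Finset.filter_singleton]
  split_ifs with h <;> simp [h]

theorem bd_symmDiff (C : X → Finset ι) (Y Y' : Finset X) :
    bd C (Y ∆ Y') = bd C Y ∆ bd C Y' := by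
  ext j
  have h : ((Y ∆ Y').filter fun x => j ∈ C x) =
      (Y.filter fun x => j ∈ C x) ∆ (Y'.filter fun x => j ∈ C x) := by
    ext x
    simp only [Finset.mem_filter, Finset.mem_symmDiff]
    tauto
  simp only [bd, Finset.mem_filter, Finset.mem_univ, true_and, Finset.mem_symmDiff]
  rw [h, odd_card_symmDiff]
  tauto

theorem inter_symmDiff {α : Type} [DecidableEq α] (S S' R : Finset α) :
    (S ∆ S') ∩ R = (S ∩ R) ∆ (S' ∩ R) := by
  ext j
  simp only [Finset.mem_inter, Finset.mem_symmDiff]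
  tauto

theorem sdiff_symmDiff' {α : Type} [DecidableEq α] (S S' R : Finset α) :
    (S ∆ S') \ R = (S \ R) ∆ (S' \ R) := by
  ext j
  simp only [Finset.mem_sdiff, Finset.mem_symmDiff]
  tauto

/-- the sign of a set of constraints -/
def tsgn (T : X → Bool) (Y : Finset X) : ℝ := ∏ x ∈ Y, sgn (T x)

/-- the small sets of constraints -/
def small (X : Type) [Fintype X] [DecidableEq X] (d : ℕ) : Finset (Finset X) :=
  Finset.univ.filter fun Y => Y.card ≤ d

/-- the pseudo-density -/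
def pd (c : V → V → Bool) (C : X → Finset ι) (T : X → Bool) (d : ℕ) (y : ι → V) (A : ι → V) : ℝ :=
  ∑ Y ∈ small X d, tsgn T Y * uu c y (bd C Y) A

theorem abs_prod_sgn {α : Type} (S : Finset α) (f : α → Bool) : |∏ a ∈ S, sgn (f a)| = 1 := by
  rw [Finset.abs_prod]
  exact Finset.prod_eq_one fun a _ => abs_sgn _

theorem pd_abs_le (c : V → V → Bool) (C : X → Finset ι) (T : X → Bool) (d : ℕ) (y : ι → V)
    (A : ι → V) : |pd c C T d y A| ≤ (small X d).card := by
  unfold pd
  refine (Finset.abs_sum_le_sum_abs _ _).trans ?_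
  have : ∀ Y ∈ small X d, |tsgn T Y * uu c y (bd C Y) A| ≤ 1 := by
    intro Y _
    rw [abs_mul, tsgn, uu, abs_prod_sgn, abs_prod_sgn, mul_one]
  refine (Finset.sum_le_sum this).trans ?_
  simp

theorem sum_pow_card_le {γ : ℝ} (hγ : 0 ≤ γ) (hγD : (1 + γ) ^ Fintype.card ι ≤ 2)
    (S : Finset (Finset ι)) (hS : ∅ ∉ S) : ∑ J ∈ S, γ ^ J.card ≤ 1 := by
  have h1 : ∑ J ∈ S, γ ^ J.card ≤
      ∑ J ∈ (Finset.univ : Finset ι).powerset.erase ∅, γ ^ J.card := by
    refine Finset.sum_le_sum_of_subset_of_nonneg ?_ fun J _ _ => by positivity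
    intro J hJ
    rw [Finset.mem_erase]
    refine ⟨fun h => hS (h ▸ hJ), by simp⟩
  have h2 := Finset.sum_pow_mul_eq_add_pow γ 1 (Finset.univ : Finset ι)
  simp only [one_pow, mul_one] at h2
  have h3 := Finset.add_sum_erase (Finset.univ : Finset ι).powerset (fun J => γ ^ J.card)
    (Finset.empty_mem_powerset _)
  simp only [Finset.card_empty, pow_zero] at h3
  rw [add_comm 1 γ, ← Finset.card_univ] at hγD
  linarith

/-- **The leaves.** -/
theorem leaf_lower {c : V → V → Bool} {C : X → Finset ι} {T : X → Bool} {e δ : ℕ}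
    {y : ι → V} (he : 0 < e)
    (hexp : ∀ Y : Finset X, Y.card ≤ 16 * δ → e * Y.card ≤ (bd C Y).card)
    {γ : ℝ} (hγ : 0 ≤ γ) (hγ1 : γ ≤ 1) (hγD : (1 + γ) ^ Fintype.card ι ≤ 2)
    (g : (ι → V) → ℝ) (R : Finset ι) (hg : ∀ A, 0 ≤ g A) (hF : Fixed c y g R)
    (hR : (Rᶜ).card ≤ 2 * (e * δ))
    (hleaf : ∀ J ⊆ R, J.Nonempty → |∑ A, g A * uu c y J A| ≤ γ ^ J.card * mass g) :
    -(((small X (8 * δ)).card * γ ^ (2 * (e * δ))) * mass g) ≤
      ∑ A, pd c C T (8 * δ) y A * g A := by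
  classical
  obtain ⟨b, hb⟩ : ∃ b : ι → Bool, ∀ j ∉ R, ∀ A, g A ≠ 0 → c (y j) (A j) = b j := by
    choose b hb using hF
    refine ⟨fun j => if h : j ∉ R then b j h else false, fun j hj A hA => ?_⟩
    simp only [dif_pos hj]
    exact hb j hj A hA
  have hmass := mass_nonneg hg
  obtain ⟨h, hh⟩ : ∃ h : Finset ι → ℝ, h = fun J => ∑ A, g A * uu c y J A := ⟨_, rfl⟩
  obtain ⟨ψ, hψ⟩ : ∃ ψ : Finset X → ℝ, ψ = fun Y => tsgn T Y * ∏ j ∈ bd C Y \ R, sgn (b j) :=
    ⟨_, rfl⟩
  have hψmul : ∀ Y Y', ψ (Y ∆ Y') = ψ Y * ψ Y' := by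
    intro Y Y'
    rw [hψ]
    simp only
    rw [bd_symmDiff, sdiff_symmDiff', prod_symmDiff (fun j => sgn_mul_self _), tsgn,
      prod_symmDiff (fun j => sgn_mul_self _), tsgn, tsgn]
    ring
  have hψabs : ∀ Y, |ψ Y| = 1 := by
    intro Y
    rw [hψ]
    simp only
    rw [abs_mul, tsgn, abs_prod_sgn, abs_prod_sgn, mul_one]
  have hψsgn : ∀ Y, ψ Y = 1 ∨ ψ Y = -1 := fun Y => by
    rcases abs_choice (ψ Y) with h1 | h1
    · left; rw [← h1]; exact hψabs Y
    · right; have := hψabs Y; rw [h1] at this; linarith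
  have hψ0 : ψ ∅ = 1 := by
    rw [hψ]; simp [tsgn, bd_empty]
  -- the sum in terms of `h`
  have hsum : ∑ A, pd c C T (8 * δ) y A * g A =
      ∑ Y ∈ small X (8 * δ), ψ Y * h (bd C Y ∩ R) := by
    simp only [pd, Finset.sum_mul]
    rw [Finset.sum_comm]
    refine Finset.sum_congr rfl fun Y _ => ?_
    rw [hψ, hh]
    simp only
    rw [Finset.mul_sum]
    refine Finset.sum_congr rfl fun A _ => ?_
    by_cases hA : g A = 0
    · simp [hA]
    · have h1 : uu c y (bd C Y) A = uu c y (bd C Y ∩ R) A * ∏ j ∈ bd C Y \ R, sgn (b j) := by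
        unfold uu
        rw [← Finset.prod_inter_mul_prod_sdiff (bd C Y) R]
        congr 1
        refine Finset.prod_congr rfl fun j hj => ?_
        rw [hb j (Finset.mem_sdiff.mp hj).2 A hA]
      rw [h1]
      ring
  rw [hsum]
  -- small and large boundaries
  obtain ⟨S, hS⟩ : ∃ S : Finset (Finset X), S = (small X (8 * δ)).filter
      fun Y => (bd C Y ∩ R).card ≤ 2 * (e * δ) := ⟨_, rfl⟩
  obtain ⟨V0, hV0⟩ : ∃ V0 : Finset (Finset X), V0 = Finset.univ.filter
      fun Y => Y.card ≤ 16 * δ ∧ bd C Y ∩ R = ∅ := ⟨_, rfl⟩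
  have hbdcard : ∀ Y, (bd C Y).card ≤ (bd C Y ∩ R).card + (Rᶜ).card := by
    intro Y
    have h1 := Finset.card_inter_add_card_sdiff (bd C Y) R
    have h2 : (bd C Y \ R).card ≤ (Rᶜ).card := by
      apply Finset.card_le_card
      intro j hj
      rw [Finset.mem_compl]
      exact (Finset.mem_sdiff.mp hj).2
    omega
  have hScard : ∀ Y ∈ S, Y.card ≤ 4 * δ := by
    intro Y hY
    rw [hS, Finset.mem_filter, small, Finset.mem_filter] at hY
    have h1 := hexp Y (by omega)
    have h2 := hbdcard Y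
    have h3 : e * Y.card ≤ e * (4 * δ) := by
      calc e * Y.card ≤ 2 * (e * δ) + 2 * (e * δ) := by omega
        _ = e * (4 * δ) := by ring
    exact Nat.le_of_mul_le_mul_left h3 he
  have hVcard : ∀ Y ∈ V0, Y.card ≤ 2 * δ := by
    intro Y hY
    rw [hV0, Finset.mem_filter] at hY
    have h1 := hexp Y hY.2.1
    have h2 := hbdcard Y
    rw [hY.2.2, Finset.card_empty] at h2
    have h3 : e * Y.card ≤ e * (2 * δ) := by
      calc e * Y.card ≤ 2 * (e * δ) := by omega
        _ = e * (2 * δ) := by ring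
    exact Nat.le_of_mul_le_mul_left h3 he
  have hVbd : ∀ Y ∈ V0, bd C Y ∩ R = ∅ := fun Y hY => by
    rw [hV0, Finset.mem_filter] at hY
    exact hY.2.2
  have hVadd : ∀ Y ∈ V0, ∀ Y' ∈ V0, Y ∆ Y' ∈ V0 := by
    intro Y hY Y' hY'
    have h1 := hVcard Y hY
    have h2 := hVcard Y' hY'
    have h3 := card_symmDiff_le Y Y'
    rw [hV0, Finset.mem_filter]
    refine ⟨Finset.mem_univ _, by omega, ?_⟩
    rw [bd_symmDiff, inter_symmDiff, hVbd Y hY, hVbd Y' hY']
    simp
  have hV0mem : (∅ : Finset X) ∈ V0 := by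
    rw [hV0, Finset.mem_filter]
    simp [bd_empty]
  have hSV : ∀ Y ∈ S, ∀ Y' ∈ V0, Y ∆ Y' ∈ S ∧ bd C (Y ∆ Y') ∩ R = bd C Y ∩ R := by
    intro Y hY Y' hY'
    have h1 := hScard Y hY
    have h2 := hVcard Y' hY'
    have h3 := card_symmDiff_le Y Y'
    have h4 : bd C (Y ∆ Y') ∩ R = bd C Y ∩ R := by
      rw [bd_symmDiff, inter_symmDiff, hVbd Y' hY']
      exact symmDiff_bot _
    refine ⟨?_, h4⟩
    rw [hS, Finset.mem_filter] at hY ⊢
    rw [h4]
    refine ⟨?_, hY.2⟩
    rw [small, Finset.mem_filter]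
    exact ⟨Finset.mem_univ _, by omega⟩
  have hSS : ∀ Y ∈ S, ∀ Y' ∈ S, bd C Y ∩ R = bd C Y' ∩ R → Y ∆ Y' ∈ V0 := by
    intro Y hY Y' hY' hYY
    have h1 := hScard Y hY
    have h2 := hScard Y' hY'
    have h3 := card_symmDiff_le Y Y'
    rw [hV0, Finset.mem_filter]
    refine ⟨Finset.mem_univ _, by omega, ?_⟩
    rw [bd_symmDiff, inter_symmDiff, hYY]
    simp
  -- the sum over `V0`
  obtain ⟨Ψ, hΨ⟩ : ∃ Ψ : ℝ, Ψ = ∑ Y ∈ V0, ψ Y := ⟨_, rfl⟩
  have hΨcase : Ψ = 0 ∨ (0 ≤ Ψ ∧ ∀ Y ∈ V0, ψ Y = 1) := by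
    by_cases hex : ∃ Y' ∈ V0, ψ Y' = -1
    · left
      obtain ⟨Y', hY', hneg⟩ := hex
      have h1 : Ψ = -Ψ := by
        calc Ψ = ∑ Y ∈ V0, ψ (Y ∆ Y') := by
              rw [hΨ]
              refine Finset.sum_nbij' (fun Y => Y ∆ Y') (fun Y => Y ∆ Y')
                (fun Y hY => hVadd Y hY Y' hY') (fun Y hY => hVadd Y hY Y' hY')
                (fun Y _ => symmDiff_symmDiff_cancel_right _ _)
                (fun Y _ => symmDiff_symmDiff_cancel_right _ _) (fun Y _ => ?_)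
              rw [symmDiff_symmDiff_cancel_right]
          _ = ∑ Y ∈ V0, ψ Y * (-1) := Finset.sum_congr rfl fun Y _ => by rw [hψmul, hneg]
          _ = -Ψ := by rw [← Finset.sum_mul, hΨ]; ring
      linarith
    · right
      push Not at hex
      have h1 : ∀ Y ∈ V0, ψ Y = 1 := fun Y hY => (hψsgn Y).resolve_right (hex Y hY)
      refine ⟨?_, h1⟩
      rw [hΨ]
      exact Finset.sum_nonneg fun Y hY => by rw [h1 Y hY]; norm_num
  -- the sum over `S`
  have hSsum : 0 ≤ ∑ Y ∈ S, ψ Y * h (bd C Y ∩ R) := by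
    have hfib : ∀ Y₀ ∈ S, ∑ Y ∈ S.filter (fun Y => bd C Y ∩ R = bd C Y₀ ∩ R),
        ψ Y * h (bd C Y ∩ R) = ψ Y₀ * h (bd C Y₀ ∩ R) * Ψ := by
      intro Y₀ hY₀
      rw [hΨ, Finset.mul_sum]
      symm
      refine Finset.sum_nbij' (fun Y => Y₀ ∆ Y) (fun Y => Y₀ ∆ Y) ?_ ?_
        (fun Y _ => symmDiff_symmDiff_cancel_left _ _)
        (fun Y _ => symmDiff_symmDiff_cancel_left _ _) ?_
      · intro Y hY
        rw [Finset.mem_filter]
        exact hSV Y₀ hY₀ Y hY
      · intro Y hY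
        rw [Finset.mem_filter] at hY
        exact hSS Y₀ hY₀ Y hY.1 hY.2.symm
      · intro Y hY
        rw [hψmul, (hSV Y₀ hY₀ Y hY).2]
        ring
    obtain ⟨𝒥, h𝒥⟩ : ∃ 𝒥 : Finset (Finset ι), 𝒥 = S.image fun Y => bd C Y ∩ R := ⟨_, rfl⟩
    have hrep : ∀ J ∈ 𝒥, ∃ Y₀ ∈ S, bd C Y₀ ∩ R = J := by
      intro J hJ
      rw [h𝒥, Finset.mem_image] at hJ
      exact hJ
    choose! rep hrepS hrepJ using hrep
    have hsplit : ∑ Y ∈ S, ψ Y * h (bd C Y ∩ R) = (∑ J ∈ 𝒥, ψ (rep J) * h J) * Ψ := by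
      rw [← Finset.sum_fiberwise_of_maps_to (t := 𝒥) (g := fun Y => bd C Y ∩ R)
        (fun Y hY => by rw [h𝒥]; exact Finset.mem_image_of_mem _ hY), Finset.sum_mul]
      refine Finset.sum_congr rfl fun J hJ => ?_
      have h1 := hfib (rep J) (hrepS J hJ)
      rw [hrepJ J hJ] at h1
      exact h1
    rw [hsplit]
    rcases hΨcase with h0 | ⟨hΨ0, hone⟩
    · rw [h0, mul_zero]
    · refine mul_nonneg ?_ hΨ0
      have hempty : (∅ : Finset X) ∈ S := by
        rw [hS, Finset.mem_filter, small, Finset.mem_filter]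
        simp [bd_empty]
      have h𝒥0 : (∅ : Finset ι) ∈ 𝒥 := by
        rw [h𝒥, Finset.mem_image]
        exact ⟨∅, hempty, by simp [bd_empty]⟩
      have h1 : ψ (rep ∅) = 1 := by
        have h2 := hSS (rep ∅) (hrepS ∅ h𝒥0) ∅ hempty (by
          rw [hrepJ ∅ h𝒥0]; simp [bd_empty])
        have h3 := hone _ h2
        rw [hψmul, hψ0, mul_one] at h3
        exact h3
      have h2 : h ∅ = mass g := by rw [hh]; simp [uu, mass]
      rw [← Finset.add_sum_erase 𝒥 _ h𝒥0, h1, h2, one_mul]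
      have h3 : ∀ J ∈ 𝒥.erase ∅, -(γ ^ J.card * mass g) ≤ ψ (rep J) * h J := by
        intro J hJ
        rw [Finset.mem_erase] at hJ
        have hJR : J ⊆ R := by
          rw [← hrepJ J hJ.2]
          exact Finset.inter_subset_right
        have h4 := hleaf J hJR (Finset.nonempty_iff_ne_empty.mpr hJ.1)
        have h5 : |ψ (rep J) * h J| ≤ γ ^ J.card * mass g := by
          rw [abs_mul, hψabs, one_mul, hh]
          exact h4
        exact (abs_le.mp h5).1
      have h4 := Finset.sum_le_sum h3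
      rw [Finset.sum_neg_distrib, ← Finset.sum_mul] at h4
      have h5 := sum_pow_card_le hγ hγD (𝒥.erase ∅) (Finset.notMem_erase _ _)
      have h6 : (∑ J ∈ 𝒥.erase ∅, γ ^ J.card) * mass g ≤ 1 * mass g :=
        mul_le_mul_of_nonneg_right h5 hmass
      linarith
  -- the large boundaries
  have hLsum : -(((small X (8 * δ)).card * γ ^ (2 * (e * δ))) * mass g) ≤
      ∑ Y ∈ (small X (8 * δ)).filter (fun Y => ¬ (bd C Y ∩ R).card ≤ 2 * (e * δ)),
        ψ Y * h (bd C Y ∩ R) := by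
    have h1 : ∀ Y ∈ (small X (8 * δ)).filter (fun Y => ¬ (bd C Y ∩ R).card ≤ 2 * (e * δ)),
        -(γ ^ (2 * (e * δ)) * mass g) ≤ ψ Y * h (bd C Y ∩ R) := by
      intro Y hY
      rw [Finset.mem_filter] at hY
      have hlt := hY.2
      push Not at hlt
      have h2 := hleaf (bd C Y ∩ R) Finset.inter_subset_right (by
        rw [← Finset.card_pos]; omega)
      have h3 : γ ^ (bd C Y ∩ R).card ≤ γ ^ (2 * (e * δ)) :=
        pow_le_pow_of_le_one hγ hγ1 hlt.le
      have h5 : |ψ Y * h (bd C Y ∩ R)| ≤ γ ^ (2 * (e * δ)) * mass g := by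
        rw [abs_mul, hψabs, one_mul, hh]
        exact h2.trans (mul_le_mul_of_nonneg_right h3 hmass)
      exact (abs_le.mp h5).1
    refine le_trans ?_ (Finset.sum_le_sum h1)
    rw [Finset.sum_const, nsmul_eq_mul, mul_neg, neg_le_neg_iff, mul_assoc]
    refine mul_le_mul_of_nonneg_right ?_ (by positivity)
    exact_mod_cast Finset.card_filter_le _ _
  have htot := Finset.sum_filter_add_sum_filter_not (small X (8 * δ))
    (fun Y => (bd C Y ∩ R).card ≤ 2 * (e * δ)) (fun Y => ψ Y * h (bd C Y ∩ R))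
  rw [← hS] at htot
  linarith

/-! ### Moments of the pseudo-density -/

theorem sum_uu_zero {c : V → V → Bool} {y : ι → V} (hy : ∀ j, ∑ a, sgn (c (y j) a) = 0)
    {J : Finset ι} (hJ : J.Nonempty) : ∑ A : ι → V, uu c y J A = 0 := by
  classical
  have h1 : ∀ A : ι → V, uu c y J A = ∏ j, (if j ∈ J then sgn (c (y j) (A j)) else 1) := by
    intro A
    rw [Finset.prod_ite_mem, Finset.univ_inter, uu]
  simp only [h1]
  have h2 := Finset.prod_univ_sum (fun _ : ι => (Finset.univ : Finset V))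
    (fun j v => if j ∈ J then sgn (c (y j) v) else (1 : ℝ))
  rw [Fintype.piFinset_univ] at h2
  rw [← h2]
  obtain ⟨j, hj⟩ := hJ
  refine Finset.prod_eq_zero (Finset.mem_univ j) ?_
  simp only [if_pos hj]
  exact hy j

theorem uu_symmDiff (c : V → V → Bool) (y : ι → V) (J J' : Finset ι) (A : ι → V) :
    uu c y (J ∆ J') A = uu c y J A * uu c y J' A :=
  prod_symmDiff (fun _ => sgn_mul_self _) J J'

theorem sum_uu_bd {c : V → V → Bool} {y : ι → V} (hy : ∀ j, ∑ a, sgn (c (y j) a) = 0)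
    {C : X → Finset ι} {e M : ℕ} (he : 0 < e)
    (hexp : ∀ Y : Finset X, Y.card ≤ M → e * Y.card ≤ (bd C Y).card)
    {Y : Finset X} (hY : Y.card ≤ M) :
    ∑ A : ι → V, uu c y (bd C Y) A = if Y = ∅ then (Fintype.card (ι → V) : ℝ) else 0 := by
  split_ifs with h
  · rw [h, bd_empty]
    simp [uu]
  · apply sum_uu_zero hy
    rw [← Finset.card_pos]
    have h1 := hexp Y hY
    have h2 := Finset.card_pos.mpr (Finset.nonempty_iff_ne_empty.mpr h)
    have := Nat.mul_pos he h2
    omega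

theorem sum_pd {c : V → V → Bool} {y : ι → V} (hy : ∀ j, ∑ a, sgn (c (y j) a) = 0)
    {C : X → Finset ι} {e d : ℕ} (he : 0 < e)
    (hexp : ∀ Y : Finset X, Y.card ≤ d → e * Y.card ≤ (bd C Y).card) (T : X → Bool) :
    ∑ A : ι → V, pd c C T d y A = Fintype.card (ι → V) := by
  unfold pd
  rw [Finset.sum_comm]
  have h1 : ∀ Y ∈ small X d, ∑ A : ι → V, tsgn T Y * uu c y (bd C Y) A =
      if Y = ∅ then (Fintype.card (ι → V) : ℝ) else 0 := by
    intro Y hY
    rw [small, Finset.mem_filter] at hY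
    rw [← Finset.mul_sum, sum_uu_bd hy he hexp hY.2]
    split_ifs with h
    · rw [h]; simp [tsgn]
    · simp
  rw [Finset.sum_congr rfl h1, Finset.sum_ite_eq', if_pos]
  simp [small]

theorem sum_pd_mul {c : V → V → Bool} {y : ι → V} (hy : ∀ j, ∑ a, sgn (c (y j) a) = 0)
    {C : X → Finset ι} {e d : ℕ} (he : 0 < e) (hd : 1 ≤ d)
    (hexp : ∀ Y : Finset X, Y.card ≤ d + 1 → e * Y.card ≤ (bd C Y).card) (T : X → Bool)
    (x : X) : ∑ A : ι → V, pd c C T d y A * uu c y (C x) A =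
      sgn (T x) * Fintype.card (ι → V) := by
  unfold pd
  simp only [Finset.sum_mul]
  rw [Finset.sum_comm]
  have h1 : ∀ Y ∈ small X d, ∑ A : ι → V, tsgn T Y * uu c y (bd C Y) A * uu c y (C x) A =
      if Y = {x} then sgn (T x) * (Fintype.card (ι → V) : ℝ) else 0 := by
    intro Y hY
    rw [small, Finset.mem_filter] at hY
    have h2 : ∀ A, tsgn T Y * uu c y (bd C Y) A * uu c y (C x) A =
        tsgn T Y * uu c y (bd C (Y ∆ {x})) A := by
      intro A
      rw [bd_symmDiff, uu_symmDiff, bd_singleton]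
      ring
    have h3 : (Y ∆ {x}).card ≤ d + 1 := by
      have := card_symmDiff_le Y {x}
      rw [Finset.card_singleton] at this
      omega
    simp only [h2]
    rw [← Finset.mul_sum, sum_uu_bd hy he hexp h3]
    by_cases h : Y = {x}
    · rw [if_pos h, if_pos (by rw [h]; exact symmDiff_self _), h]
      simp [tsgn]
    · rw [if_neg h, if_neg, mul_zero]
      intro h4
      exact h (Finset.symmDiff_eq_empty.mp h4)
  rw [Finset.sum_congr rfl h1, Finset.sum_ite_eq', if_pos]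
  simp only [small, Finset.mem_filter, Finset.mem_univ, true_and, Finset.card_singleton]
  exact hd

theorem card_small_le (d : ℕ) : (small X d).card ≤ (Fintype.card X + 1) ^ d := by
  classical
  have h1 : small X d ⊆ (Finset.univ : Finset (Fin d → Option X)).image
      fun f => Finset.univ.filter fun x => ∃ i, f i = some x := by
    intro Y hY
    rw [small, Finset.mem_filter] at hY
    rw [Finset.mem_image]
    let l := Y.toList
    have hl : l.length ≤ d := by simpa [l] using hY.2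
    refine ⟨fun i => l[i.1]?, Finset.mem_univ _, ?_⟩
    ext x
    simp only [Finset.mem_filter, Finset.mem_univ, true_and]
    constructor
    · rintro ⟨i, hi⟩
      have := List.mem_of_getElem? hi
      simpa [l] using this
    · intro hx
      have : x ∈ l := by simpa [l] using hx
      obtain ⟨i, hi⟩ := List.mem_iff_getElem?.mp this
      have hlt : i < l.length := by
        by_contra hge
        rw [List.getElem?_eq_none (by omega)] at hi
        simp at hi
      exact ⟨⟨i, by omega⟩, hi⟩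
  refine (Finset.card_le_card h1).trans (Finset.card_image_le.trans ?_)
  simp

end Pool.Agent.H7LP
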