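import Mathlib

/-!
# Lifting: functions on `V ^ ι` against parities of random Hadamard gadgets
-/

set_option linter.unusedSectionVars false
set_option linter.unusedDecidableInType false

namespace Pool.Agent.H7LP

open Finset

variable {ι V : Type} [Fintype ι] [DecidableEq ι] [Fintype V] [DecidableEq V]

/-- `-1` for `true`, `1` for `false` -/
def sgn (b : Bool) : ℝ := if b then -1 else 1

theorem sgn_mul_self (b : Bool) : sgn b * sgn b = 1 := by cases b <;> simp [sgn]

theorem abs_sgn (b : Bool) : |sgn b| = 1 := by cases b <;> simp [sgn]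

/-- total mass -/
def mass (g : (ι → V) → ℝ) : ℝ := ∑ A, g A

/-- restriction to the subcube `A_J = a_J` -/
def pin (J : Finset ι) (a : ι → V) (g : (ι → V) → ℝ) : (ι → V) → ℝ :=
  fun A => if ∀ j ∈ J, A j = a j then g A else 0

/-- restriction to the complement of the subcube `A_J = a_J` -/
def unpin (J : Finset ι) (a : ι → V) (g : (ι → V) → ℝ) : (ι → V) → ℝ :=
  fun A => if ∀ j ∈ J, A j = a j then 0 else g A

/-- the product of the signs of the blocks in `J` -/
def uu (c : V → V → Bool) (y : ι → V) (J : Finset ι) (A : ι → V) : ℝ :=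
  ∏ j ∈ J, sgn (c (y j) (A j))

/-- the blocks in `J` with negative sign -/
def neg (c : V → V → Bool) (y : ι → V) (J : Finset ι) (A : ι → V) : Finset ι :=
  J.filter fun j => c (y j) (A j) = true

/-- restriction to a sign pattern on `J` -/
def parf (c : V → V → Bool) (y : ι → V) (J v : Finset ι) (g : (ι → V) → ℝ) : (ι → V) → ℝ :=
  fun A => if neg c y J A = v then g A else 0

theorem pin_add_unpin (J : Finset ι) (a : ι → V) (g : (ι → V) → ℝ) (A : ι → V) :
    pin J a g A + unpin J a g A = g A := by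
  unfold pin unpin; split_ifs <;> simp

theorem pin_nonneg {J : Finset ι} {a : ι → V} {g : (ι → V) → ℝ} (h : ∀ A, 0 ≤ g A) (A) :
    0 ≤ pin J a g A := by
  unfold pin; split_ifs
  · exact h A
  · exact le_rfl

theorem unpin_nonneg {J : Finset ι} {a : ι → V} {g : (ι → V) → ℝ} (h : ∀ A, 0 ≤ g A) (A) :
    0 ≤ unpin J a g A := by
  unfold unpin; split_ifs
  · exact le_rfl
  · exact h A

theorem unpin_le {J : Finset ι} {a : ι → V} {g : (ι → V) → ℝ} (h : ∀ A, 0 ≤ g A) (A) :
    unpin J a g A ≤ g A := by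
  unfold unpin; split_ifs
  · exact h A
  · exact le_rfl

theorem parf_nonneg {c : V → V → Bool} {y : ι → V} {J v : Finset ι} {g : (ι → V) → ℝ}
    (h : ∀ A, 0 ≤ g A) (A) : 0 ≤ parf c y J v g A := by
  unfold parf; split_ifs
  · exact h A
  · exact le_rfl

theorem parf_le {c : V → V → Bool} {y : ι → V} {J v : Finset ι} {g : (ι → V) → ℝ}
    (h : ∀ A, 0 ≤ g A) (A) : parf c y J v g A ≤ g A := by
  unfold parf; split_ifs
  · exact le_rfl
  · exact h A

theorem mass_nonneg {g : (ι → V) → ℝ} (h : ∀ A, 0 ≤ g A) : 0 ≤ mass g :=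
  Finset.sum_nonneg fun A _ => h A

theorem mass_mono {g g' : (ι → V) → ℝ} (h : ∀ A, g A ≤ g' A) : mass g ≤ mass g' :=
  Finset.sum_le_sum fun A _ => h A

theorem mass_pin_add (J : Finset ι) (a : ι → V) (g : (ι → V) → ℝ) :
    mass (pin J a g) + mass (unpin J a g) = mass g := by
  unfold mass
  rw [← Finset.sum_add_distrib]
  exact Finset.sum_congr rfl fun A _ => pin_add_unpin J a g A

theorem sum_parf (c : V → V → Bool) (y : ι → V) (J : Finset ι) (g : (ι → V) → ℝ)
    (A : ι → V) : ∑ v ∈ J.powerset, parf c y J v g A = g A := by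
  unfold parf
  rw [Finset.sum_ite_eq, if_pos]
  rw [Finset.mem_powerset]
  exact Finset.filter_subset _ _

theorem uu_congr {c : V → V → Bool} {y y' : ι → V} {J : Finset ι} (h : ∀ j ∈ J, y j = y' j)
    (A : ι → V) : uu c y J A = uu c y' J A :=
  Finset.prod_congr rfl fun j hj => by rw [h j hj]

theorem neg_congr {c : V → V → Bool} {y y' : ι → V} {J : Finset ι} (h : ∀ j ∈ J, y j = y' j)
    (A : ι → V) : neg c y J A = neg c y' J A :=
  Finset.filter_congr fun j hj => by rw [h j hj]

theorem parf_congr {c : V → V → Bool} {y y' : ι → V} {J : Finset ι}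
    (h : ∀ j ∈ J, y j = y' j) (v : Finset ι) (g : (ι → V) → ℝ) :
    parf c y J v g = parf c y' J v g := by
  funext A; unfold parf; rw [neg_congr h]

/-- The decomposition of `g` by a decision tree: the leaves are almost uniform on the free
blocks `R`, `s` bounds the number of parities that are queried and `κ` the number of blocks
that are fixed; `e` bounds the total mass that is discarded. -/
inductive Good (c : V → V → Bool) (γ : ℝ) (y : ι → V) :
    ((ι → V) → ℝ) → Finset ι → ℕ → ℕ → ℝ → Prop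
  | leaf (g : (ι → V) → ℝ) (R : Finset ι) (s κ : ℕ) (e : ℝ) (he : 0 ≤ e)
      (h : ∀ J ⊆ R, J.Nonempty → |∑ A, g A * uu c y J A| ≤ γ ^ J.card * mass g) :
      Good c γ y g R s κ e
  | discard (g : (ι → V) → ℝ) (R : Finset ι) (s κ : ℕ) (e : ℝ) (h : mass g ≤ e) :
      Good c γ y g R s κ e
  | par (g : (ι → V) → ℝ) (R : Finset ι) (s κ : ℕ) (e : ℝ) (J : Finset ι) (hJ : J ⊆ R)
      (hs : J.card ≤ s)
      (h : ∀ v ∈ J.powerset, Good c γ y (parf c y J v g) (R \ J) (s - J.card) κ
        (e / 2 ^ J.card)) : Good c γ y g R s κ e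
  | blk (g : (ι → V) → ℝ) (R : Finset ι) (s κ : ℕ) (J : Finset ι) (a : ι → V) (e₁ e₂ : ℝ)
      (hJ : J ⊆ R) (hκ : J.card ≤ κ)
      (h₁ : Good c γ y (pin J a g) (R \ J) s (κ - J.card) e₁)
      (h₂ : Good c γ y (unpin J a g) R s κ e₂) : Good c γ y g R s κ (e₁ + e₂)

variable {c : V → V → Bool} {γ : ℝ} {y : ι → V}

theorem Good.mono {g : (ι → V) → ℝ} {R : Finset ι} {s κ : ℕ} {e : ℝ}
    (h : Good c γ y g R s κ e) : ∀ {e' : ℝ}, e ≤ e' → Good c γ y g R s κ e' := by
  induction h with
  | leaf g R s κ e he h => intro e' hee; exact Good.leaf g R s κ e' (he.trans hee) h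
  | discard g R s κ e h => intro e' hee; exact Good.discard g R s κ e' (h.trans hee)
  | par g R s κ e J hJ hs h ih =>
    intro e' hee
    refine Good.par g R s κ e' J hJ hs fun v hv => ih v hv ?_
    gcongr
  | blk g R s κ J a e₁ e₂ hJ hκ h₁ h₂ ih₁ ih₂ =>
    intro e' hee
    have := Good.blk g R s κ J a e₁ (e' - e₁) hJ hκ h₁ (ih₂ (by linarith))
    rwa [add_sub_cancel] at this

theorem Good.congr {g : (ι → V) → ℝ} {R : Finset ι} {s κ : ℕ} {e : ℝ}
    (h : Good c γ y g R s κ e) : ∀ {y' : ι → V}, (∀ j ∈ R, y j = y' j) →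
    Good c γ y' g R s κ e := by
  induction h with
  | leaf g R s κ e he h =>
    intro y' hy
    refine Good.leaf g R s κ e he fun J hJ hne => ?_
    have := h J hJ hne
    simpa only [uu_congr (fun j hj => hy j (hJ hj))] using this
  | discard g R s κ e h => intro y' _; exact Good.discard g R s κ e h
  | par g R s κ e J hJ hs h ih =>
    intro y' hy
    refine Good.par g R s κ e J hJ hs fun v hv => ?_
    rw [← parf_congr (fun j hj => hy j (hJ hj))]
    exact ih v hv fun j hj => hy j (Finset.sdiff_subset hj)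
  | blk g R s κ J a e₁ e₂ hJ hκ h₁ h₂ ih₁ ih₂ =>
    intro y' hy
    exact Good.blk g R s κ J a e₁ e₂ hJ hκ
      (ih₁ fun j hj => hy j (Finset.sdiff_subset hj)) (ih₂ hy)

/-- outside `R` the signs are constant on the support of `g` -/
def Fixed (c : V → V → Bool) (y : ι → V) (g : (ι → V) → ℝ) (R : Finset ι) : Prop :=
  ∀ j ∉ R, ∃ b : Bool, ∀ A, g A ≠ 0 → c (y j) (A j) = b

theorem card_compl_sdiff {R J : Finset ι} (hJ : J ⊆ R) :
    ((R \ J)ᶜ).card = (Rᶜ).card + J.card := by
  have h1 := Finset.card_compl R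
  have h2 := Finset.card_compl (R \ J)
  have h3 := Finset.card_sdiff_of_subset hJ
  have h4 := Finset.card_le_card hJ
  have h5 := Finset.card_le_univ R
  omega

theorem Fixed.parf {g : (ι → V) → ℝ} {R J v : Finset ι} (h : Fixed c y g R) :
    Fixed c y (parf c y J v g) (R \ J) := by
  intro j hj
  by_cases hjR : j ∈ R
  · have hjJ : j ∈ J := by
      by_contra hne
      exact hj (Finset.mem_sdiff.mpr ⟨hjR, hne⟩)
    refine ⟨decide (j ∈ v), fun A hA => ?_⟩
    have hv : neg c y J A = v := by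
      by_contra hne
      exact hA (by simp only [H7LP.parf, if_neg hne])
    rw [← hv]
    simp [neg, hjJ]
  · obtain ⟨b, hb⟩ := h j hjR
    refine ⟨b, fun A hA => hb A fun h0 => hA ?_⟩
    simp only [H7LP.parf, h0, ite_self]

theorem Fixed.pin {g : (ι → V) → ℝ} {R J : Finset ι} {a : ι → V} (h : Fixed c y g R) :
    Fixed c y (pin J a g) (R \ J) := by
  intro j hj
  by_cases hjR : j ∈ R
  · have hjJ : j ∈ J := by
      by_contra hne
      exact hj (Finset.mem_sdiff.mpr ⟨hjR, hne⟩)
    refine ⟨c (y j) (a j), fun A hA => ?_⟩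
    have hv : ∀ j ∈ J, A j = a j := by
      by_contra hne
      exact hA (by simp only [H7LP.pin, if_neg hne])
    rw [hv j hjJ]
  · obtain ⟨b, hb⟩ := h j hjR
    refine ⟨b, fun A hA => hb A fun h0 => hA ?_⟩
    simp only [H7LP.pin, h0, ite_self]

theorem Fixed.unpin {g : (ι → V) → ℝ} {R J : Finset ι} {a : ι → V} (h : Fixed c y g R) :
    Fixed c y (unpin J a g) R := by
  intro j hj
  obtain ⟨b, hb⟩ := h j hj
  refine ⟨b, fun A hA => hb A fun h0 => hA ?_⟩
  simp only [H7LP.unpin, h0, ite_self]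

theorem Good.lower {D : (ι → V) → ℝ} {Nd tail : ℝ} {i₀ : ℕ}
    (hNd : 0 ≤ Nd) (hbd : ∀ A, |D A| ≤ Nd) (htail : 0 ≤ tail)
    (hleaf : ∀ (g : (ι → V) → ℝ) (R : Finset ι), (∀ A, 0 ≤ g A) → Fixed c y g R →
      (Rᶜ).card ≤ i₀ →
      (∀ J ⊆ R, J.Nonempty → |∑ A, g A * uu c y J A| ≤ γ ^ J.card * mass g) →
      -(tail * mass g) ≤ ∑ A, D A * g A)
    {g : (ι → V) → ℝ} {R : Finset ι} {s κ : ℕ} {e : ℝ}
    (h : Good c γ y g R s κ e) : (∀ A, 0 ≤ g A) → Fixed c y g R →
    (Rᶜ).card + s + κ ≤ i₀ → -(e * Nd + tail * mass g) ≤ ∑ A, D A * g A := by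
  induction h with
  | leaf g R s κ e he h =>
    intro hg hF hc
    have := hleaf g R hg hF (by omega) h
    have := mul_nonneg he hNd
    linarith
  | discard g R s κ e h =>
    intro hg hF hc
    have h1 : |∑ A, D A * g A| ≤ Nd * mass g := by
      unfold mass
      rw [Finset.mul_sum]
      refine (Finset.abs_sum_le_sum_abs _ _).trans (Finset.sum_le_sum fun A _ => ?_)
      rw [abs_mul, abs_of_nonneg (hg A)]
      exact mul_le_mul_of_nonneg_right (hbd A) (hg A)
    have h2 := (abs_le.mp h1).1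
    have h3 : Nd * mass g ≤ Nd * e := mul_le_mul_of_nonneg_left h hNd
    have h4 := mul_nonneg htail (mass_nonneg hg)
    linarith
  | par g R s κ e J hJ hs h ih =>
    intro hg hF hc
    have h1 : ∀ v ∈ J.powerset, -(e / 2 ^ J.card * Nd + tail * mass (parf c y J v g)) ≤
        ∑ A, D A * parf c y J v g A := by
      intro v hv
      refine ih v hv (parf_nonneg hg) hF.parf ?_
      rw [card_compl_sdiff hJ]
      omega
    have h2 := Finset.sum_le_sum h1
    have h3 : ∑ v ∈ J.powerset, ∑ A, D A * parf c y J v g A = ∑ A, D A * g A := by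
      rw [Finset.sum_comm]
      refine Finset.sum_congr rfl fun A _ => ?_
      rw [← Finset.mul_sum, sum_parf]
    have h4 : ∑ v ∈ J.powerset, mass (parf c y J v g) = mass g := by
      unfold mass
      rw [Finset.sum_comm]
      exact Finset.sum_congr rfl fun A _ => sum_parf c y J g A
    rw [h3, Finset.sum_neg_distrib, Finset.sum_add_distrib, Finset.sum_const,
      Finset.card_powerset, nsmul_eq_mul, ← Finset.mul_sum, h4] at h2
    have h5 : ((2 ^ J.card : ℕ) : ℝ) * (e / 2 ^ J.card * Nd) = e * Nd := by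
      push_cast
      field_simp
    rw [h5] at h2
    exact h2
  | blk g R s κ J a e₁ e₂ hJ hκ h₁ h₂ ih₁ ih₂ =>
    intro hg hF hc
    have k1 := ih₁ (pin_nonneg hg) hF.pin (by rw [card_compl_sdiff hJ]; omega)
    have k2 := ih₂ (unpin_nonneg hg) hF.unpin hc
    have k3 := mass_pin_add J a g
    have k4 : ∑ A, D A * pin J a g A + ∑ A, D A * unpin J a g A = ∑ A, D A * g A := by
      rw [← Finset.sum_add_distrib]
      refine Finset.sum_congr rfl fun A _ => ?_
      rw [← mul_add, pin_add_unpin]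
    rw [← k4, ← k3]
    linarith

end Pool.Agent.H7LP
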