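import Pool.Agent.H7LP.Lift2

/-!
# Most gadget strings are good: the recursion
-/

set_option linter.unusedSectionVars false
set_option linter.unusedDecidableInType false

namespace Pool.Agent.H7LP

open Finset

variable {ι V : Type} [Fintype ι] [DecidableEq ι] [Fintype V] [DecidableEq V]
variable {c : V → V → Bool}

theorem pin_pin (J J' : Finset ι) (hd : Disjoint J J') (a a' : ι → V) (g : (ι → V) → ℝ) :
    pin J' a' (pin J a g) = pin (J ∪ J') (mix J a a') g := by
  funext A
  unfold pin
  by_cases h : ∀ j ∈ J ∪ J', A j = mix J a a' j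
  · have h1 : ∀ j ∈ J', A j = a' j := by
      intro j hj
      rw [h j (Finset.mem_union_right _ hj), mix,
        if_neg (fun h => Finset.disjoint_left.mp hd h hj)]
    have h2 : ∀ j ∈ J, A j = a j := by
      intro j hj
      rw [h j (Finset.mem_union_left _ hj), mix, if_pos hj]
    rw [if_pos h, if_pos h1, if_pos h2]
  · rw [if_neg h]
    by_cases h1 : ∀ j ∈ J', A j = a' j
    · rw [if_pos h1, if_neg]
      intro h2
      apply h
      intro j hj
      by_cases hjJ : j ∈ J
      · rw [mix, if_pos hjJ, h2 j hjJ]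
      · rw [mix, if_neg hjJ]
        rcases Finset.mem_union.mp hj with h3 | h3
        · exact absurd h3 hjJ
        · exact h1 j h3
    · rw [if_neg h1]

theorem pin_empty (a : ι → V) (g : (ι → V) → ℝ) : pin ∅ a g = g := by
  funext A; simp [pin]

theorem pin_mono {J : Finset ι} {a : ι → V} {g g' : (ι → V) → ℝ} (h : ∀ A, g A ≤ g' A) (A) :
    pin J a g A ≤ pin J a g' A := by
  unfold pin; split_ifs
  · exact h A
  · exact le_rfl

theorem Cap.mono {W : ℝ} (hW : 0 ≤ W) {g g' : (ι → V) → ℝ} {R R' : Finset ι} {cc : ℝ}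
    (h : Cap W g R cc) (hg : ∀ A, g' A ≤ g A) (hR : R' ⊆ R) : Cap W g' R' cc := by
  intro J hJ a
  refine le_trans (mul_le_mul_of_nonneg_right (mass_mono (pin_mono hg)) (by positivity))
    (h J (hJ.trans hR) a)

theorem Cap.pin {W : ℝ} (hW : 0 < W) {g : (ι → V) → ℝ} {R J : Finset ι} {cc : ℝ}
    (h : Cap W g R cc) (hJ : J ⊆ R) (a : ι → V) :
    Cap W (pin J a g) (R \ J) (cc / W ^ (2 * J.card)) := by
  intro J' hJ' a'
  have hd : Disjoint J J' := by
    rw [Finset.disjoint_left]
    intro j hj hj'
    exact (Finset.mem_sdiff.mp (hJ' hj')).2 hj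
  rw [pin_pin J J' hd, le_div_iff₀ (by positivity)]
  have h1 := h (J ∪ J') (Finset.union_subset hJ (hJ'.trans Finset.sdiff_subset)) (mix J a a')
  rw [Finset.card_union_of_disjoint hd] at h1
  calc _ = mass (H7LP.pin (J ∪ J') (mix J a a') g) * W ^ (2 * (J.card + J'.card)) := by
        rw [mul_add, pow_add]; ring
    _ ≤ cc := h1

theorem Cap.mass_le [Nonempty V] {W : ℝ} {g : (ι → V) → ℝ} {R : Finset ι} {cc : ℝ}
    (h : Cap W g R cc) : mass g ≤ cc := by
  have := h ∅ (Finset.empty_subset _) (fun _ => Classical.arbitrary V)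
  rw [pin_empty] at this
  simpa using this

/-- `2 + log⁺` -/
noncomputable def AA (η M : ℝ) : ℝ := if M ≤ η then 1 else 2 + Real.log (M / η)

theorem AA_ge {η M : ℝ} (hη : 0 < η) : 1 ≤ AA η M := by
  unfold AA
  split_ifs with h
  · exact le_rfl
  · push Not at h
    have : 0 ≤ Real.log (M / η) := Real.log_nonneg (by rw [le_div_iff₀ hη]; linarith)
    linarith

theorem AA_step {η M x : ℝ} (hη : 0 < η) (hM : η < M) (hx1 : x ≤ 1) :
    x + AA η (M * (1 - x)) ≤ AA η M := by
  have h1 : AA η M = 2 + Real.log (M / η) := by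
    rw [AA, if_neg (not_le.mpr hM)]
  have h2 : 0 ≤ Real.log (M / η) := Real.log_nonneg (by rw [le_div_iff₀ hη]; linarith)
  rw [h1]
  by_cases h3 : M * (1 - x) ≤ η
  · rw [AA, if_pos h3]
    linarith
  · rw [AA, if_neg h3]
    push Not at h3
    have hM0 : 0 < M := hη.trans hM
    have h4 : 0 < 1 - x := by
      by_contra hneg
      push Not at hneg
      have := mul_nonpos_of_nonneg_of_nonpos hM0.le hneg
      linarith
    have h5 : M * (1 - x) / η = (M / η) * (1 - x) := by ring
    rw [h5, Real.log_mul (by positivity) h4.ne']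
    have h6 := Real.log_le_sub_one_of_pos h4
    linarith

/-- few strings are bad for functions that are dense on `R` -/
def DP (ι : Type) [Fintype ι] [DecidableEq ι] (c : V → V → Bool) (γ W L β : ℝ)
    (s κ : ℕ) : Prop :=
  ∀ (g : (ι → V) → ℝ) (R : Finset ι) (cc η : ℝ), (∀ A, 0 ≤ g A) → 0 < η → Dense W g R →
    Cap W g R cc → cc * (4 * L) ^ s ≤ W ^ κ * η →
    cnt (fun y => ¬ Good c γ y g R s κ η) ≤ β ^ s * (cc / η) * Fintype.card (ι → V)

/-- few strings are bad -/
def GP (ι : Type) [Fintype ι] [DecidableEq ι] (c : V → V → Bool) (γ W L β : ℝ)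
    (s κ : ℕ) : Prop :=
  ∀ (g : (ι → V) → ℝ) (R : Finset ι) (cc η : ℝ), (∀ A, 0 ≤ g A) → 0 < η →
    Cap W g R cc → cc * L * (4 * L) ^ s ≤ W ^ κ * η →
    cnt (fun y => ¬ Good c γ y g R s κ η) ≤
      L ^ 2 * β ^ s * (cc / η) * Fintype.card (ι → V)

theorem exists_violation {W : ℝ} (hW : 1 ≤ W) {g : (ι → V) → ℝ} {R : Finset ι}
    (hD : ¬ Dense W g R) :
    ∃ J ⊆ R, J.Nonempty ∧ ∃ a : ι → V, mass g < mass (pin J a g) * W ^ J.card ∧
      Dense W (pin J a g) (R \ J) := by
  classical
  have h0 : (R.powerset.filter fun J => J.Nonempty ∧ ∃ a : ι → V,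
      mass g < mass (pin J a g) * W ^ J.card).Nonempty := by
    unfold Dense at hD
    push Not at hD
    obtain ⟨J, hJ, hne, a, ha⟩ := hD
    exact ⟨J, by simp only [Finset.mem_filter, Finset.mem_powerset]; exact ⟨hJ, hne, a, ha⟩⟩
  obtain ⟨J, hJ, hmax⟩ := Finset.exists_max_image _ (fun J => J.card) h0
  simp only [Finset.mem_filter, Finset.mem_powerset] at hJ hmax
  obtain ⟨hJR, hne, a, ha⟩ := hJ
  refine ⟨J, hJR, hne, a, ha, ?_⟩
  intro J' hJ' hne' a'
  by_contra hlt
  push Not at hlt
  have hd : Disjoint J J' := by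
    rw [Finset.disjoint_left]
    intro j hj hj'
    exact (Finset.mem_sdiff.mp (hJ' hj')).2 hj
  have h1 := hmax (J ∪ J') ⟨Finset.union_subset hJR (hJ'.trans Finset.sdiff_subset),
    hne.mono Finset.subset_union_left, mix J a a', by
      rw [← pin_pin J J' hd, Finset.card_union_of_disjoint hd, pow_add]
      calc mass g < mass (pin J a g) * W ^ J.card := ha
        _ ≤ (mass (pin J' a' (pin J a g)) * W ^ J'.card) * W ^ J.card :=
          mul_le_mul_of_nonneg_right hlt.le (by positivity)
        _ = _ := by ring⟩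
  rw [Finset.card_union_of_disjoint hd] at h1
  have := hne'.card_pos
  omega

theorem gen_inner [Nonempty V] {γ W L β : ℝ} {s κ : ℕ} (hW : 1 ≤ W) (hβ : 0 ≤ β)
    (hD : ∀ κ' ≤ κ, DP ι c γ W L β s κ') {R : Finset ι} {cc η : ℝ} (hη : 0 < η)
    (hL : 1 ≤ L) (hcc : cc * (4 * L) ^ s ≤ W ^ κ * η) : ∀ (n : ℕ) (g : (ι → V) → ℝ),
    (∀ A, 0 ≤ g A) → (Finset.univ.filter fun A => g A ≠ 0).card ≤ n → Cap W g R cc →
    cnt (fun y => ¬ Good c γ y g R s κ (η * AA η (mass g))) ≤
      β ^ s * (cc / η) * AA η (mass g) * Fintype.card (ι → V) := by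
  intro n
  induction n with
  | zero =>
    intro g hg hn hcap
    have h0 : ∀ A, g A = 0 := by
      intro A
      by_contra hne
      have : A ∈ Finset.univ.filter fun A => g A ≠ 0 := by simp [hne]
      rw [Nat.le_zero, Finset.card_eq_zero] at hn
      rw [hn] at this
      simp at this
    have hm : mass g = 0 := by simp [mass, h0]
    have hcc0 : 0 ≤ cc := by have := hcap.mass_le; rwa [hm] at this
    rw [cnt_false]
    · have := AA_ge (M := mass g) hη
      have h1 : (0 : ℝ) ≤ Fintype.card (ι → V) := Nat.cast_nonneg _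
      have h2 : 0 ≤ cc / η := div_nonneg hcc0 hη.le
      positivity
    · intro y hy
      refine hy (Good.discard _ _ _ _ _ ?_)
      rw [hm, AA, if_pos hη.le]
      linarith
  | succ n ih =>
    intro g hg hn hcap
    have hcc0 : 0 ≤ cc := (mass_nonneg hg).trans hcap.mass_le
    have hN0 : (0 : ℝ) ≤ Fintype.card (ι → V) := Nat.cast_nonneg _
    have hq0 : 0 ≤ cc / η := div_nonneg hcc0 hη.le
    have hAA := AA_ge (M := mass g) hη
    by_cases hm : mass g ≤ η
    · rw [cnt_false]
      · positivity
      · intro y hy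
        refine hy (Good.discard _ _ _ _ _ ?_)
        rw [AA, if_pos hm]
        linarith
    · have hm' : η < mass g := not_le.mp hm
      by_cases hdense : Dense W g R
      · have h1 := hD κ le_rfl g R cc η hg hη hdense hcap hcc
        refine (cnt_mono fun y hy => ?_).trans (h1.trans ?_)
        · intro hgood
          exact hy (hgood.mono (le_mul_of_one_le_right hη.le hAA))
        · refine mul_le_mul_of_nonneg_right ?_ hN0
          exact le_mul_of_one_le_right (by positivity) hAA
      · obtain ⟨J, hJR, hne, a, ha, hdense'⟩ := exists_violation hW hdense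
        obtain ⟨x, hx⟩ : ∃ x, x = mass (pin J a g) / mass g := ⟨_, rfl⟩
        have hmg : 0 < mass g := hη.trans hm'
        have hWJ : (1 : ℝ) ≤ W ^ J.card := one_le_pow₀ hW
        have hm1 : mass (pin J a g) = x * mass g := by rw [hx]; field_simp
        have hx1 : x ≤ 1 := by
          rw [hx, div_le_one hmg]
          have := mass_pin_add J a g
          have := mass_nonneg (unpin_nonneg (J := J) (a := a) hg)
          linarith
        have hxW : 1 < x * W ^ J.card := by
          rw [hm1] at ha
          have : 1 * mass g < (x * W ^ J.card) * mass g := by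
            calc 1 * mass g = mass g := one_mul _
              _ < _ := ha
              _ = _ := by ring
          exact lt_of_mul_lt_mul_right this hmg.le
        have hx0 : 0 < x := by
          by_contra hneg
          push Not at hneg
          have := mul_nonpos_of_nonpos_of_nonneg hneg (by positivity : 0 ≤ W ^ J.card)
          linarith
        have hm2 : mass (unpin J a g) = mass g * (1 - x) := by
          have := mass_pin_add J a g
          rw [hm1] at this
          linarith
        -- the size of `J`
        have hcap1 := hcap.pin (by positivity) hJR a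
        have hWcc : cc ≤ W ^ κ * η := by
          refine le_trans ?_ hcc
          exact le_mul_of_one_le_right hcc0 (one_le_pow₀ (by linarith))
        have hJκ : J.card ≤ κ := by
          by_contra hlt
          push Not at hlt
          have h1 := hcap1.mass_le
          rw [hm1, le_div_iff₀ (by positivity)] at h1
          have h2 : mass g * W ^ J.card < cc := by
            calc mass g * W ^ J.card = 1 * (mass g * W ^ J.card) := (one_mul _).symm
              _ < (x * W ^ J.card) * (mass g * W ^ J.card) :=
                mul_lt_mul_of_pos_right hxW (by positivity)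
              _ = x * mass g * W ^ (2 * J.card) := by rw [two_mul, pow_add]; ring
              _ ≤ cc := h1
          have h3 : W ^ κ * η ≤ W ^ J.card * η :=
            mul_le_mul_of_nonneg_right (pow_le_pow_right₀ hW hlt.le) hη.le
          have h4 : W ^ J.card * η ≤ mass g * W ^ J.card := by
            rw [mul_comm]
            exact mul_le_mul_of_nonneg_right hm'.le (by positivity)
          linarith
        -- first part
        have hpart1 : cnt (fun y => ¬ Good c γ y (pin J a g) (R \ J) s (κ - J.card) (η * x)) ≤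
            β ^ s * (cc / η) * x * Fintype.card (ι → V) := by
          have h1 := hD (κ - J.card) (Nat.sub_le _ _) (pin J a g) (R \ J)
            (cc / W ^ (2 * J.card)) (η * x) (pin_nonneg hg) (by positivity) hdense' hcap1 (by
              rw [div_mul_eq_mul_div, div_le_iff₀ (by positivity)]
              calc cc * (4 * L) ^ s ≤ W ^ κ * η := hcc
                _ ≤ (W ^ κ * η) * (x * W ^ J.card) := by
                  exact le_mul_of_one_le_right (by positivity) hxW.le
                _ = W ^ (κ - J.card) * (η * x) * W ^ (2 * J.card) := by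
                  have : W ^ κ = W ^ (κ - J.card) * W ^ J.card := by
                    rw [← pow_add]; congr 1; omega
                  rw [this, two_mul, pow_add]
                  ring)
          refine h1.trans (mul_le_mul_of_nonneg_right ?_ hN0)
          rw [mul_assoc]
          refine mul_le_mul_of_nonneg_left ?_ (by positivity)
          rw [div_div, div_le_iff₀ (by positivity)]
          calc cc = cc * 1 := (mul_one _).symm
            _ ≤ cc * ((x * W ^ J.card) * (x * W ^ J.card)) := by
              refine mul_le_mul_of_nonneg_left ?_ hcc0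
              nlinarith
            _ = cc / η * x * (W ^ (2 * J.card) * (η * x)) := by
              rw [two_mul, pow_add]
              field_simp
        -- second part
        have hpart2 := ih (unpin J a g) (unpin_nonneg hg) (by
          have hex : ∃ A, pin J a g A ≠ 0 := by
            by_contra hne
            push Not at hne
            have : mass (pin J a g) = 0 := by simp [mass, hne]
            rw [hm1] at this
            rcases mul_eq_zero.mp this with h | h
            · exact hx0.ne' h
            · exact hmg.ne' h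
          obtain ⟨A, hA⟩ := hex
          have hss : (Finset.univ.filter fun A => unpin J a g A ≠ 0) ⊂
              (Finset.univ.filter fun A => g A ≠ 0) := by
            rw [Finset.ssubset_iff_of_subset]
            · refine ⟨A, ?_, ?_⟩
              · simp only [Finset.mem_filter, Finset.mem_univ, true_and]
                intro h0
                exact hA (by simp [pin, h0])
              · simp only [Finset.mem_filter, Finset.mem_univ, true_and, not_not]
                unfold unpin
                rw [if_pos]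
                by_contra hne
                exact hA (by rw [pin, if_neg hne])
            · intro B hB
              simp only [Finset.mem_filter, Finset.mem_univ, true_and] at hB ⊢
              intro h0
              exact hB (by simp [unpin, h0])
          have := Finset.card_lt_card hss
          omega) (hcap.mono (by positivity) (unpin_le hg) Finset.Subset.rfl)
        rw [hm2] at hpart2
        have hstep := AA_step hη hm' hx1
        have hcomb : ∀ y, ¬ Good c γ y g R s κ (η * AA η (mass g)) →
            (¬ Good c γ y (pin J a g) (R \ J) s (κ - J.card) (η * x)) ∨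
            ¬ Good c γ y (unpin J a g) R s κ (η * AA η (mass g * (1 - x))) := by
          intro y hy
          by_contra hcon
          push Not at hcon
          refine hy ((Good.blk g R s κ J a _ _ hJR hJκ hcon.1 hcon.2).mono ?_)
          rw [← mul_add]
          exact mul_le_mul_of_nonneg_left hstep hη.le
        refine (cnt_mono hcomb).trans ((cnt_or _ _).trans ((add_le_add hpart1 hpart2).trans ?_))
        rw [← add_mul, ← mul_add]
        refine mul_le_mul_of_nonneg_right ?_ hN0
        exact mul_le_mul_of_nonneg_left hstep (by positivity)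

theorem gen_of_dense [Nonempty V] {γ W L β : ℝ} {s κ : ℕ} (hW : 1 ≤ W) (hβ : 0 ≤ β)
    (hL : 1 ≤ L) (hLκ : 2 + κ * Real.log W ≤ L) (hD : ∀ κ' ≤ κ, DP ι c γ W L β s κ') :
    GP ι c γ W L β s κ := by
  intro g R cc η hg hη hcap hcc
  have hη' : 0 < η / L := by positivity
  have hcc0 : 0 ≤ cc := (mass_nonneg hg).trans hcap.mass_le
  have hcc' : cc * (4 * L) ^ s ≤ W ^ κ * (η / L) := by
    rw [← mul_div_assoc, le_div_iff₀ (by positivity)]
    linarith
  have h1 := gen_inner hW hβ hD hη' hL hcc' _ g hg le_rfl hcap
  have h2 : AA (η / L) (mass g) ≤ L := by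
    unfold AA
    split_ifs with h
    · exact hL
    · push Not at h
      have h3 : mass g / (η / L) ≤ W ^ κ := by
        rw [div_le_iff₀ hη']
        refine hcap.mass_le.trans (le_trans ?_ hcc')
        exact le_mul_of_one_le_right hcc0 (one_le_pow₀ (by linarith))
      have h4 : Real.log (mass g / (η / L)) ≤ κ * Real.log W := by
        rw [← Real.log_pow]
        exact Real.log_le_log (div_pos (hη'.trans h) hη') h3
      linarith
  have hN0 : (0 : ℝ) ≤ Fintype.card (ι → V) := Nat.cast_nonneg _
  refine (cnt_mono fun y hy => ?_).trans (h1.trans ?_)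
  · intro hgood
    refine hy (hgood.mono ?_)
    calc η / L * AA (η / L) (mass g) ≤ η / L * L := mul_le_mul_of_nonneg_left h2 hη'.le
      _ = η := by field_simp
  · refine mul_le_mul_of_nonneg_right ?_ hN0
    have h5 : cc / (η / L) = L * (cc / η) := by field_simp
    rw [h5]
    have h6 : 0 ≤ cc / η := div_nonneg hcc0 hη.le
    calc β ^ s * (L * (cc / η)) * AA (η / L) (mass g) ≤ β ^ s * (L * (cc / η)) * L :=
          mul_le_mul_of_nonneg_left h2 (by positivity)
      _ = L ^ 2 * β ^ s * (cc / η) := by ring

theorem dense_of_gen [Nonempty V] (hc : Orth c) {γ W L β : ℝ} {s κ : ℕ} (hW : 1 ≤ W)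
    (hγ : 0 < γ) (hβ : 0 < β) (hβ1 : β ≤ 1) (hL : 1 ≤ L)
    (hsum : L ^ 2 * ((1 + 4 * (1 / (W * γ ^ 2)) / β) ^ Fintype.card ι - 1) ≤ 1)
    (hG : ∀ s' < s, GP ι c γ W L β s' κ) : DP ι c γ W L β s κ := by
  intro g R cc η hg hη hdense hcap hcc
  obtain ⟨ω, hω⟩ : ∃ ω, ω = 1 / (W * γ ^ 2) := ⟨_, rfl⟩
  rw [← hω] at hsum
  have hω0 : 0 < ω := by rw [hω]; positivity
  obtain ⟨x, hx⟩ : ∃ x, x = 4 * ω / β := ⟨_, rfl⟩
  rw [← hx] at hsum
  have hx0 : 0 < x := by rw [hx]; positivity
  have hxβ : x * β = 4 * ω := by rw [hx]; field_simp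
  have hcc0 : 0 ≤ cc := (mass_nonneg hg).trans hcap.mass_le
  have hN : (0 : ℝ) < Fintype.card (ι → V) := by exact_mod_cast Fintype.card_pos
  have hq0 : 0 ≤ cc / η := div_nonneg hcc0 hη.le
  by_cases hm : mass g ≤ η
  · rw [cnt_false]
    · positivity
    · intro y hy
      exact hy (Good.discard _ _ _ _ _ hm)
  have hm' : η < mass g := not_le.mp hm
  have hmg : 0 < mass g := hη.trans hm'
  have hq1 : 1 ≤ cc / η := by
    rw [le_div_iff₀ hη]
    linarith [hcap.mass_le]
  -- the events
  let P : Finset ι → (ι → V) → Prop := fun J y =>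
    γ ^ J.card * mass g < |∑ A, g A * uu c y J A|
  let Q : Finset ι → (ι → V) → (ι → V) → Prop := fun J y₁ y₂ =>
    ∃ v ∈ J.powerset, ¬ Good c γ y₂ (parf c y₁ J v g) (R \ J) (s - J.card) κ (η / 2 ^ J.card)
  have hcover : ∀ y, ¬ Good c γ y g R s κ η →
      ∃ J ∈ R.powerset.erase ∅, P J y ∧ (J.card ≤ s → Q J y y) := by
    intro y hy
    by_contra hcon
    push Not at hcon
    by_cases hleaf : ∀ J ⊆ R, J.Nonempty → |∑ A, g A * uu c y J A| ≤ γ ^ J.card * mass g
    · exact hy (Good.leaf _ _ _ _ _ hη.le hleaf)
    · push Not at hleaf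
      obtain ⟨J, hJ, hne, hlt⟩ := hleaf
      obtain ⟨h1, h2⟩ := hcon J (by
        rw [Finset.mem_erase, Finset.mem_powerset]
        exact ⟨hne.ne_empty, hJ⟩) hlt
      refine hy (Good.par g R s κ η J hJ h1 fun v hv => ?_)
      by_contra hbad
      exact h2 ⟨v, hv, hbad⟩
  have hJ : ∀ J ∈ R.powerset.erase ∅, cnt (fun y => P J y ∧ (J.card ≤ s → Q J y y)) ≤
      x ^ J.card * (L ^ 2 * (β ^ s * (cc / η) * Fintype.card (ι → V))) := by
    intro J hJ
    rw [Finset.mem_erase, Finset.mem_powerset] at hJ
    obtain ⟨hne, hJR⟩ := hJ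
    have hne' : J.Nonempty := Finset.nonempty_iff_ne_empty.mpr hne
    have hP := cnt_bad_le hc (by positivity : 0 < W) hγ hg hmg hdense hJR hne'
    rw [← hω] at hP
    change cnt (P J) ≤ _ at hP
    by_cases hs : J.card ≤ s
    · have hB : ∀ y₁, P J y₁ → cnt (Q J y₁) ≤ 2 ^ J.card *
          (L ^ 2 * β ^ (s - J.card) * (cc / (η / 2 ^ J.card)) * Fintype.card (ι → V)) := by
        intro y₁ _
        refine (cnt_exists _ _).trans ?_
        have hlt : s - J.card < s := by
          have := hne'.card_pos
          omega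
        have h1 : ∀ v ∈ J.powerset, cnt (fun y₂ => ¬ Good c γ y₂ (parf c y₁ J v g) (R \ J)
            (s - J.card) κ (η / 2 ^ J.card)) ≤
            L ^ 2 * β ^ (s - J.card) * (cc / (η / 2 ^ J.card)) * Fintype.card (ι → V) := by
          intro v _
          refine hG _ hlt _ _ _ _ (parf_nonneg hg) (by positivity)
            (hcap.mono (by positivity) (parf_le hg) Finset.sdiff_subset) ?_
          rw [mul_div_assoc', le_div_iff₀ (by positivity)]
          refine le_trans ?_ hcc
          have h2 : (4 * L) ^ s = (4 * L) ^ (s - J.card) * (4 * L) ^ J.card := by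
            rw [← pow_add]; congr 1; omega
          rw [h2]
          have h3 : L * 2 ^ J.card ≤ (4 * L) ^ J.card := by
            rw [mul_pow]
            have h4 : L ≤ L ^ J.card := le_self_pow₀ hL hne'.card_pos.ne'
            have h5 : (2 : ℝ) ^ J.card ≤ 4 ^ J.card := by gcongr; norm_num
            calc L * 2 ^ J.card ≤ L ^ J.card * 4 ^ J.card := by gcongr
              _ = _ := mul_comm _ _
          calc cc * L * (4 * L) ^ (s - J.card) * 2 ^ J.card
              = (cc * (4 * L) ^ (s - J.card)) * (L * 2 ^ J.card) := by ring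
            _ ≤ (cc * (4 * L) ^ (s - J.card)) * (4 * L) ^ J.card :=
                mul_le_mul_of_nonneg_left h3 (by positivity)
            _ = _ := by ring
        refine (Finset.sum_le_sum h1).trans (le_of_eq ?_)
        rw [Finset.sum_const, Finset.card_powerset, nsmul_eq_mul]
        push_cast
        ring
      have hdec := decouple J (P J) (Q J) (by
          intro y y' hyy h
          change _ < _ at h ⊢
          simpa only [uu_congr hyy] using h) (by
          rintro y₁ y₁' y₂ y₂' h1 h2 ⟨v, hv, hbad⟩
          refine ⟨v, hv, fun hgood => hbad ?_⟩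
          rw [parf_congr h1]
          refine hgood.congr fun j hj => (h2 j ?_).symm
          exact (Finset.mem_sdiff.mp hj).2) hB
      have h1 : cnt (fun y => P J y ∧ (J.card ≤ s → Q J y y)) ≤
          cnt (fun y => P J y ∧ Q J y y) := cnt_mono fun y hy => ⟨hy.1, hy.2 hs⟩
      refine h1.trans ?_
      rw [← mul_le_mul_iff_left₀ hN]
      refine hdec.trans ?_
      refine (mul_le_mul_of_nonneg_right hP (by positivity)).trans (le_of_eq ?_)
      have h2 : β ^ s = β ^ (s - J.card) * β ^ J.card := by
        rw [← pow_add]; congr 1; omega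
      have h3 : x ^ J.card * β ^ J.card = 4 ^ J.card * ω ^ J.card := by
        rw [← mul_pow, hxβ, mul_pow]
      have h4 : (4 : ℝ) ^ J.card = 2 ^ J.card * 2 ^ J.card := by
        rw [← mul_pow]; norm_num
      have h5 : cc / (η / 2 ^ J.card) = (cc / η) * 2 ^ J.card := by field_simp
      rw [h5, h2]
      calc _ = (2 ^ J.card * 2 ^ J.card * ω ^ J.card) * (L ^ 2 * β ^ (s - J.card) * (cc / η) *
              Fintype.card (ι → V) * Fintype.card (ι → V)) := by ring
        _ = (x ^ J.card * β ^ J.card) * (L ^ 2 * β ^ (s - J.card) * (cc / η) *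
              Fintype.card (ι → V) * Fintype.card (ι → V)) := by rw [h3, h4]
        _ = _ := by ring
    · push Not at hs
      have h1 : cnt (fun y => P J y ∧ (J.card ≤ s → Q J y y)) ≤ cnt (P J) :=
        cnt_mono fun y hy => hy.1
      refine h1.trans (hP.trans ?_)
      have h2 : ω ^ J.card ≤ x ^ J.card * β ^ s := by
        calc ω ^ J.card ≤ (x * β) ^ J.card := by
              rw [hxβ]
              gcongr
              linarith
          _ = x ^ J.card * β ^ J.card := mul_pow _ _ _
          _ ≤ x ^ J.card * β ^ s := by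
              refine mul_le_mul_of_nonneg_left ?_ (by positivity)
              exact pow_le_pow_of_le_one hβ.le hβ1 hs.le
      have h3 : (1 : ℝ) ≤ L ^ 2 * (cc / η) := by
        have : (1 : ℝ) ≤ L ^ 2 := one_le_pow₀ hL
        nlinarith
      calc ω ^ J.card * Fintype.card (ι → V) ≤ (x ^ J.card * β ^ s) * Fintype.card (ι → V) :=
            mul_le_mul_of_nonneg_right h2 hN.le
        _ ≤ ((x ^ J.card * β ^ s) * Fintype.card (ι → V)) * (L ^ 2 * (cc / η)) :=
            le_mul_of_one_le_right (by positivity) h3
        _ = _ := by ring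
  have hfin := (cnt_mono hcover).trans ((cnt_exists _ _).trans (Finset.sum_le_sum hJ))
  refine hfin.trans ?_
  rw [← Finset.sum_mul]
  have hsumx : ∑ J ∈ R.powerset.erase ∅, x ^ J.card ≤ (1 + x) ^ Fintype.card ι - 1 := by
    have h1 := Finset.sum_pow_mul_eq_add_pow x 1 R
    simp only [one_pow, mul_one] at h1
    have h2 := Finset.add_sum_erase R.powerset (fun J => x ^ J.card)
      (Finset.empty_mem_powerset R)
    simp only [Finset.card_empty, pow_zero] at h2
    have h3 : (x + 1) ^ R.card ≤ (x + 1) ^ Fintype.card ι :=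
      pow_le_pow_right₀ (by linarith) (Finset.card_le_univ R)
    rw [add_comm 1 x]
    linarith
  calc (∑ J ∈ R.powerset.erase ∅, x ^ J.card) *
        (L ^ 2 * (β ^ s * (cc / η) * Fintype.card (ι → V)))
      ≤ ((1 + x) ^ Fintype.card ι - 1) *
        (L ^ 2 * (β ^ s * (cc / η) * Fintype.card (ι → V))) :=
        mul_le_mul_of_nonneg_right hsumx (by positivity)
    _ = (L ^ 2 * ((1 + x) ^ Fintype.card ι - 1)) * (β ^ s * (cc / η) *
          Fintype.card (ι → V)) := by ring
    _ ≤ 1 * (β ^ s * (cc / η) * Fintype.card (ι → V)) :=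
        mul_le_mul_of_nonneg_right hsum (by positivity)
    _ = _ := one_mul _

/-- **The lifting lemma.** -/
theorem gp_all [Nonempty V] (hc : Orth c) {γ W L β : ℝ} {κ₀ : ℕ} (hW : 1 ≤ W)
    (hγ : 0 < γ) (hβ : 0 < β) (hβ1 : β ≤ 1) (hL : 1 ≤ L)
    (hLκ : 2 + κ₀ * Real.log W ≤ L)
    (hsum : L ^ 2 * ((1 + 4 * (1 / (W * γ ^ 2)) / β) ^ Fintype.card ι - 1) ≤ 1) (s : ℕ) :
    ∀ κ ≤ κ₀, GP ι c γ W L β s κ := by
  induction s using Nat.strong_induction_on with
  | _ s ih =>
    have hD : ∀ κ ≤ κ₀, DP ι c γ W L β s κ := fun κ hκ =>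
      dense_of_gen hc hW hγ hβ hβ1 hL hsum fun s' hs' => ih s' hs' κ hκ
    intro κ hκ
    refine gen_of_dense hW hβ.le hL (le_trans ?_ hLκ) fun κ' hκ' => hD κ' (hκ'.trans hκ)
    have h1 : 0 ≤ Real.log W := Real.log_nonneg hW
    have h2 : (κ : ℝ) ≤ κ₀ := by exact_mod_cast hκ
    nlinarith

end Pool.Agent.H7LP
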