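import Pool.Agent.H7LP.Core

/-!
# The choice of the parameters, I
-/

namespace Pool.Agent.H7LP

open Finset
open Pool.Agent.H87.PMCSP (Circuit gop truthTable circuitPolytope HasExtension)

theorem exp_le_one_add_two {y : ℝ} (h0 : 0 ≤ y) (h1 : y ≤ 1) : Real.exp y ≤ 1 + 2 * y := by
  have h := Real.abs_exp_sub_one_sub_id_le (x := y) (by rw [abs_of_nonneg h0]; exact h1)
  have h2 := (abs_le.mp h).2
  nlinarith

theorem one_add_pow_le {x : ℝ} (hx : 0 ≤ x) {D : ℕ} (hD : D * x ≤ 1) :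
    (1 + x) ^ D ≤ 1 + 2 * (D * x) := by
  calc (1 + x) ^ D ≤ (Real.exp x) ^ D := by
        rw [add_comm]
        exact pow_le_pow_left₀ (by positivity) (Real.add_one_le_exp x) _
    _ = Real.exp (D * x) := by rw [← Real.exp_nat_mul]
    _ ≤ 1 + 2 * (D * x) := exp_le_one_add_two (by positivity) hD

theorem core2 {a e t n s r : ℕ} (ht : 3 ≤ t) (hta : 8 * (t + 1) ≤ 3 * a) (ha : 2 * t + 4 ≤ a)
    (he : 1 ≤ e) (hea : e ≤ 2 ^ a) (hn : 772 * (e * a) ≤ n)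
    (hs : 4 * e * (2 ^ a * (6 * 192 + 4)) + 1 ≤ s)
    {K : Set ((Fin n → Bool) → ℝ)} (hK : circuitPolytope n s ⊆ K) (hext : HasExtension K r)
    (hr : (r : ℝ) + 1 ≤ 2 ^ (3 * (a * (e * 2 ^ (a - 2 * t - 4)))))
    (hsound : ∀ (p : Fin (2 ^ (t * e)) → Fin n → Bool) (Q : Finset (Fin n)),
      Function.Injective p → Q.card ≤ 772 * (e * a) → (∀ x, ∀ q ∉ Q, p x q = false) →
      ∃ T : Fin (2 ^ (t * e)) → Bool, ∀ v ∈ K, ∑ x, sgn (T x) * (1 - 2 * v (p x)) ≤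
        (1 - 2 * (1 / 2 ^ (3 * (a * (e * 2 ^ (a - 2 * t - 4)))))) * (2 ^ (t * e) : ℕ)) :
    False := by
  obtain ⟨δ, hδ⟩ : ∃ δ, δ = 2 ^ (a - 2 * t - 4) := ⟨_, rfl⟩
  rw [← hδ] at hr hsound
  have hδ0 : 0 < δ := by rw [hδ]; positivity
  have hδa : 16 * (4 ^ t * δ) = 2 ^ a := by
    rw [hδ, show (4 : ℕ) = 2 ^ 2 from rfl, show (16 : ℕ) = 2 ^ 4 from rfl, ← pow_mul, ← pow_add,
      ← pow_add]
    congr 1
    omega
  obtain ⟨σ, hσ⟩ : ∃ σ, σ = e * δ := ⟨_, rfl⟩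
  rw [← hσ] at hr hsound
  have hσ1 : 1 ≤ σ := by rw [hσ]; exact Nat.mul_pos he hδ0
  -- expander
  obtain ⟨G, hG⟩ := exists_expander (X := Fin (2 ^ (t * e))) (m := 2 ^ a) (k := 4 * e) (e := e)
    (M := 16 * δ) (by positivity) (τ := 1 / 2 ^ t) (by positivity)
    (by rw [div_le_one (by positivity)]; exact one_le_pow₀ (by norm_num)) (by
      have h1 : ((16 * (4 ^ t * δ) : ℕ) : ℝ) = 2 ^ a := by rw [hδa]; push_cast; rfl
      push_cast at h1 ⊢
      rw [← h1]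
      have h2 : (4 : ℝ) ^ t = (2 ^ t) ^ 2 := by
        rw [← pow_mul, mul_comm t 2, pow_mul]; norm_num
      rw [h2]
      apply le_of_eq
      field_simp) (by
      rw [Fintype.card_fin]
      push_cast
      have h1 : (2 : ℝ) * (1 / 2 ^ t) = 1 / 2 ^ (t - 1) := by
        have : (2 : ℝ) ^ t = 2 ^ (t - 1) * 2 := by rw [← pow_succ]; congr 1; omega
        rw [this]; field_simp
      rw [h1, div_pow, div_pow, one_pow, one_pow, ← pow_mul, ← pow_mul]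
      have h2 : (2 : ℝ) ^ (t * e) * (1 / 2 ^ ((t - 1) * (4 * e)) / (1 / 2 ^ (t * e))) =
          2 ^ (t * e + t * e) / 2 ^ ((t - 1) * (4 * e)) := by
        rw [pow_add]; field_simp
      rw [h2, div_le_div_iff₀ (by positivity) (by norm_num), one_mul, ← pow_succ]
      refine pow_le_pow_right₀ (by norm_num) ?_
      obtain ⟨t', rfl⟩ : ∃ t', t = t' + 3 := ⟨t - 3, by omega⟩
      have : (t' + 3 - 1) = t' + 2 := by omega
      rw [this]
      nlinarith)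
  have ha11 : 11 ≤ a := by omega
  have hσa : 1024 * σ ≤ 2 ^ a * 2 ^ a := by
    have h1 : 64 ≤ 4 ^ t := by
      calc 64 = 4 ^ 3 := by norm_num
        _ ≤ 4 ^ t := Nat.pow_le_pow_right (by norm_num) ht
    have h2 : 1024 * δ ≤ 2 ^ a := by
      rw [← hδa]
      calc 1024 * δ = 16 * (64 * δ) := by ring
        _ ≤ 16 * (4 ^ t * δ) := by gcongr
    calc 1024 * σ = e * (1024 * δ) := by rw [hσ]; ring
      _ ≤ 2 ^ a * 2 ^ a := Nat.mul_le_mul hea h2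
  have hDle : 4 * e * 2 ^ a ≤ 2 ^ (2 + 2 * a) := by
    calc 4 * e * 2 ^ a ≤ 4 * 2 ^ a * 2 ^ a := by gcongr
      _ = 2 ^ (2 + 2 * a) := by rw [pow_add, two_mul, pow_add]; ring
  have hDle' : ((4 * e * 2 ^ a : ℕ) : ℝ) ≤ 2 ^ (2 + 2 * a) := by exact_mod_cast hDle
  have haσ : a ≤ a * σ := Nat.le_mul_of_pos_right _ hσ1
  have hcnt : 4 * e * (a + 2 * (96 * a)) = 772 * (e * a) := by ring
  refine core (β := Fin 192 × Fin a) (k := 4 * e) (a := a) (w := 96 * a) (e := e) (δ := δ)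
    (by simp; ring) G he hδ0 hG (by rw [hcnt]; exact hn) ?_ (by positivity)
    (γ := 1 / 2 ^ (6 * a)) (b := 1 / 2 ^ (60 * a)) (L := 2 ^ (6 * a))
    (η := 1 / 2 ^ (3 * (a * σ))) (B := 2 ^ (3 * (a * σ))) ?_ (by positivity) ?_ (by positivity) ?_
    ?_ ?_ (by positivity) ?_ (one_le_pow₀ (by norm_num)) ?_ ?_ ?_ ?_ hK hext
    (by rw [hcnt]; exact hsound)
  · intro pos A
    have hn0 : 0 < n := by
      have : 0 < e * a := Nat.mul_pos he (by omega)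
      omega
    obtain ⟨c, hc1, hc2⟩ := exists_tabFn_circuit ⟨0, hn0⟩ le_rfl pos A
    exact ⟨c, hc1.trans hs, hc2⟩
  · have h1 := card_small_le (X := Fin (2 ^ (t * e))) (8 * δ)
    rw [Fintype.card_fin] at h1
    have h2 : (2 ^ (t * e) + 1) ^ (8 * δ) ≤ 2 ^ (3 * (a * σ)) := by
      calc (2 ^ (t * e) + 1) ^ (8 * δ) ≤ (2 ^ (t * e + 1)) ^ (8 * δ) := by
            apply Nat.pow_le_pow_left
            rw [pow_succ]
            have : 1 ≤ 2 ^ (t * e) := Nat.one_le_two_pow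
            omega
        _ = 2 ^ ((t * e + 1) * (8 * δ)) := by rw [← pow_mul]
        _ ≤ 2 ^ (3 * (a * σ)) := by
            apply Nat.pow_le_pow_right (by norm_num)
            rw [hσ]
            have h3 : t * e + 1 ≤ (t + 1) * e := by rw [Nat.add_mul, one_mul]; omega
            calc (t * e + 1) * (8 * δ) ≤ ((t + 1) * e) * (8 * δ) := Nat.mul_le_mul_right _ h3
              _ = (8 * (t + 1)) * (e * δ) := by ring
              _ ≤ (3 * a) * (e * δ) := by gcongr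
              _ = 3 * (a * (e * δ)) := by ring
    exact_mod_cast h1.trans h2
  · rw [div_le_one (by positivity)]
    exact one_le_pow₀ (by norm_num)
  · rw [div_le_one (by positivity)]
    exact one_le_pow₀ (by norm_num)
  · -- `(1 + γ)^D ≤ 2`
    have h1 : ((4 * e * 2 ^ a : ℕ) : ℝ) * (1 / 2 ^ (6 * a)) ≤ 1 / 2 := by
      rw [mul_one_div, div_le_div_iff₀ (by positivity) (by norm_num), one_mul]
      calc ((4 * e * 2 ^ a : ℕ) : ℝ) * 2 ≤ 2 ^ (2 + 2 * a) * 2 := by gcongr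
        _ = 2 ^ (2 + 2 * a + 1) := by rw [pow_succ]
        _ ≤ 2 ^ (6 * a) := pow_le_pow_right₀ (by norm_num) (by omega)
    have h2 := one_add_pow_le (x := 1 / 2 ^ (6 * a)) (by positivity) (D := 4 * e * 2 ^ a)
      (by linarith)
    linarith
  · -- tail
    rw [← hσ, div_pow, one_pow, ← pow_mul, mul_one_div, div_div, div_le_div_iff₀ (by positivity)
      (by positivity), one_mul]
    have h8 : (8 : ℝ) = 2 ^ 3 := by norm_num
    rw [h8, ← pow_add, ← pow_add]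
    refine pow_le_pow_right₀ (by norm_num) ?_
    have : 6 * a * (2 * σ) = 12 * (a * σ) := by ring
    omega
  · rw [div_le_one (by positivity)]
    exact one_le_pow₀ (by norm_num)
  · -- L
    rw [← hσ, Real.log_pow]
    have hlog : Real.log 2 ≤ 1 := by
      have := Real.log_two_lt_d9
      linarith
    have h1 : (σ : ℝ) * (((96 * a : ℕ) : ℝ) * Real.log 2) ≤ σ * (96 * a : ℕ) := by
      refine mul_le_mul_of_nonneg_left ?_ (by positivity)
      exact mul_le_of_le_one_right (by positivity) hlog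
    have h2 : 2 + σ * (96 * a) ≤ 2 ^ (6 * a) := by
      have h3 : a ≤ 2 ^ a := Nat.lt_two_pow_self.le
      have h5 : 1 ≤ 2 ^ a := Nat.one_le_two_pow
      have h6 : σ * (96 * a) * 10 ≤ 2 ^ a * 2 ^ a * 2 ^ a := by
        calc σ * (96 * a) * 10 ≤ (1024 * σ) * a := by nlinarith
          _ ≤ (2 ^ a * 2 ^ a) * 2 ^ a := Nat.mul_le_mul hσa h3
      have h7 : 8 ≤ 2 ^ a * 2 ^ a * 2 ^ a := by
        have : 2 ≤ 2 ^ a := by omega
        calc 8 = 2 * 2 * 2 := by norm_num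
          _ ≤ _ := by gcongr
      calc 2 + σ * (96 * a) ≤ 2 ^ a * 2 ^ a * 2 ^ a := by omega
        _ = 2 ^ (3 * a) := by rw [← pow_add, ← pow_add]; congr 1; ring
        _ ≤ 2 ^ (6 * a) := Nat.pow_le_pow_right (by norm_num) (by omega)
    have h2' : (2 : ℝ) + σ * (96 * a : ℕ) ≤ 2 ^ (6 * a) := by exact_mod_cast h2
    push_cast at h1 h2' ⊢
    linarith
  · -- hsum
    have hx : (4 : ℝ) * (1 / (2 ^ (96 * a) * (1 / 2 ^ (6 * a)) ^ 2)) / (1 / 2 ^ (60 * a)) =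
        2 ^ (72 * a + 2) / 2 ^ (96 * a) := by
      have h1 : (2 : ℝ) ^ (72 * a + 2) = 2 ^ (60 * a) * (2 ^ (6 * a)) ^ 2 * 4 := by
        rw [← pow_mul, ← pow_add, show (4 : ℝ) = 2 ^ 2 by norm_num, ← pow_add]
        congr 1
        ring
      rw [h1]
      field_simp
    rw [hx]
    have hDx : ((4 * e * 2 ^ a : ℕ) : ℝ) * (2 ^ (72 * a + 2) / 2 ^ (96 * a)) ≤
        2 ^ (74 * a + 4) / 2 ^ (96 * a) := by
      rw [mul_div_assoc']
      refine div_le_div_of_nonneg_right ?_ (by positivity)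
      calc ((4 * e * 2 ^ a : ℕ) : ℝ) * 2 ^ (72 * a + 2) ≤ 2 ^ (2 + 2 * a) * 2 ^ (72 * a + 2) := by
            gcongr
        _ = 2 ^ (74 * a + 4) := by rw [← pow_add]; congr 1; ring
    have hsmall : (2 : ℝ) ^ (74 * a + 4) / 2 ^ (96 * a) ≤ 1 := by
      rw [div_le_one (by positivity)]
      exact pow_le_pow_right₀ (by norm_num) (by omega)
    have h2 := one_add_pow_le (x := (2 : ℝ) ^ (72 * a + 2) / 2 ^ (96 * a)) (by positivity)
      (D := 4 * e * 2 ^ a) (hDx.trans hsmall)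
    have h3 : (1 + (2 : ℝ) ^ (72 * a + 2) / 2 ^ (96 * a)) ^ (4 * e * 2 ^ a) - 1 ≤
        2 * (2 ^ (74 * a + 4) / 2 ^ (96 * a)) := by linarith
    calc ((2 : ℝ) ^ (6 * a)) ^ 2 *
          ((1 + (2 : ℝ) ^ (72 * a + 2) / 2 ^ (96 * a)) ^ (4 * e * 2 ^ a) - 1)
        ≤ (2 ^ (6 * a)) ^ 2 * (2 * (2 ^ (74 * a + 4) / 2 ^ (96 * a))) := by gcongr
      _ = 2 ^ (86 * a + 5) / 2 ^ (96 * a) := by
          have : (2 : ℝ) ^ (86 * a + 5) = (2 ^ (6 * a)) ^ 2 * (2 * 2 ^ (74 * a + 4)) := by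
            rw [← pow_mul, ← pow_succ', ← pow_add]; congr 1; ring
          rw [this]; ring
      _ ≤ 1 := by
          rw [div_le_one (by positivity)]
          exact pow_le_pow_right₀ (by norm_num) (by omega)
  · -- hmain
    rw [← hσ]
    have h1 : (32 : ℝ) * (2 ^ (3 * (a * σ))) ^ 2 * (r + 1) / (1 / 2 ^ (3 * (a * σ))) ^ 2 *
        2 ^ (6 * a) * (4 * 2 ^ (6 * a)) ^ σ ≤
        32 * (2 ^ (3 * (a * σ))) ^ 2 * 2 ^ (3 * (a * σ)) / (1 / 2 ^ (3 * (a * σ))) ^ 2 *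
        2 ^ (6 * a) * (4 * 2 ^ (6 * a)) ^ σ := by gcongr
    refine h1.trans ?_
    have h2 : (32 : ℝ) * (2 ^ (3 * (a * σ))) ^ 2 * 2 ^ (3 * (a * σ)) /
        (1 / 2 ^ (3 * (a * σ))) ^ 2 *
        2 ^ (6 * a) * (4 * 2 ^ (6 * a)) ^ σ = 2 ^ (5 + 15 * (a * σ) + 6 * a + (2 + 6 * a) * σ) := by
      have h4 : (4 : ℝ) * 2 ^ (6 * a) = 2 ^ (2 + 6 * a) := by rw [pow_add]; norm_num
      rw [h4, show (32 : ℝ) = 2 ^ 5 by norm_num, div_pow, one_pow, div_div_eq_mul_div, div_one]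
      rw [← pow_mul, ← pow_mul, ← pow_add, ← pow_add, ← pow_add, ← pow_add, ← pow_add]
      congr 1
      ring
    rw [h2, ← pow_mul]
    refine pow_le_pow_right₀ (by norm_num) ?_
    nlinarith
  · -- hunion
    rw [← hσ]
    have hr' : (r : ℝ) ≤ 2 ^ (3 * (a * σ)) := by linarith
    have h1 : (r : ℝ) * ((2 ^ (6 * a)) ^ 2 * (1 / 2 ^ (60 * a)) ^ σ *
        (32 * (2 ^ (3 * (a * σ))) ^ 2 * (r + 1) / (1 / 2 ^ (3 * (a * σ))) ^ 2)) ≤
        2 ^ (3 * (a * σ)) * ((2 ^ (6 * a)) ^ 2 * (1 / 2 ^ (60 * a)) ^ σ *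
        (32 * (2 ^ (3 * (a * σ))) ^ 2 * 2 ^ (3 * (a * σ)) / (1 / 2 ^ (3 * (a * σ))) ^ 2)) := by
      gcongr
    have h2 : (2 : ℝ) ^ (3 * (a * σ)) * ((2 ^ (6 * a)) ^ 2 * (1 / 2 ^ (60 * a)) ^ σ *
        (32 * (2 ^ (3 * (a * σ))) ^ 2 * 2 ^ (3 * (a * σ)) / (1 / 2 ^ (3 * (a * σ))) ^ 2)) =
        2 ^ (18 * (a * σ) + 12 * a + 5) / 2 ^ (60 * (a * σ)) := by
      rw [show (32 : ℝ) = 2 ^ 5 by norm_num, div_pow, one_pow, div_pow, one_pow,
        div_div_eq_mul_div, div_one]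
      have h5 : (60 * a) * σ = 60 * (a * σ) := by ring
      rw [← pow_mul (2 : ℝ) (60 * a) σ, h5]
      rw [mul_one_div, div_mul_eq_mul_div, mul_div_assoc']
      congr 1
      rw [← pow_mul, ← pow_mul, ← pow_add, ← pow_add, ← pow_add, ← pow_add, ← pow_add]
      congr 1
      ring
    have h3 : (2 : ℝ) ^ (18 * (a * σ) + 12 * a + 5) / 2 ^ (60 * (a * σ)) ≤ 1 / 4 := by
      rw [div_le_div_iff₀ (by positivity) (by norm_num), one_mul, show (4 : ℝ) = 2 ^ 2 by norm_num,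
        ← pow_add]
      exact pow_le_pow_right₀ (by norm_num) (by omega)
    have h4 : (((4 * e : ℕ) : ℝ) * 2 ^ a) / 2 ^ (2 * (96 * a)) ≤ 1 / 4 := by
      rw [div_le_div_iff₀ (by positivity) (by norm_num), one_mul]
      have : (((4 * e : ℕ) : ℝ) * 2 ^ a) ≤ 2 ^ (2 + 2 * a) := by
        have := hDle'
        push_cast at this ⊢
        exact this
      calc (((4 * e : ℕ) : ℝ) * 2 ^ a) * 4 ≤ 2 ^ (2 + 2 * a) * 4 := by gcongr
        _ = 2 ^ (2 + 2 * a + 2) := by rw [pow_add _ (2 + 2 * a) 2]; norm_num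
        _ ≤ 2 ^ (2 * (96 * a)) := pow_le_pow_right₀ (by norm_num) (by omega)
    rw [h2] at h1
    push_cast at h4 ⊢
    linarith

end Pool.Agent.H7LP
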