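import Pool.Agent.H7LP.TableDefs
import Pool.Agent.H7LP.Params

/-!
# Hard tables and relaxations
-/

namespace Pool.Agent.H7LP

open Finset
open Pool.Agent.H87.PMCSP (Circuit gop truthTable circuitPolytope HasExtension)

variable {n : ℕ}

/-- the partial table with the values `T` at the points `p` -/
noncomputable def table {z : ℕ} (p : Fin z → Fin n → Bool) (T : Fin z → Bool) :
    (Fin n → Bool) → Option Bool := by
  classical
  exact fun x => if h : ∃ i, p i = x then some (T h.choose) else none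

theorem table_apply {z : ℕ} {p : Fin z → Fin n → Bool} (hp : Function.Injective p)
    (T : Fin z → Bool) (i : Fin z) : table p T (p i) = some (T i) := by
  have h : ∃ j, p j = p i := ⟨i, rfl⟩
  have h1 : h.choose = i := hp h.choose_spec
  simp only [table, dif_pos h, h1]

theorem table_none {z : ℕ} {p : Fin z → Fin n → Bool} (T : Fin z → Bool) {x : Fin n → Bool}
    (hx : ¬ ∃ i, p i = x) : table p T x = none := by
  simp only [table, dif_neg hx]

theorem agreement_table {z : ℕ} {p : Fin z → Fin n → Bool} (hp : Function.Injective p)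
    (T : Fin z → Bool) (v : (Fin n → Bool) → ℝ) :
    agreement (table p T) v = ∑ i, if T i then v (p i) else 1 - v (p i) := by
  classical
  have h1 : agreement (table p T) v = ∑ x ∈ (Finset.univ : Finset (Fin z)).image p,
      match table p T x with
        | none => 0
        | some true => v x
        | some false => 1 - v x := by
    unfold agreement
    symm
    refine Finset.sum_subset (Finset.subset_univ _) fun x _ hx => ?_
    rw [table_none T]
    rintro ⟨i, hi⟩
    exact hx (Finset.mem_image.mpr ⟨i, Finset.mem_univ _, hi⟩)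
  rw [h1, Finset.sum_image fun i _ j _ hij => hp hij]
  refine Finset.sum_congr rfl fun i _ => ?_
  rw [table_apply hp]
  cases T i <;> simp

theorem domSize_table {z : ℕ} {p : Fin z → Fin n → Bool} (hp : Function.Injective p)
    (T : Fin z → Bool) : domSize (table p T) = z := by
  classical
  have h1 : (Finset.univ.filter fun x => table p T x ≠ none) =
      (Finset.univ : Finset (Fin z)).image p := by
    ext x
    simp only [Finset.mem_filter, Finset.mem_univ, true_and, Finset.mem_image]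
    constructor
    · intro h
      by_contra hne
      exact h (table_none T hne)
    · rintro ⟨i, rfl⟩
      rw [table_apply hp]
      simp
  rw [domSize, h1, Finset.card_image_of_injective _ hp]
  simp

theorem sound_of_refutes {g te m : ℕ} {S η η' : ℝ} (hS0 : 0 < S) (hS : S ≤ 2 ^ g)
    (hn : m + 1 ≤ 2 ^ g) (hg : 5 ≤ g) (hte : 5 * g ≤ te) {K : Set ((Fin n → Bool) → ℝ)}
    (hK : Refutes K S η) (hη : η' ≤ η) (p : Fin (2 ^ te) → Fin n → Bool) (Q : Finset (Fin n))
    (hp : Function.Injective p) (hQ : Q.card ≤ m) (hpQ : ∀ x, ∀ q ∉ Q, p x q = false) :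
    ∃ T : Fin (2 ^ te) → Bool, ∀ v ∈ K, ∑ x, sgn (T x) * (1 - 2 * v (p x)) ≤
      (1 - 2 * η') * (2 ^ te : ℕ) := by
  obtain ⟨T, hT⟩ := exists_hard_supp (S := 2 ^ g) p Q hQ hpQ (δ := 1 / 2 ^ g) (by positivity) (by
    have h1 : ((4 * ((m + 1) + 2 ^ g) : ℕ) : ℝ) ≤ 2 ^ (g + 3) := by
      have : 4 * ((m + 1) + 2 ^ g) ≤ 2 ^ (g + 3) := by rw [pow_add]; omega
      exact_mod_cast this
    have h2 : ((4 * ((m + 1) + 2 ^ g) : ℕ) : ℝ) ^ (2 * (2 ^ g + 1)) ≤
        2 ^ ((g + 3) * (2 * (2 ^ g + 1))) := by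
      rw [pow_mul (2 : ℝ) (g + 3)]
      exact pow_le_pow_left₀ (by positivity) h1 _
    have h3 : (2 : ℝ) ^ ((g + 3) * (2 * (2 ^ g + 1))) ≤
        Real.exp (((g + 3) * (2 * (2 ^ g + 1)) : ℕ) : ℝ) := by
      have h4 : (2 : ℝ) ≤ Real.exp 1 := by linarith [Real.exp_one_gt_d9]
      calc (2 : ℝ) ^ ((g + 3) * (2 * (2 ^ g + 1))) ≤
            (Real.exp 1) ^ ((g + 3) * (2 * (2 ^ g + 1))) :=
              pow_le_pow_left₀ (by norm_num) h4 _
        _ = _ := by rw [← Real.exp_nat_mul, mul_one]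
    have h5 : (((g + 3) * (2 * (2 ^ g + 1)) : ℕ) : ℝ) < 2 * (1 / 2 ^ g) ^ 2 * (2 ^ te : ℕ) := by
      have h6 : (2 : ℝ) * (1 / 2 ^ g) ^ 2 * (2 ^ te : ℕ) = (2 * 2 ^ (te - 2 * g) : ℕ) := by
        have h7 : (2 : ℝ) ^ te = 2 ^ (te - 2 * g) * (2 ^ g) ^ 2 := by
          rw [← pow_mul, ← pow_add]; congr 1; omega
        push_cast
        rw [h7]
        field_simp
      rw [h6]
      refine Nat.cast_lt.mpr ?_
      have h8 : g + 3 ≤ 2 ^ g := by
        obtain ⟨g', rfl⟩ : ∃ g', g = g' + 5 := ⟨g - 5, by omega⟩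
        have := Nat.lt_two_pow_self (n := g')
        rw [pow_add]
        omega
      have h9 : 2 ^ g * 2 ^ g * 2 ^ g ≤ 2 ^ (te - 2 * g) := by
        rw [← pow_add, ← pow_add]
        exact Nat.pow_le_pow_right (by norm_num) (by omega)
      have h10 : (2 ^ g + 1) < 2 ^ g * 2 ^ g := by
        have : 8 ≤ 2 ^ g := by omega
        nlinarith
      calc (g + 3) * (2 * (2 ^ g + 1)) ≤ 2 ^ g * (2 * (2 ^ g + 1)) := Nat.mul_le_mul_right _ h8
        _ < 2 ^ g * (2 * (2 ^ g * 2 ^ g)) :=
          Nat.mul_lt_mul_of_pos_left (by omega) (by positivity)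
        _ = 2 * (2 ^ g * 2 ^ g * 2 ^ g) := by ring
        _ ≤ 2 * 2 ^ (te - 2 * g) := Nat.mul_le_mul_left _ h9
    calc ((4 * ((m + 1) + 2 ^ g) : ℕ) : ℝ) ^ (2 * (2 ^ g + 1)) *
          Real.exp (-(2 * (1 / 2 ^ g) ^ 2 * (2 ^ te : ℕ)))
        ≤ Real.exp (((g + 3) * (2 * (2 ^ g + 1)) : ℕ) : ℝ) *
          Real.exp (-(2 * (1 / 2 ^ g) ^ 2 * (2 ^ te : ℕ))) :=
          mul_le_mul_of_nonneg_right (h2.trans h3) (Real.exp_pos _).le
      _ < 1 := by
          rw [← Real.exp_add, Real.exp_lt_one_iff]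
          linarith)
  refine ⟨T, fun v hv => ?_⟩
  have hhard : HardTable S (table p T) := by
    intro c hc
    have h1 : c.size ≤ 2 ^ g := by
      have : (c.size : ℝ) ≤ (2 ^ g : ℕ) := by push_cast; linarith
      exact_mod_cast this
    have h2 := hT c h1
    have h3 : agreement (table p T) (truthTable c) = agr (fun x => c.eval (p x)) T := by
      rw [agreement_table hp, agr, Finset.card_filter]
      push_cast
      refine Finset.sum_congr rfl fun i _ => ?_
      unfold truthTable
      cases T i <;> cases c.eval (p i) <;> simp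
    rw [h3, domSize_table hp]
    refine h2.trans (mul_le_mul_of_nonneg_right ?_ (Nat.cast_nonneg _))
    have : 1 / (2 : ℝ) ^ g ≤ 1 / S := one_div_le_one_div_of_le hS0 hS
    linarith
  have h1 := hK _ hhard v hv
  rw [agreement_table hp, domSize_table hp] at h1
  have h2 : ∑ x, sgn (T x) * (1 - 2 * v (p x)) =
      2 * (∑ i, if T i then v (p i) else 1 - v (p i)) - (2 ^ te : ℕ) := by
    have h3 : ∀ x, sgn (T x) * (1 - 2 * v (p x)) =
        2 * (if T x then v (p x) else 1 - v (p x)) - 1 := by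
      intro x
      unfold sgn
      split_ifs <;> ring
    simp only [h3, Finset.sum_sub_distrib, ← Finset.mul_sum]
    simp
  rw [h2]
  have h4 : ((1 : ℝ) - η) * (2 ^ te : ℕ) ≤ (1 - η') * (2 ^ te : ℕ) :=
    mul_le_mul_of_nonneg_right (by linarith) (Nat.cast_nonneg _)
  linarith

end Pool.Agent.H7LP
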