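import Pool.Agent.H87.PMCSP.PolyDefs

/-!
# Partial truth tables and linear relaxations: definitions
-/

namespace Pool.Agent.H7LP

open Pool.Agent.H87.PMCSP (Circuit truthTable)

/-- The number of places at which the partial truth table `T` is defined and agrees with `v`;
it is extended to real vectors `v` as an affine function. -/
noncomputable def agreement {n : ℕ} (T : (Fin n → Bool) → Option Bool)
    (v : (Fin n → Bool) → ℝ) : ℝ :=
  ∑ x, match T x with
    | none => 0
    | some true => v x
    | some false => 1 - v x

/-- The number of places at which `T` is defined. -/
def domSize {n : ℕ} (T : (Fin n → Bool) → Option Bool) : ℕ :=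
  (Finset.univ.filter fun x => T x ≠ none).card

/-- No circuit with at most `S` gates agrees with `T` on more than the fraction `1/2 + 1/S` of
the places at which `T` is defined. -/
def HardTable {n : ℕ} (S : ℝ) (T : (Fin n → Bool) → Option Bool) : Prop :=
  ∀ c : Circuit n, (c.size : ℝ) ≤ S →
    agreement T (truthTable c) ≤ (1 / 2 + 1 / S) * domSize T

/-- On `K`, the agreement with a hard table is at most the fraction `1 - η` of the number of
places at which the table is defined. -/
def Refutes {n : ℕ} (K : Set ((Fin n → Bool) → ℝ)) (S η : ℝ) : Prop :=
  ∀ T : (Fin n → Bool) → Option Bool, HardTable S T →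
    ∀ v ∈ K, agreement T v ≤ (1 - η) * domSize T

end Pool.Agent.H7LP
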